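import Pool.Agent.EXK2.Concl

/-!
# EXW / ConclPt: growth at ONE generic point is enough

PROOF.  The middle part of the proof of `EXK2.concl_codim2` (copy it) with `U = 1`: `τ` of `exists_aut` with `τ (pl.ρ (A j.succ)) = α j` (both
tuples are independent: `hrel`, `ha`), `concl_nf2` for `conj pl τ`.
-/

set_option autoImplicit false

namespace Pool.Agent.EXW

open MvPolynomial Pool.Agent.EXL Pool.Agent.EXI Pool.Agent.EXK Pool.Agent.EXK2

private theorem pt_eval {k : Subfield ℂ} {m : ℕ} (a b : Fin (m + 1) → ℂ)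
    (K : IntermediateField k ℂ) (A B : Fin (m + 1) → K) (hA : ∀ j, ((A j : K) : ℂ) = a j)
    (hB : ∀ j, ((B j : K) : ℂ) = b j) (f : MvPolynomial (Fin (m + 1) ⊕ Fin (m + 1)) k) :
    aeval (Sum.elim a b) f = ((aeval (Sum.elim A B) f : K) : ℂ) := by
  have h1 := aeval_algebraMap_apply (R := k) ℂ (Sum.elim A B) f
  refine Eq.trans ?_ h1
  congr 2
  funext i
  rcases i with i | i
  · exact (hA i).symm
  · exact (hB i).symm

theorem concl_pt (k : Subfield ℂ) (hk : (k : Set ℂ).Countable) {m : ℕ}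
    (a b : Fin (m + 1) → ℂ) (hb : ∀ j, b j ≠ 0) (F : MvPolynomial (Fin (m + 1)) k)
    (hF : ∀ f : MvPolynomial (Fin (m + 1)) k, aeval a f = 0 ↔ F ∣ f)
    (htd : td (k : Set ℂ) (Sum.elim a b) = m + 1)
    (ha : AlgebraicIndependent k (fun j : Fin m => a j.succ))
    (K : IntermediateField k ℂ)
    (hfg : ∃ S : Finset K, IntermediateField.adjoin k (S : Set K) = ⊤)
    (htr : ∀ y : Fin (m + 2) → K, ¬ AlgebraicIndependent k y) (pl : Place k K)
    (A B : Fin (m + 1) → pl.O) (hA : ∀ j, ((A j : K) : ℂ) = a j)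
    (hB : ∀ j, ((B j : K) : ℂ) = b j)
    (hρ0 : pl.ρ (B 0) = 0) (hρ1 : ∀ j : Fin m, pl.ρ (B j.succ) ≠ 0)
    (hrel : ∀ f : MvPolynomial (Fin (m + 1)) k, aeval (fun j => pl.ρ (A j)) f = 0 ↔ aeval a f = 0)
    (α : Fin m → ℂ) (hα : AlgebraicIndependent k α) (hre : ∀ j, (α j).re = 0)
    (ε : ℝ) (hε : 0 < ε)
    (hgrow : ∃ᶠ T : ℝ in Filter.atTop, ∃ x : ℂ,
      aeval (Fin.cons x (fun j : Fin m => (T : ℂ) * α j) : Fin (m + 1) → ℂ) F = 0 ∧
        x.re ≤ -T ^ ε * (1 + ‖x‖ / T))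
    (h : MvPolynomial (Fin (m + 1) ⊕ Fin (m + 1)) k) (hh : aeval (Sum.elim a b) h ≠ 0) :
    ∃ a' b' : Fin (m + 1) → ℂ, (∀ j, b' j = Complex.exp (a' j)) ∧
      Spec k (Sum.elim a b) (Sum.elim a' b') ∧ aeval (Sum.elim a' b') h ≠ 0 := by
  have hF' : ∀ f : MvPolynomial (Fin (m + 1)) k,
      aeval (fun j => pl.ρ (A j)) f = 0 ↔ F ∣ f := fun f => (hrel f).trans (hF f)
  have hind : AlgebraicIndependent k (fun j : Fin m => pl.ρ (A j.succ)) := by
    rw [algebraicIndependent_iff]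
    intro f hf
    have h2 : aeval (fun j => pl.ρ (A j)) (rename Fin.succ f) = 0 := by
      rw [aeval_rename]
      exact hf
    have h3 := (hrel _).1 h2
    rw [aeval_rename] at h3
    exact algebraicIndependent_iff.1 ha f h3
  obtain ⟨τ, hτ, hτ'⟩ := exists_aut k hk (fun j : Fin m => pl.ρ (A j.succ)) α (by
    intro f
    constructor
    · intro hf
      rw [algebraicIndependent_iff.1 hind f hf, map_zero]
    · intro hf
      rw [algebraicIndependent_iff.1 hα f hf, map_zero])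
  have hval := pt_eval a b K (fun j => (A j : K)) (fun j => (B j : K)) hA hB
  have hB0 : ((B 0 : pl.O) : K) ≠ 0 := by
    intro hz
    have h1 := hB 0
    rw [hz] at h1
    exact hb 0 h1.symm
  have hαe : (fun j : Fin m => (conj pl τ hτ).ρ (A j.succ)) = α := by
    funext j
    exact hτ' j
  have hαj : ∀ j : Fin m, (conj pl τ hτ).ρ (A j.succ) = α j := fun j => congrFun hαe j
  obtain ⟨a', b', hs, hsp, hne⟩ := concl_nf2 hk (conj pl τ hτ) hfg htr A B hB0
    (by
      change τ (pl.ρ (B 0)) = 0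
      rw [hρ0, map_zero])
    (fun j => by
      change τ (pl.ρ (B j.succ)) ≠ 0
      exact fun hz => hρ1 j ((map_eq_zero_iff τ τ.injective).1 hz))
    F (fun f => (conj_rel pl τ hτ A f).trans (hF' f)) (by rw [hαe]; exact hα)
    (fun j => by
      rw [hαj j]
      exact hre j) ε hε
    (by
      refine hgrow.mono ?_
      rintro T ⟨x, hx, hxr⟩
      refine ⟨x, ?_, hxr⟩
      rw [← hx]
      congr 2
      funext i
      rcases Fin.eq_zero_or_eq_succ i with rfl | ⟨j, rfl⟩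
      · rfl
      · rw [Fin.cons_succ, Fin.cons_succ, hαj j]) h (by
      intro hz
      apply hh
      rw [hval, hz]
      rfl)
  refine ⟨a', b', hs, ?_, hne⟩
  intro f hf
  apply hsp
  rw [hval] at hf
  exact Subtype.ext hf

end Pool.Agent.EXW
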