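import Pool.Agent.EXP.Elim
import Pool.Agent.EXG.Gz

/-!
# EXW / DiscW: the discriminant

PROOF.  `F` is irreducible of positive degree in `X 0` (see `EXG.gen_zero`), `∂_0 F ≠ 0` is not a multiple of `F` (degree in `X 0`); the resultant
(`res_ne` of `EXP/Elim`, or `elim`) is a nonzero polynomial in `X'` in the ideal of `F` and `∂_0 F`.
-/

set_option autoImplicit false

namespace Pool.Agent.EXW

open MvPolynomial

private lemma dw_eval (k : Subfield ℂ) {m : ℕ} (x : Fin (m + 1) → ℂ)
    (P : MvPolynomial (Fin (m + 1)) k) :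
    (finSuccEquiv k m P).eval₂
      ((aeval fun j : Fin m => x j.succ : MvPolynomial (Fin m) k →ₐ[k] ℂ) :
        MvPolynomial (Fin m) k →+* ℂ) (x 0) = aeval x P := by
  have h : (Polynomial.eval₂RingHom
      ((aeval fun j : Fin m => x j.succ : MvPolynomial (Fin m) k →ₐ[k] ℂ) :
        MvPolynomial (Fin m) k →+* ℂ) (x 0)).comp
      (finSuccEquiv k m : MvPolynomial (Fin (m + 1)) k →+* Polynomial (MvPolynomial (Fin m) k)) =
      ((aeval x : MvPolynomial (Fin (m + 1)) k →ₐ[k] ℂ) : MvPolynomial (Fin (m + 1)) k →+* ℂ) := by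
    refine MvPolynomial.ringHom_ext ?_ ?_
    · intro c
      simp [finSuccEquiv_apply]
    · intro j
      refine Fin.cases ?_ (fun j => ?_) j
      · simp [finSuccEquiv_X_zero]
      · simp [finSuccEquiv_X_succ]
  exact congrArg (fun φ => φ P) h

private lemma dw_deriv (k : Subfield ℂ) {m : ℕ} (P : MvPolynomial (Fin (m + 1)) k) :
    finSuccEquiv k m (pderiv 0 P) = Polynomial.derivative (finSuccEquiv k m P) := by
  induction P using MvPolynomial.induction_on with
  | C a =>
    rw [pderiv_C, map_zero, finSuccEquiv_apply, eval₂Hom_C]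
    simp
  | add p q hp hq => rw [map_add, map_add, map_add, map_add, hp, hq]
  | mul_X p j hp =>
    rw [pderiv_mul, map_add, map_mul, map_mul, map_mul, Polynomial.derivative_mul, hp]
    refine Fin.cases ?_ (fun j => ?_) j
    · rw [pderiv_X_self, finSuccEquiv_X_zero, Polynomial.derivative_X, map_one]
    · rw [pderiv_X_of_ne (Fin.succ_ne_zero j), finSuccEquiv_X_succ, Polynomial.derivative_C,
        map_zero]

theorem exists_disc (k : Subfield ℂ) {m : ℕ} (F : MvPolynomial (Fin (m + 1)) k) (hF0 : F ≠ 0)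
    (a : Fin (m + 1) → ℂ) (hF : ∀ f : MvPolynomial (Fin (m + 1)) k, aeval a f = 0 ↔ F ∣ f)
    (ha : AlgebraicIndependent k (fun j : Fin m => a j.succ)) :
    ∃ N : MvPolynomial (Fin m) k, N ≠ 0 ∧ ∀ x : Fin (m + 1) → ℂ, aeval x F = 0 →
      aeval x (pderiv 0 F) = 0 → aeval (fun j : Fin m => x j.succ) N = 0 := by
  have hirr : Irreducible F := by
    refine Prime.irreducible ⟨hF0, ?_, ?_⟩
    · intro hu
      have h1 : F ∣ 1 := hu.dvd
      have h2 := (hF 1).2 h1
      rw [map_one] at h2
      exact one_ne_zero h2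
    · intro p q hpq
      have h1 := (hF _).2 hpq
      rw [map_mul] at h1
      rcases mul_eq_zero.1 h1 with h2 | h2
      · exact Or.inl ((hF p).1 h2)
      · exact Or.inr ((hF q).1 h2)
  have hdeg : (finSuccEquiv k m F).natDegree ≠ 0 := by
    intro h0
    obtain ⟨c, hc⟩ := Polynomial.natDegree_eq_zero.1 h0
    have h1 : aeval a F = 0 := (hF F).2 dvd_rfl
    rw [← dw_eval, ← hc, Polynomial.eval₂_C] at h1
    have h2 : c = 0 := (algebraicIndependent_iff.1 ha) c h1
    rw [h2, map_zero] at hc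
    exact hF0 ((map_eq_zero_iff (finSuccEquiv k m) (finSuccEquiv k m).injective).1 hc.symm)
  have hd0 : Polynomial.derivative (finSuccEquiv k m F) ≠ 0 := fun h =>
    hdeg (Polynomial.derivative_eq_zero.1 h)
  have hnd : ¬ finSuccEquiv k m F ∣ finSuccEquiv k m (pderiv 0 F) := by
    rw [dw_deriv]
    intro h
    have h1 := Polynomial.natDegree_le_of_dvd h hd0
    have h2 := Polynomial.natDegree_derivative_lt hdeg
    omega
  refine ⟨Polynomial.resultant (finSuccEquiv k m F) (finSuccEquiv k m (pderiv 0 F)),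
    EXP.res_ne ((MulEquiv.irreducible_iff (finSuccEquiv k m)).2 hirr) hdeg hnd, ?_⟩
  intro x hx hx'
  obtain ⟨p, q, -, -, hpq⟩ := Polynomial.exists_mul_add_mul_eq_C_resultant
    (finSuccEquiv k m F) (finSuccEquiv k m (pderiv 0 F)) le_rfl le_rfl (Or.inl hdeg)
  have h3 := congrArg (fun P => Polynomial.eval₂
    ((aeval fun j : Fin m => x j.succ : MvPolynomial (Fin m) k →ₐ[k] ℂ) :
      MvPolynomial (Fin m) k →+* ℂ) (x 0) P) hpq
  simp only [Polynomial.eval₂_add, Polynomial.eval₂_mul, Polynomial.eval₂_C] at h3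
  rw [dw_eval, dw_eval, hx, hx', zero_mul, zero_mul, add_zero] at h3
  exact h3.symm

end Pool.Agent.EXW
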