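import Pool.Agent.EXK.KTop
import Pool.Agent.EXK.KRoot

/-!
# EXW / ChartW: the branch of the hypersurface at infinity over `T α`, with parameters

PROOF.  `c : Fin 1 → ℂ`, `c 0 = r0`; `emb_root` for `ρ₀`, `top_chartN`: `ν 0 = -e` because the coefficients below `-e` vanish, that at `-e` is
`ρ₀ ≠ 0`, and the coefficients below `ν 0` vanish and that at `ν 0` is `V 0 (α, 0) ≠ 0`. `F` is a relation of `(α, c)` (after renaming), so
`Spec` gives the last clause. `r0 ≠ 0` because `F ∤ X 0`.. (if `r0 = 0` then `F ∣ X 0`, so `F` is a constant times `X 0` and `ρ₀ = 0`).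
-/

set_option autoImplicit false

namespace Pool.Agent.EXW

open MvPolynomial Pool.Agent.EXL Pool.Agent.EXI Pool.Agent.EXK Topology

private theorem cw_comp {R : Type*} [CommRing R] {n d : ℕ} (Fc : ℕ → MvPolynomial (Fin n) R)
    (hFc : ∀ i, (Fc i).IsHomogeneous i) :
    homogeneousComponent d (∑ i ∈ Finset.range (d + 1), Fc i) = Fc d := by
  rw [map_sum, Finset.sum_eq_single_of_mem d (Finset.mem_range.2 (Nat.lt_succ_self d))]
  · rw [homogeneousComponent_of_mem (hFc d), if_pos rfl]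
  · intro i _ hi
    rw [homogeneousComponent_of_mem (hFc i), if_neg (Ne.symm hi)]

private theorem cw_alg (k : Subfield ℂ) {m : ℕ} (α : Fin m → ℂ) (hα : AlgebraicIndependent k α)
    (F : MvPolynomial (Fin (m + 1)) k) (hF0 : F ≠ 0) (r0 : ℂ)
    (hx : aeval (Fin.cons r0 α : Fin (m + 1) → ℂ) F = 0) :
    IsAlgebraic (Algebra.adjoin k (Set.range α)) r0 := by
  by_contra hna
  have h3 : AlgebraicIndependent k (fun o : Option (Fin m) => o.elim r0 α) :=
    (hα.option_iff_transcendental r0).2 hna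
  set e : MvPolynomial (Fin (m + 1)) k ≃ₐ[k] MvPolynomial (Option (Fin m)) k :=
    renameEquiv k (_root_.finSuccEquiv m) with he
  have hev : aeval (fun o : Option (Fin m) => o.elim r0 α) (e F) =
      aeval (Fin.cons r0 α : Fin (m + 1) → ℂ) F := by
    have h1 : e F = rename (_root_.finSuccEquiv m) F := rfl
    rw [h1, aeval_rename]
    congr 1
    congr 1
    funext j
    refine Fin.cases ?_ (fun j => ?_) j
    · simp
    · simp
  have h5 : e F = 0 := h3 (by rw [hev, hx, map_zero])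
  exact hF0 ((map_eq_zero_iff e e.injective).1 h5)

theorem chartW (k : Subfield ℂ) {m : ℕ} (α : Fin m → ℂ) (hα : AlgebraicIndependent k α)
    (F : MvPolynomial (Fin (m + 1)) k) (r0 : ℂ)
    (hF : ∀ f : MvPolynomial (Fin (m + 1)) k,
      aeval (Fin.cons r0 α : Fin (m + 1) → ℂ) f = 0 ↔ F ∣ f)
    (d : ℕ) (Fc : ℕ → MvPolynomial (Fin (m + 1)) k) (hFc : ∀ i, (Fc i).IsHomogeneous i)
    (hFs : F = ∑ i ∈ Finset.range (d + 1), Fc i) (hFd : Fc d ≠ 0) (ρ₀ : ℂ) (hρ₀ : ρ₀ ≠ 0)
    (hroot : aeval (Fin.cons ρ₀ α : Fin (m + 1) → ℂ) (Fc d) = 0) :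
    ∃ (e : ℕ) (V : (Fin m → ℂ) × ℂ → ℂ), 1 ≤ e ∧ ContDiffAt ℂ 1 V (α, 0) ∧ V (α, 0) = ρ₀ ∧
      ∀ᶠ p : (Fin m → ℂ) × ℂ in 𝓝 (α, 0), p.2 ≠ 0 →
        aeval (Fin.cons ((p.2⁻¹) ^ e * V p) (fun j => p.1 j * (p.2⁻¹) ^ e) :
          Fin (m + 1) → ℂ) F = 0 := by
  have hcomp : homogeneousComponent d F = Fc d := by
    rw [hFs]
    exact cw_comp Fc hFc
  have hF0 : F ≠ 0 := by
    intro h0
    apply hFd
    rw [← hcomp, h0, map_zero]
  have hFr : aeval (Fin.cons r0 α : Fin (m + 1) → ℂ) F = 0 := (hF F).2 (dvd_refl F)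
  have hr0 : r0 ≠ 0 := by
    rintro rfl
    have h1 : F ∣ X 0 := by
      rw [← hF, aeval_X]
      rfl
    obtain ⟨H, hH⟩ := h1
    have hFu : ¬ IsUnit F := by
      intro hu
      have h2 : F ∣ 1 := hu.dvd
      rw [← hF, map_one] at h2
      exact one_ne_zero h2
    have hirr : Irreducible (X 0 : MvPolynomial (Fin (m + 1)) k) := X_prime.irreducible
    rcases hirr.isUnit_or_isUnit hH with h2 | h2
    · exact hFu h2
    · rw [MvPolynomial.isUnit_iff_eq_C_of_isReduced] at h2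
      obtain ⟨c, -, rfl⟩ := h2
      have h3 : homogeneousComponent d (X 0 : MvPolynomial (Fin (m + 1)) k) = C c * Fc d := by
        rw [hH, mul_comm, homogeneousComponent_C_mul, hcomp]
      rw [homogeneousComponent_of_mem (isHomogeneous_X k (0 : Fin (m + 1)))] at h3
      have hc : c ≠ 0 := by
        rintro rfl
        rw [C_0, mul_zero] at hH
        exact X_ne_zero _ hH
      split_ifs at h3 with hd
      · have h4 := congrArg (aeval (Fin.cons ρ₀ α : Fin (m + 1) → ℂ)) h3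
        rw [aeval_X, map_mul, hroot, mul_zero] at h4
        exact hρ₀ h4
      · have h4 : C c = (0 : MvPolynomial (Fin (m + 1)) k) ∨ Fc d = 0 := mul_eq_zero.1 h3.symm
        rcases h4 with h4 | h4
        · exact hc ((C_eq_zero).1 h4)
        · exact hFd h4
  have halg := cw_alg k α hα F hF0 r0 hFr
  obtain ⟨e, σ, he, hσk, hσα, hlow, hlead⟩ := emb_root k α hα (fun _ : Fin 1 => r0)
    (fun _ => halg) 0 F hF d Fc hFc hFs hFd ρ₀ hroot
  obtain ⟨ν, V, hV1, hV2, hV3, hV4, hV5⟩ := top_chartN k α hα (fun _ : Fin 1 => r0)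
    (fun _ => hr0) (fun _ => halg) e he σ hσk hσα
  have hν : ν 0 = -(e : ℤ) := by
    rcases lt_trichotomy (ν 0) (-(e : ℤ)) with h | h | h
    · exfalso
      apply hV2 0
      rw [← hV4 0, hlow (ν 0) h]
      rfl
    · exact h
    · exfalso
      apply hρ₀
      rw [← hlead, hV3 0 _ h]
      rfl
  refine ⟨e, V 0, he, hV1 0, ?_, ?_⟩
  · rw [← hV4 0, hν]
    exact hlead
  · filter_upwards [hV5] with p hp hp2
    have hg : ∀ (a : Fin m → ℂ) (b : Fin 1 → ℂ) (f : MvPolynomial (Fin (m + 1)) k),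
        aeval (Sum.elim a b) (rename (Fin.cons (Sum.inr 0) Sum.inl : Fin (m + 1) → Fin m ⊕ Fin 1) f)
          = aeval (Fin.cons (b 0) a : Fin (m + 1) → ℂ) f := by
      intro a b f
      rw [aeval_rename]
      congr 1
      congr 1
      funext j
      refine Fin.cases ?_ (fun j => ?_) j
      · simp
      · simp
    have h1 := hp hp2 (rename (Fin.cons (Sum.inr 0) Sum.inl : Fin (m + 1) → Fin m ⊕ Fin 1) F) (by
      rw [hg]
      exact hFr)
    rw [hg, hν, zpow_neg, zpow_natCast, ← inv_pow] at h1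
    exact h1

end Pool.Agent.EXW
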