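import Mathlib

/-!
# EXW / DichW: the real part of a branch is bounded, or a conjugate branch tends to `-∞` like a power

PROOF.  `W(s) = ∑_{n < e} w_n s^n + O(s^e)` at `0`. For `ζ^e = 1`, `s > 0`: `Re (s^(-e) W(ζ s)) = ∑_{n < e} Re (w_n ζ^n) s^(n-e) + O(1)`. If
`Re (w_n ζ^n) = 0` for all `n < e` and all `ζ`: bounded (`ζ = 1`). Otherwise let `n₀` be the smallest `n < e` such that
`Re (w_n ζ^n) ≠ 0` for some `ζ`; `n₀ ≥ 1` because `Re w_0 = 0`. If some `ζ` has `Re (w_{n₀} ζ^{n₀}) = -q < 0` then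
`Re (s^(-e) W(ζ s)) ≤ - (q / 2) s^(n₀ - e) ≤ - s^(-ε) (1 + ‖W(ζ s)‖)` for small `s`, `ε = (e - n₀) / 2`. Otherwise all
`Re (w_{n₀} ζ^{n₀}) ≥ 0`, one is positive, but `∑_ζ ζ^{n₀} = 0` because `e` does not divide `n₀`: contradiction.
-/

set_option autoImplicit false

namespace Pool.Agent.EXW

open Topology Filter

private theorem tay (e : ℕ) : ∀ W : ℂ → ℂ, AnalyticAt ℂ W 0 →
    ∃ (w : ℕ → ℂ) (R : ℂ → ℂ), AnalyticAt ℂ R 0 ∧
      ∀ z, W z = ∑ n ∈ Finset.range e, w n * z ^ n + z ^ e * R z := by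
  induction e with
  | zero =>
    intro W hW
    exact ⟨fun _ => 0, W, hW, fun z => by simp⟩
  | succ e ih =>
    intro W hW
    obtain ⟨w, R, hR, h⟩ := ih W hW
    obtain ⟨p, hp⟩ := hR
    refine ⟨fun n => if n = e then R 0 else w n, dslope R 0,
      ⟨_, hp.has_fpower_series_dslope_fslope⟩, fun z => ?_⟩
    have h1 := sub_smul_dslope R 0 z
    rw [sub_zero, smul_eq_mul] at h1
    rw [h z, Finset.sum_range_succ]
    show _ = (∑ n ∈ Finset.range e, (if n = e then R 0 else w n) * z ^ n +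
      (if e = e then R 0 else w e) * z ^ e) + z ^ (e + 1) * dslope R 0 z
    rw [if_pos rfl]
    have h2 : ∑ n ∈ Finset.range e, (if n = e then R 0 else w n) * z ^ n =
        ∑ n ∈ Finset.range e, w n * z ^ n := by
      refine Finset.sum_congr rfl fun n hn => ?_
      rw [if_neg (by have := Finset.mem_range.1 hn; omega)]
    rw [h2]
    linear_combination (-z ^ e) * h1

private theorem re_form {e : ℕ} {W R : ℂ → ℂ} {w : ℕ → ℂ}
    (h : ∀ z, W z = ∑ n ∈ Finset.range e, w n * z ^ n + z ^ e * R z) {ζ : ℂ} (hζ : ζ ^ e = 1)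
    {s : ℝ} (hs : 0 < s) :
    (((s : ℂ)⁻¹) ^ e * W (ζ * s)).re =
      ∑ n ∈ Finset.range e, (w n * ζ ^ n).re * ((s⁻¹) ^ e * s ^ n) + (R (ζ * s)).re := by
  have hs0 : (s : ℂ) ≠ 0 := by exact_mod_cast hs.ne'
  have h1 : ((s : ℂ)⁻¹) ^ e * W (ζ * s) =
      ∑ n ∈ Finset.range e, (w n * ζ ^ n) * (((s⁻¹) ^ e * s ^ n : ℝ) : ℂ) + R (ζ * s) := by
    rw [h, mul_add, Finset.mul_sum]
    congr 1
    · refine Finset.sum_congr rfl fun n _ => ?_
      push_cast
      rw [mul_pow]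
      ring
    · rw [mul_pow, hζ, one_mul, ← mul_assoc, ← mul_pow, inv_mul_cancel₀ hs0, one_pow, one_mul]
  rw [h1, Complex.add_re, Complex.re_sum]
  congr 1
  refine Finset.sum_congr rfl fun n _ => ?_
  rw [Complex.re_mul_ofReal]

private theorem tend (ζ : ℂ) : Tendsto (fun s : ℝ => ζ * (s : ℂ)) (𝓝[>] 0) (𝓝 0) := by
  have h : Continuous fun s : ℝ => ζ * (s : ℂ) := by fun_prop
  have h1 := h.tendsto 0
  simp only [Complex.ofReal_zero, mul_zero] at h1
  exact h1.mono_left nhdsWithin_le_nhds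

theorem dich (e : ℕ) (he : 1 ≤ e) (W : ℂ → ℂ) (hW : AnalyticAt ℂ W 0) (hW0 : (W 0).re = 0) :
    (∃ (ε : ℝ) (ζ : ℂ), 0 < ε ∧ ζ ^ e = 1 ∧ ∀ᶠ s : ℝ in 𝓝[>] 0,
      (((s : ℂ)⁻¹) ^ e * W (ζ * s)).re ≤ -(s⁻¹) ^ ε * (1 + ‖W (ζ * s)‖)) ∨
    ∃ C : ℝ, ∀ᶠ s : ℝ in 𝓝[>] 0, |(((s : ℂ)⁻¹) ^ e * W s).re| ≤ C := by
  classical
  obtain ⟨w, R, hR, hWR⟩ := tay e W hW
  have hw0 : w 0 = W 0 := by
    rw [hWR 0, zero_pow (by omega), zero_mul, add_zero]
    rw [Finset.sum_eq_single 0]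
    · simp
    · intro b _ hb
      rw [zero_pow hb, mul_zero]
    · intro hb
      exact absurd (Finset.mem_range.2 (by omega)) hb
  by_cases hall : ∀ n < e, ∀ ζ : ℂ, ζ ^ e = 1 → (w n * ζ ^ n).re = 0
  · right
    refine ⟨‖R 0‖ + 1, ?_⟩
    have hb : ∀ᶠ z in 𝓝 (0 : ℂ), ‖R z‖ < ‖R 0‖ + 1 :=
      hR.continuousAt.norm.eventually_lt_const (by linarith)
    filter_upwards [(tend 1).eventually hb, self_mem_nhdsWithin] with s h1 h2
    have hs : 0 < s := h2
    have h3 := re_form hWR (ζ := 1) (one_pow e) hs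
    rw [one_mul] at h3 h1
    rw [h3, Finset.sum_eq_zero (fun n hn => by
      rw [hall n (Finset.mem_range.1 hn) 1 (one_pow e), zero_mul]), zero_add]
    exact (Complex.abs_re_le_norm _).trans h1.le
  · left
    push Not at hall
    have hex : ∃ n, n < e ∧ ∃ ζ : ℂ, ζ ^ e = 1 ∧ (w n * ζ ^ n).re ≠ 0 := hall
    obtain ⟨hn0e, ζ₀, hζ₀, hne⟩ := Nat.find_spec hex
    have hmin : ∀ n, n < Nat.find hex → ∀ ζ : ℂ, ζ ^ e = 1 → (w n * ζ ^ n).re = 0 := by
      intro n hn ζ hζ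
      by_contra h
      exact Nat.find_min hex hn ⟨by omega, ζ, hζ, h⟩
    set n₀ := Nat.find hex with hn₀
    have hn1 : 1 ≤ n₀ := by
      rcases Nat.eq_zero_or_pos n₀ with h | h
      · exfalso
        rw [h, pow_zero, mul_one, hw0] at hne
        exact hne hW0
      · exact h
    -- a negative value
    obtain ⟨ζ, hζ, hneg⟩ : ∃ ζ : ℂ, ζ ^ e = 1 ∧ (w n₀ * ζ ^ n₀).re < 0 := by
      by_contra hcon
      push Not at hcon
      set ω : ℂ := Complex.exp (2 * Real.pi * Complex.I / e) with hω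
      have hprim : IsPrimitiveRoot ω e := Complex.isPrimitiveRoot_exp e (by omega)
      have hωe : ω ^ e = 1 := hprim.pow_eq_one
      have hωn : ω ^ n₀ ≠ 1 := hprim.pow_ne_one_of_pos_of_lt (by omega) hn0e
      have hgeo : ∑ j ∈ Finset.range e, (ω ^ n₀) ^ j = 0 := by
        have h1 := mul_neg_geom_sum (ω ^ n₀) e
        rw [← pow_mul, mul_comm n₀ e, pow_mul, hωe, one_pow, sub_self] at h1
        exact (mul_eq_zero.1 h1).resolve_left (sub_ne_zero.2 hωn.symm)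
      have hsum : ∑ j ∈ Finset.range e, (w n₀ * (ζ₀ * ω ^ j) ^ n₀).re = 0 := by
        rw [← Complex.re_sum]
        have : ∑ j ∈ Finset.range e, w n₀ * (ζ₀ * ω ^ j) ^ n₀ =
            w n₀ * ζ₀ ^ n₀ * ∑ j ∈ Finset.range e, (ω ^ n₀) ^ j := by
          rw [Finset.mul_sum]
          refine Finset.sum_congr rfl fun j _ => ?_
          rw [mul_pow, ← pow_mul, ← pow_mul, mul_comm j n₀]
          ring
        rw [this, hgeo, mul_zero, Complex.zero_re]
      have hroot : ∀ j, (ζ₀ * ω ^ j) ^ e = 1 := by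
        intro j
        rw [mul_pow, hζ₀, one_mul, ← pow_mul, mul_comm j e, pow_mul, hωe, one_pow]
      have h0 := (Finset.sum_eq_zero_iff_of_nonneg (fun j _ => hcon _ (hroot j))).1 hsum 0
        (Finset.mem_range.2 (by omega))
      rw [pow_zero, mul_one] at h0
      exact hne h0
    obtain ⟨D, hD⟩ : ∃ D, e = D + n₀ := ⟨e - n₀, by omega⟩
    have hD1 : 1 ≤ D := by omega
    have hDr : (0 : ℝ) < (D : ℝ) / 2 := by
      have : (1 : ℝ) ≤ D := by exact_mod_cast hD1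
      linarith
    refine ⟨(D : ℝ) / 2, ζ, hDr, hζ, ?_⟩
    set q : ℝ := -(w n₀ * ζ ^ n₀).re with hq
    have hq0 : 0 < q := by rw [hq]; linarith
    -- the first function
    have hF : Tendsto (fun s : ℝ => ∑ n ∈ Finset.range e, (w n * ζ ^ n).re * s ^ (n - n₀) +
        s ^ D * (R (ζ * s)).re) (𝓝[>] 0) (𝓝 (-q)) := by
      have t1 : Tendsto (fun s : ℝ => ∑ n ∈ Finset.range e, (w n * ζ ^ n).re * s ^ (n - n₀))
          (𝓝[>] 0) (𝓝 (∑ n ∈ Finset.range e, (w n * ζ ^ n).re * (0 : ℝ) ^ (n - n₀))) := by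
        have hc : Continuous (fun s : ℝ => ∑ n ∈ Finset.range e,
            (w n * ζ ^ n).re * s ^ (n - n₀)) := by fun_prop
        exact (hc.tendsto 0).mono_left nhdsWithin_le_nhds
      have t2 : Tendsto (fun s : ℝ => s ^ D) (𝓝[>] 0) (𝓝 0) := by
        have hc : Continuous (fun s : ℝ => s ^ D) := by fun_prop
        have h1 := hc.tendsto 0
        rw [zero_pow (by omega)] at h1
        exact h1.mono_left nhdsWithin_le_nhds
      have t3 : Tendsto (fun s : ℝ => (R (ζ * s)).re) (𝓝[>] 0) (𝓝 (R 0).re) :=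
        (Complex.continuous_re.tendsto _).comp (hR.continuousAt.tendsto.comp (tend ζ))
      have t4 := t1.add (t2.mul t3)
      have e1 : ∑ n ∈ Finset.range e, (w n * ζ ^ n).re * (0 : ℝ) ^ (n - n₀) + 0 * (R 0).re =
          -q := by
        rw [zero_mul, add_zero, hq, neg_neg, Finset.sum_eq_single n₀]
        · rw [Nat.sub_self, pow_zero, mul_one]
        · intro b _ hb
          rcases lt_or_gt_of_ne hb with h | h
          · rw [hmin b h ζ hζ, zero_mul]
          · rw [zero_pow (by omega), mul_zero]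
        · intro hb
          exact absurd (Finset.mem_range.2 hn0e) hb
      rw [e1] at t4
      exact t4
    have hH : Tendsto (fun s : ℝ => s ^ ((D : ℝ) / 2) * (1 + ‖W (ζ * s)‖)) (𝓝[>] 0) (𝓝 0) := by
      have t1 : Tendsto (fun s : ℝ => s ^ ((D : ℝ) / 2)) (𝓝[>] 0) (𝓝 0) := by
        have h1 := (Real.continuousAt_rpow_const 0 ((D : ℝ) / 2) (Or.inr hDr.le)).tendsto
        rw [Real.zero_rpow hDr.ne'] at h1
        exact h1.mono_left nhdsWithin_le_nhds
      have t2 : Tendsto (fun s : ℝ => 1 + ‖W (ζ * s)‖) (𝓝[>] 0) (𝓝 (1 + ‖W 0‖)) :=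
        ((hW.continuousAt.norm.tendsto.comp (tend ζ)).const_add 1)
      have t3 := t1.mul t2
      rw [zero_mul] at t3
      exact t3
    filter_upwards [hF.eventually_lt_const (show -q < -(q / 2) by linarith),
      hH.eventually_lt_const (show 0 < q / 2 by positivity), self_mem_nhdsWithin]
      with s h1 h2 h3
    have hs : 0 < s := h3
    have hsD : 0 < s ^ D := pow_pos hs D
    have hform := re_form hWR hζ hs
    have hmul : s ^ D * (((s : ℂ)⁻¹) ^ e * W (ζ * s)).re =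
        ∑ n ∈ Finset.range e, (w n * ζ ^ n).re * s ^ (n - n₀) + s ^ D * (R (ζ * s)).re := by
      rw [hform, mul_add, Finset.mul_sum]
      congr 1
      refine Finset.sum_congr rfl fun n _ => ?_
      rcases lt_or_ge n n₀ with h | h
      · rw [hmin n h ζ hζ]
        ring
      · obtain ⟨j, hj⟩ := Nat.exists_eq_add_of_le h
        rw [hj, Nat.add_sub_cancel_left]
        have e2 : s ^ D * ((s⁻¹) ^ e * s ^ (n₀ + j)) = s ^ j := by
          rw [inv_pow, hD]
          rw [pow_add, pow_add]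
          field_simp
        calc s ^ D * ((w (n₀ + j) * ζ ^ (n₀ + j)).re * ((s⁻¹) ^ e * s ^ (n₀ + j))) =
            (w (n₀ + j) * ζ ^ (n₀ + j)).re * (s ^ D * ((s⁻¹) ^ e * s ^ (n₀ + j))) := by ring
          _ = _ := by rw [e2]
    have hpow : s ^ D * (s⁻¹) ^ ((D : ℝ) / 2) = s ^ ((D : ℝ) / 2) := by
      rw [Real.inv_rpow hs.le, ← Real.rpow_natCast s D]
      have : (D : ℝ) = D / 2 + D / 2 := by ring
      conv_lhs => rw [this]
      rw [Real.rpow_add hs]
      have hne : s ^ ((D : ℝ) / 2) ≠ 0 := (Real.rpow_pos_of_pos hs _).ne'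
      have h4 : ((D : ℝ) / 2 + D / 2) / 2 = D / 2 := by ring
      rw [h4]
      field_simp
    refine le_of_mul_le_mul_left ?_ hsD
    rw [hmul]
    have h5 : s ^ D * (-(s⁻¹) ^ ((D : ℝ) / 2) * (1 + ‖W (ζ * s)‖)) =
        -(s ^ ((D : ℝ) / 2) * (1 + ‖W (ζ * s)‖)) := by
      rw [← hpow]
      ring
    rw [h5]
    linarith

end Pool.Agent.EXW
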