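import Mathlib

/-!
# EXW / GradV: the derivative of the leading coefficient of the branch

PROOF.  Multiply `F(..) = 0` by `p.2 ^ (e d)`: `∑_i p.2^(e (d - i)) Fc i (V p, p.1) = 0` for `p` near `(α, 0)`, `p.2 ≠ 0`; let `p.2 → 0` (`V` is
continuous near `(α, 0)`): `(Fc d)(V(α', 0), α') = 0` for `α'` near `α`, so `G^a R = 0` there, `R ≠ 0` near, so `G(V(α', 0), α') = 0`; chain rule.
-/

set_option autoImplicit false

namespace Pool.Agent.EXW

open MvPolynomial Topology

private theorem gv_deriv {k : Subfield ℂ} {n : ℕ} (P : MvPolynomial (Fin n) k) (x : ℂ → Fin n → ℂ)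
    (x' : Fin n → ℂ) (t₀ : ℂ) (hx : ∀ i, HasDerivAt (fun t => x t i) (x' i) t₀) :
    HasDerivAt (fun t => aeval (x t) P) (∑ i, aeval (x t₀) (pderiv i P) * x' i) t₀ := by
  induction P using MvPolynomial.induction_on with
  | C c =>
    have e : ∑ i, aeval (x t₀) (pderiv i (C c : MvPolynomial (Fin n) k)) * x' i = 0 := by
      refine Finset.sum_eq_zero fun i _ => ?_
      rw [pderiv_C, map_zero, zero_mul]
    rw [e]
    simp only [aeval_C]
    exact hasDerivAt_const _ _
  | add P Q hP hQ =>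
    have e : ∑ i, aeval (x t₀) (pderiv i (P + Q)) * x' i =
        ∑ i, aeval (x t₀) (pderiv i P) * x' i + ∑ i, aeval (x t₀) (pderiv i Q) * x' i := by
      rw [← Finset.sum_add_distrib]
      refine Finset.sum_congr rfl fun i _ => ?_
      rw [map_add, map_add, add_mul]
    rw [e]
    simp only [map_add]
    exact hP.add hQ
  | mul_X P j hP =>
    have e : ∑ i, aeval (x t₀) (pderiv i (P * X j)) * x' i =
        (∑ i, aeval (x t₀) (pderiv i P) * x' i) * x t₀ j + aeval (x t₀) P * x' j := by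
      have h1 : ∀ i, aeval (x t₀) (pderiv i (P * X j)) * x' i =
          aeval (x t₀) (pderiv i P) * x' i * x t₀ j + (if i = j then aeval (x t₀) P * x' j else 0) := by
        intro i
        rw [pderiv_mul, map_add, map_mul, map_mul, aeval_X]
        by_cases h : i = j
        · subst h
          rw [pderiv_X_self, map_one, if_pos rfl]
          ring
        · rw [pderiv_X_of_ne (Ne.symm h), map_zero, if_neg h]
          ring
      rw [Finset.sum_congr rfl fun i _ => h1 i, Finset.sum_add_distrib, ← Finset.sum_mul,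
        Finset.sum_ite_eq' Finset.univ j]
      simp
    rw [e]
    simp only [map_mul, aeval_X]
    exact hP.mul (hx j)

private theorem gv_scale {k : Subfield ℂ} {n d : ℕ} (L : MvPolynomial (Fin n) k)
    (hL : L.IsHomogeneous d) (s : ℂ) (x : Fin n → ℂ) :
    aeval (fun j => s * x j) L = s ^ d * aeval x L := by
  rw [aeval_def, aeval_def, eval₂_eq', eval₂_eq', Finset.mul_sum]
  refine Finset.sum_congr rfl fun m hm => ?_
  have h1 : m.degree = d := by
    by_contra h
    exact (mem_support_iff.1 hm) (hL.coeff_eq_zero h)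
  have h2 : ∏ i, (s * x i) ^ m i = s ^ d * ∏ i, x i ^ m i := by
    simp_rw [mul_pow]
    rw [Finset.prod_mul_distrib, Finset.prod_pow_eq_pow_sum, ← h1, Finsupp.degree_eq_sum]
  rw [h2]
  ring

private theorem gv_cont {k : Subfield ℂ} {n : ℕ} (P : MvPolynomial (Fin n) k) :
    Continuous fun x : Fin n → ℂ => aeval x P := by
  induction P using MvPolynomial.induction_on with
  | C c =>
    simp only [aeval_C]
    exact continuous_const
  | add P Q hP hQ =>
    simp only [map_add]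
    exact hP.add hQ
  | mul_X P i hP =>
    simp only [map_mul, aeval_X]
    exact hP.mul (continuous_apply i)

theorem grad_V (k : Subfield ℂ) {m : ℕ} (α : Fin m → ℂ)
    (F : MvPolynomial (Fin (m + 1)) k) (d : ℕ) (Fc : ℕ → MvPolynomial (Fin (m + 1)) k)
    (hFc : ∀ i, (Fc i).IsHomogeneous i) (hFs : F = ∑ i ∈ Finset.range (d + 1), Fc i)
    (G R : MvPolynomial (Fin (m + 1)) k) (a : ℕ) (hL : Fc d = G ^ a * R)
    (e : ℕ) (he : 1 ≤ e) (V : (Fin m → ℂ) × ℂ → ℂ) (hV : ContDiffAt ℂ 1 V (α, 0))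
    (hVF : ∀ᶠ p : (Fin m → ℂ) × ℂ in 𝓝 (α, 0), p.2 ≠ 0 →
      aeval (Fin.cons ((p.2⁻¹) ^ e * V p) (fun j => p.1 j * (p.2⁻¹) ^ e) :
        Fin (m + 1) → ℂ) F = 0)
    (hR : aeval (Fin.cons (V (α, 0)) α : Fin (m + 1) → ℂ) R ≠ 0) (j : Fin m) :
    aeval (Fin.cons (V (α, 0)) α : Fin (m + 1) → ℂ) (pderiv 0 G) *
      fderiv ℂ V (α, 0) (Pi.single j 1, 0) +
      aeval (Fin.cons (V (α, 0)) α : Fin (m + 1) → ℂ) (pderiv j.succ G) = 0 := by
  -- the rescaled equation
  set Y : (Fin m → ℂ) × ℂ → (Fin (m + 1) → ℂ) := fun p => Fin.cons (V p) p.1 with hY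
  set Φ : (Fin m → ℂ) × ℂ → ℂ := fun p =>
    ∑ i ∈ Finset.range (d + 1), p.2 ^ (e * (d - i)) * aeval (Y p) (Fc i) with hΦ
  have h1 : ∀ᶠ p : (Fin m → ℂ) × ℂ in 𝓝 (α, 0), p.2 ≠ 0 → Φ p = 0 := by
    filter_upwards [hVF] with p hp hp2
    have h2 := hp hp2
    have h3 : (Fin.cons ((p.2⁻¹) ^ e * V p) (fun j => p.1 j * (p.2⁻¹) ^ e) : Fin (m + 1) → ℂ) =
        fun i => (p.2⁻¹) ^ e * Y p i := by
      funext i
      refine Fin.cases ?_ (fun i => ?_) i
      · rw [Fin.cons_zero, hY]
        simp only [Fin.cons_zero]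
      · rw [Fin.cons_succ, hY]
        simp only [Fin.cons_succ]
        ring
    rw [h3, hFs, map_sum] at h2
    have h4 : ∀ i ∈ Finset.range (d + 1), p.2 ^ (e * (d - i)) * aeval (Y p) (Fc i) =
        p.2 ^ (e * d) * aeval (fun i => (p.2⁻¹) ^ e * Y p i) (Fc i) := by
      intro i hi
      have hid : i ≤ d := Nat.lt_succ_iff.1 (Finset.mem_range.1 hi)
      rw [gv_scale _ (hFc i)]
      have h5 : p.2 ^ (e * d) = p.2 ^ (e * (d - i)) * (p.2 ^ e) ^ i := by
        rw [← pow_mul, ← pow_add, ← mul_add]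
        congr 2
        omega
      rw [h5, inv_pow]
      have h6 : (p.2 ^ e) ^ i * ((p.2 ^ e)⁻¹ ^ i) = 1 := by
        rw [← mul_pow, mul_inv_cancel₀ (pow_ne_zero _ hp2), one_pow]
      linear_combination (-(p.2 ^ (e * (d - i)) * aeval (Y p) (Fc i))) * h6
    rw [hΦ]
    show ∑ i ∈ Finset.range (d + 1), p.2 ^ (e * (d - i)) * aeval (Y p) (Fc i) = 0
    rw [Finset.sum_congr rfl h4, ← Finset.mul_sum, h2, mul_zero]
  have h2 : ∀ᶠ p : (Fin m → ℂ) × ℂ in 𝓝 (α, 0), ContinuousAt V p :=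
    (hV.eventually (by simp)).mono fun p hp => hp.continuousAt
  have hYc : ∀ p, ContinuousAt V p → ContinuousAt Y p := by
    intro p hp
    rw [hY]
    refine continuousAt_pi.2 fun i => ?_
    refine Fin.cases ?_ (fun i => ?_) i
    · simp only [Fin.cons_zero]
      exact hp
    · simp only [Fin.cons_succ]
      exact ((continuous_apply i).comp continuous_fst).continuousAt
  have hΦc : ∀ p, ContinuousAt V p → ContinuousAt Φ p := by
    intro p hp
    rw [hΦ]
    refine tendsto_finsetSum _ fun i _ => ?_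
    exact (continuous_snd.continuousAt.pow _).mul ((gv_cont (Fc i)).continuousAt.comp (hYc p hp))
  have hi : Filter.Tendsto (fun α' : Fin m → ℂ => (α', (0 : ℂ))) (𝓝 α) (𝓝 (α, 0)) :=
    (Continuous.prodMk continuous_id continuous_const).tendsto _
  have hRc : ∀ᶠ α' in 𝓝 α, aeval (Y (α', 0)) R ≠ 0 := by
    have h3 : ContinuousAt (fun α' : Fin m → ℂ => aeval (Y (α', 0)) R) α := by
      have h4 : ContinuousAt (fun p => aeval (Y p) R) (α, (0 : ℂ)) :=
        (gv_cont R).continuousAt.comp (hYc _ hV.continuousAt)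
      exact ContinuousAt.comp (f := fun α' : Fin m → ℂ => (α', (0 : ℂ))) h4 hi
    exact h3.eventually_ne hR
  have hG : ∀ᶠ α' in 𝓝 α, aeval (Y (α', 0)) G = 0 := by
    filter_upwards [hi.eventually h1.eventually_nhds, hi.eventually h2, hRc] with α' h3 h4 h5
    have h6 : Filter.Tendsto (fun t : ℂ => Φ (α', t)) (𝓝[≠] 0) (𝓝 (Φ (α', 0))) := by
      have h7 : Filter.Tendsto (fun t : ℂ => (α', t)) (𝓝[≠] 0) (𝓝 (α', 0)) :=
        ((Continuous.prodMk continuous_const continuous_id).tendsto _).mono_left nhdsWithin_le_nhds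
      exact (hΦc _ h4).tendsto.comp h7
    have h8 : Filter.Tendsto (fun t : ℂ => Φ (α', t)) (𝓝[≠] 0) (𝓝 0) := by
      have h7 : Filter.Tendsto (fun t : ℂ => (α', t)) (𝓝[≠] 0) (𝓝 (α', 0)) :=
        ((Continuous.prodMk continuous_const continuous_id).tendsto _).mono_left nhdsWithin_le_nhds
      refine tendsto_const_nhds.congr' ?_
      filter_upwards [h7.eventually h3, eventually_mem_nhdsWithin] with t h9 h10
      exact (h9 h10).symm
    have h9 : Φ (α', 0) = 0 := tendsto_nhds_unique h6 h8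
    have h10 : Φ (α', 0) = aeval (Y (α', 0)) (Fc d) := by
      rw [hΦ]
      show ∑ i ∈ Finset.range (d + 1), (0 : ℂ) ^ (e * (d - i)) * aeval (Y (α', 0)) (Fc i) = _
      rw [Finset.sum_range_succ, Nat.sub_self, mul_zero, pow_zero, one_mul, Finset.sum_eq_zero, zero_add]
      intro i hi
      have hid := Finset.mem_range.1 hi
      rw [zero_pow, zero_mul]
      exact Nat.mul_ne_zero (by omega) (by omega)
    rw [h10, hL, map_mul, map_pow] at h9
    rcases mul_eq_zero.1 h9 with h11 | h11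
    · by_contra hne
      exact pow_ne_zero a hne h11
    · exact absurd h11 h5
  -- the chain rule
  set x : ℂ → Fin (m + 1) → ℂ := fun t => Y (α + t • Pi.single j 1, 0) with hx
  set x' : Fin (m + 1) → ℂ := Fin.cons (fderiv ℂ V (α, 0) (Pi.single j 1, 0)) (Pi.single j 1) with hx'
  have hline : HasDerivAt (fun t : ℂ => (α + t • (Pi.single j 1 : Fin m → ℂ), (0 : ℂ)))
      ((Pi.single j 1 : Fin m → ℂ), (0 : ℂ)) 0 := by
    have h3 : HasDerivAt (fun t : ℂ => α + t • (Pi.single j 1 : Fin m → ℂ)) (Pi.single j 1 : Fin m → ℂ) 0 := by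
      simpa using ((hasDerivAt_id (0 : ℂ)).smul_const (Pi.single j 1 : Fin m → ℂ)).const_add α
    exact h3.prodMk (hasDerivAt_const _ _)
  have hx0 : x 0 = Y (α, 0) := by
    rw [hx]
    show Y (α + (0 : ℂ) • Pi.single j 1, 0) = _
    rw [zero_smul, add_zero]
  have hxd : ∀ i, HasDerivAt (fun t => x t i) (x' i) 0 := by
    intro i
    refine Fin.cases ?_ (fun i => ?_) i
    · have h3 : HasFDerivAt V (fderiv ℂ V (α, 0)) (α + (0 : ℂ) • (Pi.single j 1 : Fin m → ℂ), (0 : ℂ)) := by
        rw [zero_smul, add_zero]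
        exact (hV.differentiableAt (by simp)).hasFDerivAt
      exact HasFDerivAt.comp_hasDerivAt
        (f := fun t : ℂ => (α + t • (Pi.single j 1 : Fin m → ℂ), (0 : ℂ))) (0 : ℂ) h3 hline
    · have h3 : HasDerivAt (fun t : ℂ => α + t • (Pi.single j 1 : Fin m → ℂ)) (Pi.single j 1 : Fin m → ℂ) 0 := by
        simpa using ((hasDerivAt_id (0 : ℂ)).smul_const (Pi.single j 1 : Fin m → ℂ)).const_add α
      exact hasDerivAt_pi.1 h3 i
  have h3 := gv_deriv G x x' 0 hxd
  have h4 : HasDerivAt (fun t => aeval (x t) G) 0 0 := by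
    have h5 : Filter.Tendsto (fun t : ℂ => α + t • (Pi.single j 1 : Fin m → ℂ)) (𝓝 0) (𝓝 α) := by
      have h6 : Continuous fun t : ℂ => α + t • (Pi.single j 1 : Fin m → ℂ) := by fun_prop
      have h7 := h6.tendsto 0
      rwa [zero_smul, add_zero] at h7
    refine (hasDerivAt_const (0 : ℂ) (0 : ℂ)).congr_of_eventuallyEq ?_
    filter_upwards [h5.eventually hG] with t ht
    exact ht
  have h5 := h3.unique h4
  rw [hx0, Fin.sum_univ_succ] at h5
  have h6 : ∑ i : Fin m, aeval (Y (α, 0)) (pderiv i.succ G) * x' i.succ =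
      aeval (Y (α, 0)) (pderiv j.succ G) := by
    rw [Finset.sum_eq_single j]
    · rw [hx', Fin.cons_succ, Pi.single_eq_same, mul_one]
    · intro i _ hij
      rw [hx', Fin.cons_succ, Pi.single_eq_of_ne hij, mul_zero]
    · intro h
      exact absurd (Finset.mem_univ j) h
  rw [h6, hx', Fin.cons_zero] at h5
  exact h5

end Pool.Agent.EXW
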