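import Mathlib

/-!
# EXW / RootW: the branch over the points `T α`, `T ∈ ℕ`

PROOF.  `s_T = T^(-1/e)` (real), `r T x' = T V(x' / T, s_T)`. For `‖x' - T α‖ ≤ √T` (all coordinates) `(x'/T, s_T)` tends to `(α, 0)` uniformly.
(1) `V` is continuous on a neighbourhood (`ContDiffAt ℂ 1`). (2) `hVF` for `p = (x'/T, s_T)`: `p.2⁻¹ ^ e = T`; if `∂_0 F = 0` too then
`N(x') = 0` (`hNF`), but `N(x') = T^D (N_top(α) + o(1))` uniformly, `N_top(α) ≠ 0` by `hα`. (3) on a convex neighbourhood `V` is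
complex differentiable with `‖fderiv V p - fderiv V (α, 0)‖ ≤ C ‖p - (α, 0)‖` (a `C^1` function over `ℂ` is analytic, or the Cauchy
estimate on complex lines); so `T (V(x'/T, s_T) - V(α, s_T)) = fderiv V (α,0) (x' - T α, 0) + O((‖x' - T α‖ / T + s_T) ‖x' - T α‖)`
and the error is `O((log T) (log T / T + T^(-1/e))) → 0`; `hD`. (4) `T → s_T` tends to `0` from above.
-/

set_option autoImplicit false

namespace Pool.Agent.EXW

open MvPolynomial Topology Filter

private lemma rw_hom {n d : ℕ} {L : MvPolynomial (Fin n) ℂ} (hL : L.IsHomogeneous d) (c : ℂ)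
    (x : Fin n → ℂ) : eval (fun j => c * x j) L = c ^ d * eval x L := by
  rw [eval_eq, eval_eq, Finset.mul_sum]
  refine Finset.sum_congr rfl fun s hs => ?_
  have hd : ∑ i ∈ s.support, s i = d := by
    have := hL (mem_support_iff.mp hs)
    rw [Finsupp.weight_apply] at this
    simpa [Finsupp.sum] using this
  simp only [mul_pow]
  rw [Finset.prod_mul_distrib, Finset.prod_pow_eq_pow_sum, hd]
  ring

private lemma rw_aev {k : Subfield ℂ} {n : ℕ} (x : Fin n → ℂ) (p : MvPolynomial (Fin n) k) :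
    aeval x p = eval x (map (algebraMap k ℂ) p) := by
  rw [aeval_def, eval₂_eq_eval_map]

private theorem rw_top {k : Subfield ℂ} {m : ℕ} {a : MvPolynomial (Fin m) k} (ha : a ≠ 0) :
    homogeneousComponent a.totalDegree a ≠ 0 := by
  have hne : a.support.Nonempty := support_nonempty.2 ha
  obtain ⟨s, hs, hsd⟩ := Finset.exists_mem_eq_sup a.support hne (fun s => s.sum fun _ e => e)
  intro h
  have h1 := congrArg (coeff s) h
  rw [coeff_homogeneousComponent, coeff_zero] at h1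
  have h2 : s.degree = a.totalDegree := by
    rw [totalDegree, hsd]
    rfl
  rw [if_pos h2] at h1
  exact (mem_support_iff.1 hs) h1

private noncomputable def sT (e : ℕ) (T : ℕ) : ℝ := (T : ℝ) ^ (-((1 : ℝ) / e))

private lemma sT_pos (e : ℕ) {T : ℕ} (hT : 1 ≤ T) : 0 < sT e T :=
  Real.rpow_pos_of_pos (by exact_mod_cast hT) _

private lemma sT_pow {e : ℕ} (he : 1 ≤ e) {T : ℕ} (hT : 1 ≤ T) :
    (((sT e T : ℝ) : ℂ)⁻¹) ^ e = T := by
  have hT0 : (0 : ℝ) ≤ T := by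
    have := hT
    exact Nat.cast_nonneg _
  have he0 : (e : ℝ) ≠ 0 := by
    have : e ≠ 0 := by omega
    exact_mod_cast this
  have h1 : ((sT e T)⁻¹) ^ e = T := by
    unfold sT
    rw [Real.rpow_neg hT0, inv_inv, ← Real.rpow_natCast, ← Real.rpow_mul hT0, one_div,
      inv_mul_cancel₀ he0, Real.rpow_one]
  exact_mod_cast congrArg (fun x : ℝ => (x : ℂ)) h1

private lemma sT_tend {e : ℕ} (he : 1 ≤ e) : Tendsto (sT e) atTop (𝓝 0) := by
  have he0 : (0 : ℝ) < (1 : ℝ) / e := by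
    have : (0 : ℝ) < e := by exact_mod_cast he
    positivity
  exact (tendsto_rpow_neg_atTop he0).comp tendsto_natCast_atTop_atTop

private lemma log_sT {e : ℕ} (he : 1 ≤ e) :
    Tendsto (fun T : ℕ => Real.log T * sT e T) atTop (𝓝 0) := by
  have he0 : (0 : ℝ) < (1 : ℝ) / e := by
    have : (0 : ℝ) < e := by exact_mod_cast he
    positivity
  have h1 := (isLittleO_log_rpow_atTop he0).tendsto_div_nhds_zero.comp
    tendsto_natCast_atTop_atTop
  refine h1.congr fun T => ?_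
  simp only [Function.comp_apply, sT]
  rw [Real.rpow_neg (Nat.cast_nonneg _), div_eq_mul_inv]

private lemma log_sq : Tendsto (fun T : ℕ => Real.log T * (Real.log T / T)) atTop (𝓝 0) := by
  have h1 := (Real.isLittleO_pow_log_id_atTop (n := 2)).tendsto_div_nhds_zero.comp
    tendsto_natCast_atTop_atTop
  refine h1.congr fun T => ?_
  simp only [Function.comp_apply, id]
  ring

private lemma near {m : ℕ} (α : Fin m → ℂ) {e : ℕ} (he : 1 ≤ e) (U : Set ((Fin m → ℂ) × ℂ))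
    (hU : U ∈ 𝓝 (α, (0 : ℂ))) : ∀ᶠ T : ℕ in atTop, ∀ x' : Fin m → ℂ,
      (∀ j, ‖x' j - (T : ℂ) * α j‖ ≤ √(T : ℝ)) →
      ((fun j => x' j / (T : ℂ)), ((sT e T : ℝ) : ℂ)) ∈ U := by
  obtain ⟨ε, hε, hb⟩ := Metric.mem_nhds_iff.1 hU
  have h1 : ∀ᶠ T : ℕ in atTop, |sT e T| < ε := by
    have := (sT_tend he).abs
    rw [abs_zero] at this
    exact this.eventually_lt_const hε
  have h2 : ∀ᶠ T : ℕ in atTop, ε⁻¹ ^ 2 < (T : ℝ) :=
    (tendsto_natCast_atTop_atTop (R := ℝ)).eventually_gt_atTop _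
  filter_upwards [h1, h2, eventually_ge_atTop 1] with T hT1 hT2 hT x' hx'
  apply hb
  have hT0 : (0 : ℝ) < T := by exact_mod_cast hT
  have hTc : (T : ℂ) ≠ 0 := by exact_mod_cast hT0.ne'
  rw [Metric.mem_ball, Prod.dist_eq, max_lt_iff]
  refine ⟨?_, ?_⟩
  · rw [dist_pi_lt_iff hε]
    intro j
    have h3 : x' j / (T : ℂ) - α j = (x' j - (T : ℂ) * α j) / T := by
      field_simp
    show dist (x' j / (T : ℂ)) (α j) < ε
    rw [dist_eq_norm, h3, norm_div, Complex.norm_natCast, div_lt_iff₀ hT0]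
    refine lt_of_le_of_lt (hx' j) ?_
    have hs : √(T : ℝ) * √(T : ℝ) = T := Real.mul_self_sqrt hT0.le
    have hs0 : 0 < √(T : ℝ) := Real.sqrt_pos.2 hT0
    have h4 : ε⁻¹ < √(T : ℝ) := Real.lt_sqrt_of_sq_lt hT2
    have h5 : 1 < ε * √(T : ℝ) := by
      have := mul_lt_mul_of_pos_left h4 hε
      rwa [mul_inv_cancel₀ hε.ne'] at this
    calc √(T : ℝ) = 1 * √(T : ℝ) := by ring
      _ < (ε * √(T : ℝ)) * √(T : ℝ) := mul_lt_mul_of_pos_right h5 hs0
      _ = ε * T := by rw [mul_assoc, hs]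
  · rw [dist_zero_right, Complex.norm_real]
    exact hT1

private lemma fd_lip {E : Type*} [NormedAddCommGroup E] [NormedSpace ℂ E] (V : E → ℂ) (x₀ : E)
    (hV : ContDiffAt ℂ 1 V x₀) : ∃ (ρ K : ℝ), 0 < ρ ∧ 0 ≤ K ∧
      (∀ p ∈ Metric.ball x₀ ρ, DifferentiableAt ℂ V p) ∧
      ∀ p ∈ Metric.ball x₀ ρ, ‖fderiv ℂ V p - fderiv ℂ V x₀‖ ≤ K * ‖p - x₀‖ := by
  obtain ⟨L, t, ht, hL⟩ := hV.exists_lipschitzOnWith
  have hd : ∀ᶠ p in 𝓝 x₀, DifferentiableAt ℂ V p :=
    (hV.eventually (by simp)).mono fun p hp => hp.differentiableAt one_ne_zero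
  obtain ⟨r, hr, hb⟩ := Metric.mem_nhds_iff.1 (Filter.inter_mem ht hd)
  obtain ⟨ρ, hρ, hρr⟩ : ∃ ρ : ℝ, 0 < ρ ∧ 3 * ρ = r := ⟨r / 3, by positivity, by ring⟩
  refine ⟨ρ, L / ρ, hρ, by positivity, fun p hp => ?_, fun p hp => ?_⟩
  · exact (hb (Metric.ball_subset_ball (by linarith) hp)).2
  rw [mem_ball_iff_norm] at hp
  have hmem : ∀ q : E, ‖q - x₀‖ < ρ → ∀ w : E, ‖w‖ ≤ 1 → ∀ z : ℂ, ‖z‖ ≤ ρ →
      q + z • w ∈ Metric.ball x₀ r := by
    intro q hq w hw z hz
    rw [mem_ball_iff_norm]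
    have h1 : q + z • w - x₀ = (q - x₀) + z • w := by abel
    rw [h1]
    refine lt_of_le_of_lt (norm_add_le _ _) ?_
    have h2 : ‖z • w‖ ≤ ρ := by
      rw [norm_smul]
      calc ‖z‖ * ‖w‖ ≤ ρ * 1 := mul_le_mul hz hw (norm_nonneg _) hρ.le
        _ = ρ := mul_one _
    linarith
  have hder : ∀ q : E, ‖q - x₀‖ < ρ → ∀ w : E, ‖w‖ ≤ 1 → ∀ z : ℂ, ‖z‖ ≤ ρ →
      HasDerivAt (fun z : ℂ => V (q + z • w)) (fderiv ℂ V (q + z • w) w) z := by
    intro q hq w hw z hz
    have h4 : HasFDerivAt V (fderiv ℂ V (q + z • w)) (q + z • w) :=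
      (hb (hmem q hq w hw z hz)).2.hasFDerivAt
    have h5 : HasDerivAt (fun z : ℂ => q + z • w) w z := by
      have h6 := ((hasDerivAt_id z).smul_const w).const_add q
      simpa using h6
    exact h4.comp_hasDerivAt z h5
  have hx₀ : ‖x₀ - x₀‖ < ρ := by rw [sub_self, norm_zero]; exact hρ
  have hunit : ∀ w : E, ‖w‖ ≤ 1 →
      ‖(fderiv ℂ V p - fderiv ℂ V x₀) w‖ ≤ L / ρ * ‖p - x₀‖ := by
    intro w hw
    have hdz : ∀ z : ℂ, ‖z‖ ≤ ρ → HasDerivAt (fun z : ℂ => V (p + z • w) - V (x₀ + z • w))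
        (fderiv ℂ V (p + z • w) w - fderiv ℂ V (x₀ + z • w) w) z := fun z hz =>
      (hder p hp w hw z hz).sub (hder x₀ hx₀ w hw z hz)
    have h1 : DiffContOnCl ℂ (fun z : ℂ => V (p + z • w) - V (x₀ + z • w))
        (Metric.ball (0 : ℂ) ρ) := by
      refine DifferentiableOn.diffContOnCl ?_
      rw [closure_ball _ hρ.ne']
      intro z hz
      rw [mem_closedBall_zero_iff] at hz
      exact (hdz z hz).differentiableAt.differentiableWithinAt
    have h2 := Complex.norm_deriv_le_of_forall_mem_sphere_norm_le (C := L * ‖p - x₀‖) hρ h1 (by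
      intro z hz
      rw [mem_sphere_zero_iff_norm] at hz
      have h3 := hL.norm_sub_le (hb (hmem p hp w hw z hz.le)).1 (hb (hmem x₀ hx₀ w hw z hz.le)).1
      have h4 : p + z • w - (x₀ + z • w) = p - x₀ := by abel
      rwa [h4] at h3)
    have h5 := (hdz 0 (by rw [norm_zero]; exact hρ.le)).deriv
    rw [h5, zero_smul, add_zero, add_zero] at h2
    calc ‖(fderiv ℂ V p - fderiv ℂ V x₀) w‖ = ‖fderiv ℂ V p w - fderiv ℂ V x₀ w‖ := rfl
      _ ≤ L * ‖p - x₀‖ / ρ := h2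
      _ = L / ρ * ‖p - x₀‖ := by ring
  refine ContinuousLinearMap.opNorm_le_of_unit_norm (𝕜 := ℂ) (by positivity) ?_
  intro w hw
  exact hunit w hw.le

private lemma fd_err {E : Type*} [NormedAddCommGroup E] [NormedSpace ℂ E] (V : E → ℂ) (x₀ : E)
    (hV : ContDiffAt ℂ 1 V x₀) : ∃ (ρ K : ℝ), 0 < ρ ∧ 0 ≤ K ∧ ∀ (δ : ℝ) (p q : E), δ < ρ →
      ‖p - x₀‖ ≤ δ → ‖q - x₀‖ ≤ δ → ‖V p - V q - fderiv ℂ V x₀ (p - q)‖ ≤ K * δ * ‖p - q‖ := by
  obtain ⟨ρ, K, hρ, hK, hd, hl⟩ := fd_lip V x₀ hV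
  let : NormedSpace ℝ E := NormedSpace.restrictScalars ℝ ℂ E
  refine ⟨ρ, K, hρ, hK, fun δ p q hδ hp hq => ?_⟩
  have hsub : Metric.closedBall x₀ δ ⊆ Metric.ball x₀ ρ := Metric.closedBall_subset_ball hδ
  refine Convex.norm_image_sub_le_of_norm_hasFDerivWithin_le' (𝕜 := ℂ)
    (f' := fun p => fderiv ℂ V p) (s := Metric.closedBall x₀ δ) ?_ ?_
    (convex_closedBall x₀ δ) (mem_closedBall_iff_norm.2 hq) (mem_closedBall_iff_norm.2 hp)
  · intro y hy
    exact (hd y (hsub hy)).hasFDerivAt.hasFDerivWithinAt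
  · intro y hy
    refine (hl y (hsub hy)).trans ?_
    exact mul_le_mul_of_nonneg_left (mem_closedBall_iff_norm.1 hy) hK

private noncomputable def Ph {k : Subfield ℂ} {m : ℕ} (N : MvPolynomial (Fin m) k) (e : ℕ)
    (q : (Fin m → ℂ) × ℂ) : ℂ :=
  ∑ n ∈ Finset.range (N.totalDegree + 1),
    (q.2 ^ e) ^ (N.totalDegree - n) * aeval q.1 (homogeneousComponent n N)

private lemma Ph_cont {k : Subfield ℂ} {m : ℕ} (N : MvPolynomial (Fin m) k) (e : ℕ) :
    Continuous (Ph N e) := by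
  unfold Ph
  simp only [rw_aev]
  refine continuous_finsetSum _ fun n _ => ?_
  refine ((continuous_snd.pow _).pow _).mul ?_
  exact (MvPolynomial.continuous_eval _).comp continuous_fst

private lemma Ph_zero {k : Subfield ℂ} {m : ℕ} (N : MvPolynomial (Fin m) k) {e : ℕ} (he : 1 ≤ e)
    (w : Fin m → ℂ) : Ph N e (w, 0) = aeval w (homogeneousComponent N.totalDegree N) := by
  unfold Ph
  rw [Finset.sum_range_succ, Finset.sum_eq_zero, Nat.sub_self, pow_zero, one_mul, zero_add]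
  intro n hn
  have h1 : N.totalDegree - n ≠ 0 := by
    have := Finset.mem_range.1 hn
    omega
  have h2 : e ≠ 0 := by omega
  show ((0 : ℂ) ^ e) ^ (N.totalDegree - n) * _ = 0
  rw [zero_pow h2, zero_pow h1, zero_mul]

private lemma Ph_inv {k : Subfield ℂ} {m : ℕ} (N : MvPolynomial (Fin m) k) {e : ℕ} (he : 1 ≤ e)
    {T : ℕ} (hT : 1 ≤ T) (x : Fin m → ℂ) :
    aeval x N = (T : ℂ) ^ N.totalDegree *
      Ph N e ((fun j => x j / (T : ℂ)), ((sT e T : ℝ) : ℂ)) := by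
  have hTc : (T : ℂ) ≠ 0 := by
    have : T ≠ 0 := by omega
    exact_mod_cast this
  have h0 : ((sT e T : ℝ) : ℂ) ^ e = (T : ℂ)⁻¹ := by
    rw [← sT_pow he hT, inv_pow, inv_inv]
  have h1 : x = fun j => (T : ℂ) * (fun j => x j / (T : ℂ)) j := by
    funext j
    show x j = (T : ℂ) * (x j / (T : ℂ))
    field_simp
  conv_lhs => rw [← sum_homogeneousComponent N, map_sum, h1]
  unfold Ph
  rw [Finset.mul_sum]
  refine Finset.sum_congr rfl fun n hn => ?_
  rw [rw_aev, rw_aev, rw_hom ((homogeneousComponent_isHomogeneous n N).map _), ← mul_assoc]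
  congr 1
  have hn' : n ≤ N.totalDegree := by
    have := Finset.mem_range.1 hn
    omega
  have h2 : (T : ℂ) ^ N.totalDegree = (T : ℂ) ^ n * (T : ℂ) ^ (N.totalDegree - n) := by
    rw [← pow_add, Nat.add_sub_cancel' hn']
  rw [h2, h0, inv_pow, mul_assoc, mul_inv_cancel₀ (pow_ne_zero _ hTc), mul_one]

theorem root_W (k : Subfield ℂ) {m : ℕ} (F : MvPolynomial (Fin (m + 1)) k) (α : Fin m → ℂ)
    (hα : AlgebraicIndependent k α) (e : ℕ) (he : 1 ≤ e) (V : (Fin m → ℂ) × ℂ → ℂ)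
    (hV : ContDiffAt ℂ 1 V (α, 0))
    (hVF : ∀ᶠ p : (Fin m → ℂ) × ℂ in 𝓝 (α, 0), p.2 ≠ 0 →
      aeval (Fin.cons ((p.2⁻¹) ^ e * V p) (fun j => p.1 j * (p.2⁻¹) ^ e) :
        Fin (m + 1) → ℂ) F = 0)
    (c : Fin (m + 1) → ℝ)
    (hD : ∀ j : Fin m, (c 0 : ℂ) * fderiv ℂ V (α, 0) (Pi.single j 1, 0) = -(c j.succ : ℂ))
    (N : MvPolynomial (Fin m) k) (hN : N ≠ 0)
    (hNF : ∀ x : Fin (m + 1) → ℂ, aeval x F = 0 → aeval x (pderiv 0 F) = 0 →
      aeval (fun j : Fin m => x j.succ) N = 0) :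
    ∃ r : ℕ → (Fin m → ℂ) → ℂ,
      (∀ᶠ T : ℕ in atTop, ContinuousOn (r T)
        {x' : Fin m → ℂ | ∀ j, ‖x' j - (T : ℂ) * α j‖ ≤ √(T : ℝ)}) ∧
      (∀ᶠ T : ℕ in atTop, ∀ x' : Fin m → ℂ, (∀ j, ‖x' j - (T : ℂ) * α j‖ ≤ √(T : ℝ)) →
        aeval (Fin.cons (r T x') x' : Fin (m + 1) → ℂ) F = 0 ∧
        aeval (Fin.cons (r T x') x' : Fin (m + 1) → ℂ) (pderiv 0 F) ≠ 0) ∧
      (∀ C δ : ℝ, 0 < δ → ∀ᶠ T : ℕ in atTop, ∀ x' : Fin m → ℂ,
        (∀ j, ‖x' j - (T : ℂ) * α j‖ ≤ C * Real.log T) →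
        ‖(c 0 : ℂ) * (r T x' - r T fun j => (T : ℂ) * α j) +
          ∑ j : Fin m, (c j.succ : ℂ) * (x' j - (T : ℂ) * α j)‖ ≤ δ) ∧
      ∀ C : ℝ, (∀ᶠ s : ℝ in 𝓝[>] 0, |(((s : ℂ)⁻¹) ^ e * V (α, (s : ℂ))).re| ≤ C) →
        ∀ᶠ T : ℕ in atTop, |(r T fun j => (T : ℂ) * α j).re| ≤ C := by
  classical
  obtain ⟨r, hr⟩ : ∃ r : ℕ → (Fin m → ℂ) → ℂ, r = fun (T : ℕ) (x' : Fin m → ℂ) =>
    (T : ℂ) * V ((fun j => x' j / (T : ℂ)), ((sT e T : ℝ) : ℂ)) := ⟨_, rfl⟩
  have hrα : ∀ T : ℕ, 1 ≤ T → (r T fun j => (T : ℂ) * α j) =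
      (T : ℂ) * V (α, ((sT e T : ℝ) : ℂ)) := by
    intro T hT
    have hTc : (T : ℂ) ≠ 0 := by
      have : T ≠ 0 := by omega
      exact_mod_cast this
    rw [hr]
    show (T : ℂ) * V ((fun j => ((T : ℂ) * α j) / (T : ℂ)), ((sT e T : ℝ) : ℂ)) = _
    have h1 : (fun j => ((T : ℂ) * α j) / (T : ℂ)) = α := by
      funext j
      field_simp
    rw [h1]
  refine ⟨r, ?_, ?_, ?_, ?_⟩
  · have h1 : ∀ᶠ p in 𝓝 (α, (0 : ℂ)), ContinuousAt V p :=
      (hV.eventually (by simp)).mono fun p hp => hp.continuousAt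
    filter_upwards [near α he _ h1] with T hT x' hx'
    refine ContinuousAt.continuousWithinAt ?_
    rw [hr]
    refine continuousAt_const.mul ?_
    have h2 : ContinuousAt V ((fun j => x' j / (T : ℂ)), ((sT e T : ℝ) : ℂ)) := hT x' hx'
    refine ContinuousAt.comp (g := V)
      (f := fun x' : Fin m → ℂ => ((fun j => x' j / (T : ℂ)), ((sT e T : ℝ) : ℂ))) h2 ?_
    exact ((continuous_pi fun j => (continuous_apply j).div_const _).prodMk
      continuous_const).continuousAt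
  · have hα0 : aeval α (homogeneousComponent N.totalDegree N) ≠ 0 := by
      intro h
      exact rw_top hN ((map_eq_zero_iff _ hα).1 h)
    have h1 : ∀ᶠ p in 𝓝 (α, (0 : ℂ)), Ph N e p ≠ 0 := by
      refine (Ph_cont N e).continuousAt.eventually_ne ?_
      rw [Ph_zero N he]
      exact hα0
    filter_upwards [near α he _ h1, near α he _ hVF, eventually_ge_atTop 1] with
      T hT1 hT2 hT x' hx'
    have hTc : (T : ℂ) ≠ 0 := by
      have : T ≠ 0 := by omega
      exact_mod_cast this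
    have h2 : aeval (Fin.cons (r T x') x' : Fin (m + 1) → ℂ) F = 0 := by
      have h3 := hT2 x' hx' (by
        show ((sT e T : ℝ) : ℂ) ≠ 0
        exact_mod_cast (sT_pos e hT).ne')
      have h4 : (Fin.cons ((((sT e T : ℝ) : ℂ)⁻¹) ^ e *
          V ((fun j => x' j / (T : ℂ)), ((sT e T : ℝ) : ℂ)))
          (fun j => x' j / (T : ℂ) * (((sT e T : ℝ) : ℂ)⁻¹) ^ e) : Fin (m + 1) → ℂ) =
          Fin.cons (r T x') x' := by
        rw [sT_pow he hT, hr]
        congr 1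
        funext j
        field_simp
      rw [← h4]
      exact h3
    refine ⟨h2, fun h5 => ?_⟩
    have h6 := hNF _ h2 h5
    have h7 : (fun j : Fin m => (Fin.cons (r T x') x' : Fin (m + 1) → ℂ) j.succ) = x' := by
      funext j
      rw [Fin.cons_succ]
    rw [h7, Ph_inv N he hT x'] at h6
    rcases mul_eq_zero.1 h6 with h8 | h8
    · exact pow_ne_zero _ hTc h8
    · exact hT1 x' hx' h8
  · intro C δ hδ
    obtain ⟨ρ, K, hρ, hK, herr⟩ := fd_err V (α, (0 : ℂ)) hV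
    have l1 : Tendsto (fun T : ℕ => |C| * (Real.log T / T) + sT e T) atTop (𝓝 0) := by
      have h1 : Tendsto (fun T : ℕ => Real.log T / T) atTop (𝓝 0) := by
        have h1 := (Real.isLittleO_log_id_atTop).tendsto_div_nhds_zero.comp
          (tendsto_natCast_atTop_atTop (R := ℝ))
        exact h1
      have h2 := (h1.const_mul |C|).add (sT_tend he)
      simpa using h2
    have l2 : Tendsto (fun T : ℕ => |c 0| * (K * |C| * (|C| * (Real.log T * (Real.log T / T)) +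
        Real.log T * sT e T))) atTop (𝓝 0) := by
      have h2 := (((log_sq.const_mul |C|).add (log_sT he)).const_mul (K * |C|)).const_mul |c 0|
      simpa using h2
    filter_upwards [l1.eventually_lt_const hρ, l2.eventually_lt_const hδ,
      eventually_ge_atTop 3] with T hT1 hT2 hT3 x' hx'
    have hT : 1 ≤ T := by omega
    have hT0 : (0 : ℝ) < T := by exact_mod_cast hT
    have hTc : (T : ℂ) ≠ 0 := by exact_mod_cast hT0.ne'
    have hlog : 0 ≤ Real.log T := Real.log_nonneg (by exact_mod_cast hT)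
    have hx2 : ∀ j, ‖x' j - (T : ℂ) * α j‖ ≤ |C| * Real.log T := fun j =>
      (hx' j).trans (mul_le_mul_of_nonneg_right (le_abs_self C) hlog)
    have hs0 := (sT_pos e hT).le
    have e1 : (fun j => x' j / (T : ℂ)) - α = fun j => (x' j - (T : ℂ) * α j) / T := by
      funext j
      show x' j / (T : ℂ) - α j = _
      field_simp
    have hq : ‖(fun j => x' j / (T : ℂ)) - α‖ ≤ |C| * (Real.log T / T) := by
      rw [e1, pi_norm_le_iff_of_nonneg (by positivity)]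
      intro j
      rw [norm_div, Complex.norm_natCast, div_le_iff₀ hT0]
      refine (hx2 j).trans (le_of_eq ?_)
      field_simp
    have hpq : ((fun j => x' j / (T : ℂ)), ((sT e T : ℝ) : ℂ)) - (α, ((sT e T : ℝ) : ℂ)) =
        ((fun j => (x' j - (T : ℂ) * α j) / T), (0 : ℂ)) := by
      rw [Prod.mk_sub_mk, e1, sub_self]
    have h1 := herr (|C| * (Real.log T / T) + sT e T)
      ((fun j => x' j / (T : ℂ)), ((sT e T : ℝ) : ℂ)) (α, ((sT e T : ℝ) : ℂ)) hT1 (by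
        rw [Prod.mk_sub_mk, Prod.norm_mk, max_le_iff, sub_zero, Complex.norm_real,
          Real.norm_of_nonneg hs0]
        exact ⟨by linarith, by have : 0 ≤ |C| * (Real.log T / T) := by positivity
                               linarith⟩) (by
        rw [Prod.mk_sub_mk, Prod.norm_mk, max_le_iff, sub_zero, sub_self, norm_zero,
          Complex.norm_real, Real.norm_of_nonneg hs0]
        have : 0 ≤ |C| * (Real.log T / T) := by positivity
        exact ⟨by linarith, by linarith⟩)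
    rw [hpq] at h1
    have hn : ‖((fun j => (x' j - (T : ℂ) * α j) / T), (0 : ℂ))‖ ≤ |C| * (Real.log T / T) := by
      rw [Prod.norm_mk, norm_zero, max_le_iff, ← e1]
      exact ⟨hq, by positivity⟩
    -- the derivative
    have hlin : (c 0 : ℂ) * ((T : ℂ) * fderiv ℂ V (α, 0)
        ((fun j => (x' j - (T : ℂ) * α j) / T), (0 : ℂ))) =
        -∑ j : Fin m, (c j.succ : ℂ) * (x' j - (T : ℂ) * α j) := by
      have h2 : ((fun j => (x' j - (T : ℂ) * α j) / T), (0 : ℂ)) =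
          ∑ j : Fin m, ((x' j - (T : ℂ) * α j) / T) •
            ((Pi.single j (1 : ℂ) : Fin m → ℂ), (0 : ℂ)) := by
        refine Prod.ext ?_ ?_
        · rw [Prod.fst_sum]
          funext i
          simp [Finset.sum_apply, Pi.single_apply]
        · rw [Prod.snd_sum]
          simp
      rw [h2, map_sum, Finset.mul_sum, Finset.mul_sum, ← Finset.sum_neg_distrib]
      refine Finset.sum_congr rfl fun j _ => ?_
      rw [map_smul, smul_eq_mul]
      have h3 := hD j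
      have h4 : (c 0 : ℂ) * ((T : ℂ) * ((x' j - (T : ℂ) * α j) / T *
          fderiv ℂ V (α, 0) ((Pi.single j (1 : ℂ) : Fin m → ℂ), (0 : ℂ)))) =
          (x' j - (T : ℂ) * α j) * ((c 0 : ℂ) *
            fderiv ℂ V (α, 0) ((Pi.single j (1 : ℂ) : Fin m → ℂ), (0 : ℂ))) := by
        field_simp
      rw [h4, h3]
      ring
    have hfin : (c 0 : ℂ) * (r T x' - r T fun j => (T : ℂ) * α j) +
        ∑ j : Fin m, (c j.succ : ℂ) * (x' j - (T : ℂ) * α j) =
        (c 0 : ℂ) * ((T : ℂ) * (V ((fun j => x' j / (T : ℂ)), ((sT e T : ℝ) : ℂ)) -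
          V (α, ((sT e T : ℝ) : ℂ)) - fderiv ℂ V (α, 0)
            ((fun j => (x' j - (T : ℂ) * α j) / T), (0 : ℂ)))) := by
      have hrx : r T x' = (T : ℂ) * V ((fun j => x' j / (T : ℂ)), ((sT e T : ℝ) : ℂ)) := by
        rw [hr]
      rw [hrα T hT, hrx]
      linear_combination hlin
    rw [hfin, norm_mul, norm_mul, Complex.norm_real, Complex.norm_natCast, Real.norm_eq_abs]
    refine le_trans ?_ hT2.le
    refine mul_le_mul_of_nonneg_left ?_ (abs_nonneg _)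
    calc (T : ℝ) * ‖V ((fun j => x' j / (T : ℂ)), ((sT e T : ℝ) : ℂ)) -
          V (α, ((sT e T : ℝ) : ℂ)) - fderiv ℂ V (α, 0)
            ((fun j => (x' j - (T : ℂ) * α j) / T), (0 : ℂ))‖
        ≤ (T : ℝ) * (K * (|C| * (Real.log T / T) + sT e T) * (|C| * (Real.log T / T))) := by
          refine mul_le_mul_of_nonneg_left (h1.trans ?_) hT0.le
          exact mul_le_mul_of_nonneg_left hn (by positivity)
      _ = K * |C| * (|C| * (Real.log T * (Real.log T / T)) + Real.log T * sT e T) := by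
          field_simp
  · intro C hC
    have h1 : Tendsto (sT e) atTop (𝓝[>] 0) := by
      rw [tendsto_nhdsWithin_iff]
      exact ⟨sT_tend he, (eventually_ge_atTop 1).mono fun T hT => sT_pos e hT⟩
    filter_upwards [h1.eventually hC, eventually_ge_atTop 1] with T hT1 hT
    rw [hrα T hT]
    rwa [sT_pow he hT] at hT1

end Pool.Agent.EXW
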