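import Pool.Agent.EXG.Densu

/-!
# EXW / PhasesW: the phases, centre `x`

PROOF.  As `EXG.phases` (CoreB): `κ^0_j = log (s j) + ηi j + 2 π i l^0_j`, `l^0_j = round ((Im x_j - arg (s j)) / (2 π))`, so
`‖κ^0_j - x_j‖ ≤ |log ‖s j‖ - Re x_j| + ‖ηi j‖ + π`; `∑ c_j (κ^0_j - x_j)` is purely imaginary.
-/

set_option autoImplicit false

namespace Pool.Agent.EXW

open Pool.Agent.EXG

theorem phasesW {n : ℕ} (hn : 2 ≤ n) (c : Fin n → ℝ)
    (hc : ∀ v : Fin n → ℤ, v ≠ 0 → ∑ j, c j * v j ≠ 0) (θ ε : ℝ) (hε : 0 < ε) :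
    ∃ K : ℝ, ∀ (x s ηi : Fin n → ℂ), (∀ j, s j ≠ 0) →
      ∑ j, c j * Real.log ‖s j‖ = (∑ j, (c j : ℂ) * x j).re →
      ∑ j, (c j : ℂ) * ηi j = Complex.I * θ → (∀ j, ‖ηi j‖ ≤ 1) →
      ∃ κ : Fin n → ℂ, (∀ j, Complex.exp (κ j) = s j * Complex.exp (ηi j)) ∧
        ‖∑ j, (c j : ℂ) * κ j - ∑ j, (c j : ℂ) * x j‖ ≤ ε ∧
        ∀ j, ‖κ j - x j‖ ≤ |Real.log ‖s j‖ - (x j).re| + K := by
  obtain ⟨L, hL⟩ := densu hn c hc (Real.pi * ∑ j, |c j| + |θ|) ε hε
  refine ⟨Real.pi + 1 + 2 * Real.pi * L, ?_⟩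
  intro x s ηi hs hlog hη hη1
  have hpi := Real.pi_pos
  -- the first choice of the branches
  obtain ⟨m, hm⟩ : ∃ m : Fin n → ℤ,
      ∀ j, |(s j).arg + 2 * Real.pi * m j - (x j).im| ≤ Real.pi := by
    refine ⟨fun j => round (((x j).im - (s j).arg) / (2 * Real.pi)), fun j => ?_⟩
    have h1 := abs_sub_round (((x j).im - (s j).arg) / (2 * Real.pi))
    have h2 : (s j).arg + 2 * Real.pi *
        ((round (((x j).im - (s j).arg) / (2 * Real.pi)) : ℤ) : ℝ) - (x j).im =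
        -((2 * Real.pi) * (((x j).im - (s j).arg) / (2 * Real.pi) -
          ((round (((x j).im - (s j).arg) / (2 * Real.pi)) : ℤ) : ℝ))) := by
      have h3 : (2 * Real.pi) * (((x j).im - (s j).arg) / (2 * Real.pi)) =
          (x j).im - (s j).arg := by
        field_simp
      rw [mul_sub, h3]
      ring
    rw [h2, abs_neg, abs_mul, abs_of_pos (by positivity : 0 < 2 * Real.pi)]
    nlinarith
  have hsum : |∑ j, c j * ((s j).arg + 2 * Real.pi * m j - (x j).im)| ≤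
      Real.pi * ∑ j, |c j| := by
    rw [Finset.mul_sum]
    refine (Finset.abs_sum_le_sum_abs _ _).trans (Finset.sum_le_sum fun j _ => ?_)
    rw [abs_mul, mul_comm]
    exact mul_le_mul_of_nonneg_right (hm j) (abs_nonneg _)
  obtain ⟨l, hl1, hl2⟩ := hL
    (-(∑ j, c j * ((s j).arg + 2 * Real.pi * m j - (x j).im) + θ)) (by
    rw [abs_neg]
    have := abs_add_le (∑ j, c j * ((s j).arg + 2 * Real.pi * m j - (x j).im)) θ
    linarith)
  have hx : ∑ j, (c j : ℂ) * x j =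
      ((∑ j, (c j : ℂ) * x j).re : ℂ) + ((∑ j, c j * (x j).im : ℝ) : ℂ) * Complex.I := by
    have h1 : (∑ j, (c j : ℂ) * x j).im = ∑ j, c j * (x j).im := by
      rw [Complex.im_sum]
      exact Finset.sum_congr rfl fun j _ => Complex.im_ofReal_mul _ _
    rw [← h1]
    exact (Complex.re_add_im _).symm
  refine ⟨fun j => Complex.log (s j) + ηi j + ((m j + l j : ℤ) : ℂ) * (2 * Real.pi * Complex.I),
    fun j => ?_, ?_, fun j => ?_⟩
  · rw [Complex.exp_add, Complex.exp_add, Complex.exp_log (hs j),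
      Complex.exp_int_mul_two_pi_mul_I, mul_one]
  · have e : ∑ j, (c j : ℂ) * (Complex.log (s j) + ηi j +
        ((m j + l j : ℤ) : ℂ) * (2 * Real.pi * Complex.I)) =
        (((∑ j, c j * Real.log ‖s j‖ : ℝ) : ℂ) + ∑ j, (c j : ℂ) * ηi j) +
          (((∑ j, c j * ((s j).arg + 2 * Real.pi * m j - (x j).im) : ℝ) : ℂ) * Complex.I +
          ((∑ j, c j * (2 * Real.pi * l j) : ℝ) : ℂ) * Complex.I) +
          ((∑ j, c j * (x j).im : ℝ) : ℂ) * Complex.I := by
      push_cast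
      rw [Finset.sum_mul, Finset.sum_mul, Finset.sum_mul, ← Finset.sum_add_distrib,
        ← Finset.sum_add_distrib,
        ← Finset.sum_add_distrib, ← Finset.sum_add_distrib]
      refine Finset.sum_congr rfl fun j _ => ?_
      unfold Complex.log
      ring
    rw [e, hlog, hη]
    have e2 : (((∑ j, (c j : ℂ) * x j).re : ℂ) + Complex.I * θ) +
        (((∑ j, c j * ((s j).arg + 2 * Real.pi * m j - (x j).im) : ℝ) : ℂ) * Complex.I +
          ((∑ j, c j * (2 * Real.pi * l j) : ℝ) : ℂ) * Complex.I) +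
          ((∑ j, c j * (x j).im : ℝ) : ℂ) * Complex.I -
          (((∑ j, (c j : ℂ) * x j).re : ℂ) + ((∑ j, c j * (x j).im : ℝ) : ℂ) * Complex.I) =
        ((∑ j, c j * (2 * Real.pi * l j) -
          (-(∑ j, c j * ((s j).arg + 2 * Real.pi * m j - (x j).im) + θ)) : ℝ) : ℂ) *
            Complex.I := by
      push_cast
      ring
    rw [← hx] at e2
    rw [e2, norm_mul, Complex.norm_I, mul_one, Complex.norm_real, Real.norm_eq_abs]
    exact hl2.le
  · have e : Complex.log (s j) + ηi j + ((m j + l j : ℤ) : ℂ) * (2 * Real.pi * Complex.I) -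
        x j = ((Real.log ‖s j‖ - (x j).re : ℝ) : ℂ) +
          (((s j).arg + 2 * Real.pi * m j - (x j).im : ℝ) : ℂ) * Complex.I + ηi j +
          ((2 * Real.pi * l j : ℝ) : ℂ) * Complex.I := by
      have h0 : x j = ((x j).re : ℂ) + (x j).im * Complex.I := (Complex.re_add_im _).symm
      conv_lhs => rw [h0]
      unfold Complex.log
      push_cast
      ring
    show ‖Complex.log (s j) + ηi j + ((m j + l j : ℤ) : ℂ) * (2 * Real.pi * Complex.I) -
        x j‖ ≤ _
    rw [e]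
    have h1 : ‖((Real.log ‖s j‖ - (x j).re : ℝ) : ℂ)‖ = |Real.log ‖s j‖ - (x j).re| := by
      rw [Complex.norm_real, Real.norm_eq_abs]
    have h2 : ‖(((s j).arg + 2 * Real.pi * m j - (x j).im : ℝ) : ℂ) * Complex.I‖ ≤ Real.pi := by
      rw [norm_mul, Complex.norm_I, mul_one, Complex.norm_real, Real.norm_eq_abs]
      exact hm j
    have h3 : ‖((2 * Real.pi * l j : ℝ) : ℂ) * Complex.I‖ ≤ 2 * Real.pi * L := by
      rw [norm_mul, Complex.norm_I, mul_one, Complex.norm_real, Real.norm_eq_abs, abs_mul,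
        abs_of_pos (by positivity : 0 < 2 * Real.pi)]
      apply mul_le_mul_of_nonneg_left _ (by positivity)
      exact_mod_cast hl1 j
    have h4 := hη1 j
    refine (norm_add_le _ _).trans ?_
    have h5 := norm_add_le (((Real.log ‖s j‖ - (x j).re : ℝ) : ℂ) +
          (((s j).arg + 2 * Real.pi * m j - (x j).im : ℝ) : ℂ) * Complex.I) (ηi j)
    have h6 := norm_add_le ((Real.log ‖s j‖ - (x j).re : ℝ) : ℂ)
          ((((s j).arg + 2 * Real.pi * m j - (x j).im : ℝ) : ℂ) * Complex.I)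
    linarith

end Pool.Agent.EXW
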