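import Pool.Agent.EXP.Fibre

/-!
# EXW / FibT: an irreducible curve in the fibre, for a tuple of complex numbers

PROOF.  As `EXP.fibre_curve`, from `EXP.fibre_aux`: `ka` = the subfield generated by `k` and the `a_j`; `θ : ka → ℂ` over `k`,
`a_j ↦ x_j` (`hxa`); `j1` with `b_{j1}` transcendental over `ka`, all `b_j` algebraic over `ka(b_{j1})` (`htd`, `hta`). If `f(a, b) = 0`, `f` over
`k`: `g = f(a, Y)` over `ka` has `g(b) = 0`, so `map θ g = f(x, Y) ∈ Q`.
-/

set_option autoImplicit false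
set_option linter.all false

namespace Pool.Agent.EXW

open MvPolynomial Pool.Agent.EXL Pool.Agent.EXI Pool.Agent.EXK Pool.Agent.EXP

private theorem ft_hom (k : Subfield ℂ) {m : ℕ} (a x : Fin (m + 1) → ℂ)
    (hxa : ∀ f : MvPolynomial (Fin (m + 1)) k, aeval x f = 0 ↔ aeval a f = 0) :
    ∃ g : (Algebra.adjoin k (Set.range a)) →+* ℂ, Function.Injective g ∧
      ∀ f : MvPolynomial (Fin (m + 1)) k, ∀ h : (aeval a f : ℂ) ∈ Algebra.adjoin k (Set.range a),
        g ⟨aeval a f, h⟩ = aeval x f := by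
  classical
  have hex : ∀ y : Algebra.adjoin k (Set.range a), ∃ f : MvPolynomial (Fin (m + 1)) k,
      aeval a f = (y : ℂ) := by
    intro y
    have h1 : ∀ z ∈ Algebra.adjoin k (Set.range a), ∃ f : MvPolynomial (Fin (m + 1)) k,
        (aeval a f : ℂ) = z := by
      intro z hz
      rw [Algebra.adjoin_range_eq_range_aeval] at hz
      exact hz
    exact h1 y.1 y.2
  choose F hF using hex
  have key : ∀ f g : MvPolynomial (Fin (m + 1)) k, (aeval a f : ℂ) = aeval a g →
      (aeval x f : ℂ) = aeval x g := by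
    intro f g h
    have h1 : (aeval a (f - g) : ℂ) = 0 := by rw [map_sub, h, sub_self]
    have h2 := (hxa _).2 h1
    rw [map_sub] at h2
    exact sub_eq_zero.1 h2
  let G : (Algebra.adjoin k (Set.range a)) →+* ℂ :=
    { toFun := fun y => aeval x (F y)
      map_one' := by
        have : (aeval a (F 1) : ℂ) = aeval a (1 : MvPolynomial (Fin (m + 1)) k) := by
          rw [hF, map_one]; rfl
        rw [key _ _ this, map_one]
      map_mul' := fun y z => by
        have : (aeval a (F (y * z)) : ℂ) = aeval a (F y * F z) := by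
          rw [hF, map_mul, hF, hF]; rfl
        rw [key _ _ this, map_mul]
      map_zero' := by
        have : (aeval a (F 0) : ℂ) = aeval a (0 : MvPolynomial (Fin (m + 1)) k) := by
          rw [hF, map_zero]; rfl
        rw [key _ _ this, map_zero]
      map_add' := fun y z => by
        have : (aeval a (F (y + z)) : ℂ) = aeval a (F y + F z) := by
          rw [hF, map_add, hF, hF]; rfl
        rw [key _ _ this, map_add] }
  refine ⟨G, ?_, ?_⟩
  · rw [injective_iff_map_eq_zero]
    intro y hy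
    have h1 : (aeval x (F y) : ℂ) = 0 := hy
    have h2 := (hxa _).1 h1
    rw [hF] at h2
    exact Subtype.ext h2
  · intro f h
    exact key _ _ (hF _)

open scoped IntermediateField.algebraAdjoinAdjoin in
private theorem ft_theta (k : Subfield ℂ) {m : ℕ} (a x : Fin (m + 1) → ℂ)
    (hxa : ∀ f : MvPolynomial (Fin (m + 1)) k, aeval x f = 0 ↔ aeval a f = 0)
    (ka : Subfield ℂ) (hka : ka = Subfield.closure ((k : Set ℂ) ∪ Set.range a))
    (hkka : ∀ c ∈ k, c ∈ ka) (haka : ∀ j, a j ∈ ka) :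
    ∃ θ : ka →+* ℂ, (∀ c (hc : c ∈ k), θ ⟨c, hkka c hc⟩ = c) ∧ ∀ j, θ ⟨a j, haka j⟩ = x j := by
  obtain ⟨g, hg, hgv⟩ := ft_hom k a x hxa
  have hin : ∀ y ∈ ka, y ∈ IntermediateField.adjoin k (Set.range a) := by
    intro y hy
    rw [hka] at hy
    have : Subfield.closure ((k : Set ℂ) ∪ Set.range a) ≤
        (IntermediateField.adjoin k (Set.range a)).toSubfield := by
      rw [Subfield.closure_le]
      rintro z (hz | hz)
      · exact (IntermediateField.adjoin k (Set.range a)).algebraMap_mem ⟨z, hz⟩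
      · exact IntermediateField.subset_adjoin _ _ hz
    exact this hy
  let i : ka →+* IntermediateField.adjoin k (Set.range a) :=
    { toFun := fun y => ⟨y.1, hin y.1 y.2⟩
      map_one' := rfl
      map_mul' := fun _ _ => rfl
      map_zero' := rfl
      map_add' := fun _ _ => rfl }
  let L : IntermediateField.adjoin k (Set.range a) →+* ℂ := IsFractionRing.lift hg
  have hL : ∀ y : Algebra.adjoin k (Set.range a),
      L (algebraMap (Algebra.adjoin k (Set.range a)) (IntermediateField.adjoin k (Set.range a)) y) =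
        g y := fun y => IsFractionRing.lift_algebraMap hg y
  refine ⟨L.comp i, ?_, ?_⟩
  · intro c hc
    have h0 : (aeval a (C ⟨c, hc⟩ : MvPolynomial (Fin (m + 1)) k) : ℂ) = c := by
      rw [aeval_C]; rfl
    have h1 : (aeval a (C ⟨c, hc⟩ : MvPolynomial (Fin (m + 1)) k) : ℂ) ∈
        Algebra.adjoin k (Set.range a) := by
      rw [aeval_C]
      exact (Algebra.adjoin k (Set.range a)).algebraMap_mem ⟨c, hc⟩
    have h2 : i ⟨c, hkka c hc⟩ = algebraMap (Algebra.adjoin k (Set.range a))
        (IntermediateField.adjoin k (Set.range a)) ⟨_, h1⟩ := Subtype.ext h0.symm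
    rw [RingHom.comp_apply, h2, hL, hgv, aeval_C]
    rfl
  · intro j
    have h0 : (aeval a (X j : MvPolynomial (Fin (m + 1)) k) : ℂ) = a j := aeval_X _ _
    have h1 : (aeval a (X j : MvPolynomial (Fin (m + 1)) k) : ℂ) ∈
        Algebra.adjoin k (Set.range a) := by
      rw [h0]
      exact Algebra.subset_adjoin ⟨j, rfl⟩
    have h2 : i ⟨a j, haka j⟩ = algebraMap (Algebra.adjoin k (Set.range a))
        (IntermediateField.adjoin k (Set.range a)) ⟨_, h1⟩ := Subtype.ext h0.symm
    rw [RingHom.comp_apply, h2, hL, hgv, aeval_X]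

private theorem ft_le {k ka : Subfield ℂ} (S1 : Subalgebra k ℂ) (S2 : Subalgebra ka ℂ)
    (h : ∀ y ∈ S1, y ∈ S2) (x : ℂ) (hx : IsAlgebraic S1 x) : IsAlgebraic S2 x := by
  let g : S1 →+* S2 :=
    { toFun := fun y => ⟨y, h y y.2⟩
      map_one' := rfl
      map_mul' := fun _ _ => rfl
      map_zero' := rfl
      map_add' := fun _ _ => rfl }
  have hg : Function.Injective g := by
    intro y z hyz
    exact Subtype.ext (congrArg (fun w : S2 => (w : ℂ)) hyz)
  obtain ⟨q, hq0, hq⟩ := hx
  refine ⟨q.map g, (Polynomial.map_ne_zero_iff hg).2 hq0, ?_⟩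
  rw [Polynomial.aeval_def, Polynomial.eval₂_map]
  have : (algebraMap S2 ℂ).comp g = algebraMap S1 ℂ := RingHom.ext fun _ => rfl
  rw [this]
  exact hq

private theorem ft_adj {k ka : Subfield ℂ} (h : ∀ c ∈ k, c ∈ ka) (Y : Set ℂ)
    (S2 : Subalgebra ka ℂ) (hY : ∀ y ∈ Y, y ∈ S2) (y : ℂ) (hy : y ∈ Algebra.adjoin k Y) :
    y ∈ S2 := by
  induction hy using Algebra.adjoin_induction with
  | mem y hy => exact hY y hy
  | algebraMap r => exact S2.algebraMap_mem ⟨(r : ℂ), h _ r.2⟩
  | add y z _ _ h1 h2 => exact add_mem h1 h2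
  | mul y z _ _ h1 h2 => exact mul_mem h1 h2

theorem fibre_tuple (k : Subfield ℂ) {m : ℕ} (a b : Fin (m + 1) → ℂ) (hb : ∀ j, b j ≠ 0)
    (htd : td (k : Set ℂ) (Sum.elim a b) = m + 1) (hta : td (k : Set ℂ) a = m)
    (x : Fin (m + 1) → ℂ)
    (hxa : ∀ f : MvPolynomial (Fin (m + 1)) k, aeval x f = 0 ↔ aeval a f = 0) :
    ∃ Q : Ideal (MvPolynomial (Fin (m + 1)) ℂ), Q.IsPrime ∧
      (∀ j : Fin (m + 1), (X j : MvPolynomial (Fin (m + 1)) ℂ) ∉ Q) ∧
      Algebra.trdeg ℂ (MvPolynomial (Fin (m + 1)) ℂ ⧸ Q) = 1 ∧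
      ∀ w : Fin (m + 1) → ℂ, (∀ g ∈ Q, eval w g = 0) →
        Spec k (Sum.elim a b) (Sum.elim x w) := by
  classical
  obtain ⟨s, j1, hs, ht, haa, hba⟩ := exists_sj k a b htd hta
  obtain ⟨ka, hka⟩ : ∃ ka : Subfield ℂ, ka = Subfield.closure ((k : Set ℂ) ∪ Set.range a) :=
    ⟨_, rfl⟩
  have hkka : ∀ c ∈ k, c ∈ ka := fun c hc => by rw [hka]; exact Subfield.subset_closure (Or.inl hc)
  have haka : ∀ j, a j ∈ ka := fun j => by rw [hka]; exact Subfield.subset_closure (Or.inr ⟨j, rfl⟩)
  obtain ⟨θ, hθk, hθa⟩ := ft_theta k a x hxa ka hka hkka haka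
  -- `b j1` is transcendental over `ka`
  have hbt : AlgebraicIndependent ka (fun _ : Fin 1 => b j1) := by
    refine (algebraicIndependent_unique_type_iff (ι := Fin 1)).2 ?_
    intro halg
    have h1 : td (k : Set ℂ) (Fin.snoc (fun i => a (s i)) (b j1) : Fin (m + 1) → ℂ) ≤
        td (k : Set ℂ) a := by
      refine rk_le_of_dep _ _ _ ?_
      intro D hD hz i
      have hDka : D ∈ DerOver (ka : Set ℂ) := by
        rw [hka, derOver_closure]
        intro y hy
        rcases hy with hy | ⟨j, rfl⟩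
        · exact hD y hy
        · exact hz j
      refine Fin.lastCases ?_ (fun j => ?_) i
      · rw [Fin.snoc_last]
        exact derOver_algebraic ka D hDka _ halg
      · rw [Fin.snoc_castSucc]
        exact hz _
    rw [(ind_iff k _).1 ht, hta] at h1
    omega
  -- the other `b j` are algebraic over `ka (b j1)`
  have hbk : ∀ j, IsAlgebraic (Algebra.adjoin ka (Set.range fun _ : Fin 1 => b j1)) (b j) := by
    intro j
    refine ft_le _ _ (fun y hy => ft_adj hkka _ _ ?_ y hy) _ (hba j)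
    rintro y ⟨i, rfl⟩
    refine Fin.lastCases ?_ (fun j => ?_) i
    · rw [Fin.snoc_last]
      exact Algebra.subset_adjoin ⟨0, rfl⟩
    · rw [Fin.snoc_castSucc]
      exact (Algebra.adjoin ka (Set.range fun _ : Fin 1 => b j1)).algebraMap_mem
        ⟨a (s j), haka _⟩
  obtain ⟨Q, hQ, hQY, hQd, hQg⟩ := fibre_aux ka θ b hb j1 hbt hbk
  refine ⟨Q, hQ, hQY, hQd, ?_⟩
  intro w hw f hf0
  -- `g = f(a, Y)`
  let incl : k →+* ka := Subfield.inclusion hkka
  obtain ⟨g, hg⟩ : ∃ g : MvPolynomial (Fin (m + 1)) ka, g = eval₂ (C.comp incl)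
    (Sum.elim (fun j => C (⟨a j, haka j⟩ : ka)) X) f := ⟨_, rfl⟩
  have h1 : aeval b g = aeval (Sum.elim a b) f := by
    rw [hg, ← coe_eval₂Hom, ← AlgHom.coe_toRingHom, ← RingHom.comp_apply]
    rw [aeval_def]
    have : ((aeval b : MvPolynomial (Fin (m + 1)) ka →ₐ[ka] ℂ).toRingHom).comp
        (eval₂Hom (C.comp incl) (Sum.elim (fun j => C (⟨a j, haka j⟩ : ka)) X)) =
        eval₂Hom (algebraMap k ℂ) (Sum.elim a b) := by
      apply MvPolynomial.ringHom_ext
      · intro r
        rw [RingHom.comp_apply, eval₂Hom_C, eval₂Hom_C, RingHom.comp_apply]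
        exact aeval_C _ _
      · intro i
        rw [RingHom.comp_apply, eval₂Hom_X', eval₂Hom_X']
        cases i with
        | inl j => exact aeval_C _ _
        | inr j => exact aeval_X _ _
    exact congrArg (fun h => h f) this
  have h2 := hQg g (h1.trans hf0)
  have h3 := hw _ h2
  have h4 : eval w (map θ g) = aeval (Sum.elim x w) f := by
    rw [hg, ← coe_eval₂Hom, ← RingHom.comp_apply, ← RingHom.comp_apply, aeval_def]
    have : ((eval w).comp (map θ)).comp
        (eval₂Hom (C.comp incl) (Sum.elim (fun j => C (⟨a j, haka j⟩ : ka)) X)) =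
        eval₂Hom (algebraMap k ℂ) (Sum.elim x w) := by
      apply MvPolynomial.ringHom_ext
      · intro r
        rw [RingHom.comp_apply, eval₂Hom_C, eval₂Hom_C, RingHom.comp_apply, RingHom.comp_apply,
          map_C, eval_C]
        exact hθk r r.2
      · intro i
        rw [RingHom.comp_apply, eval₂Hom_X', eval₂Hom_X']
        cases i with
        | inl j =>
          rw [Sum.elim_inl, Sum.elim_inl, RingHom.comp_apply, map_C, eval_C]
          exact hθa j
        | inr j =>
          rw [Sum.elim_inr, Sum.elim_inr, RingHom.comp_apply, map_X, eval_X]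
    exact congrArg (fun h => h f) this
  rw [← h4]
  exact h3

end Pool.Agent.EXW
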