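import Pool.Agent.EXW.ConclPt
import Pool.Agent.EXW.CoreW
import Pool.Agent.EXW.FibT
import Pool.Agent.EXW.ChartW
import Pool.Agent.EXW.DichW
import Pool.Agent.EXW.GradV
import Pool.Agent.EXW.RootW
import Pool.Agent.EXW.DiscW
import Pool.Agent.EXG.Gz

/-!
# EXW / ConclA: the theorem in adapted coordinates (order vector `g e_0`)

PROOF.  `α j = I β_(j+1)`, `ρ₀ = I β_0`; `β_0 ≠ 0` (if `β_0 = 0` then `G ∣ X 0`, so `∂_j G (β) = 0` for `j ≥ 1`, `c_j = 0` against
`hc`, `m ≥ 1`). `Fc d` vanishes at `I β` (homogeneous). `r0 = τ (a 0)`, where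
`τ (a j.succ) = α j` from `exists_aut`; relations: `gen_zero`. `chartW`: `e, V`. `W s = V (α, s)` is analytic at `0`
(complex differentiable near `0`), `Re W 0 = Re ρ₀ = 0`. `dich`:
(growth) for small `s > 0` put `T = s^(-e)`, `x = (ζ s)^(-e) V(α, ζ s) = s^(-e) W(ζ s)`, `F(x, T α) = 0` by the chart at `(α, ζ s)`;
`Re x ≤ - T^(ε / e) (1 + ‖x‖ / T)`; `T → ∞`: `concl_pt`.
(bounded) `grad_V` at `(ρ₀, α) = I β`: `∂_j G(I β) = I^(r-1) μ c_j`, so `c_0 fderiv V (e_j, 0) = - c_j`; `exists_disc`; `root_W`; `coreW` with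
`hfib` from `fibre_tuple` and `gen_zero`.
-/

set_option autoImplicit false

namespace Pool.Agent.EXW

open MvPolynomial Pool.Agent.EXL Pool.Agent.EXI Pool.Agent.EXK Pool.Agent.EXG Topology Filter

private theorem ca_smul {k : Subfield ℂ} {n r : ℕ} {P : MvPolynomial (Fin n) k}
    (hP : P.IsHomogeneous r) (w : Fin n → ℂ) (t : ℂ) :
    aeval (fun j => t * w j) P = t ^ r * aeval w P := by
  rw [aeval_def, aeval_def, eval₂_eq, eval₂_eq, Finset.mul_sum]
  refine Finset.sum_congr rfl fun d hd => ?_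
  have h1 : ∑ i ∈ d.support, d i = r := by
    have h2 := hP (mem_support_iff.1 hd)
    rw [Finsupp.weight_apply] at h2
    simpa [Finsupp.sum] using h2
  simp_rw [mul_pow]
  rw [Finset.prod_mul_distrib, Finset.prod_pow_eq_pow_sum, h1]
  ring

private theorem ca_conj {k : Subfield ℂ} {n : ℕ} (τ : ℂ ≃+* ℂ) (hτ : ∀ c ∈ k, τ c = c)
    (a : Fin n → ℂ) (f : MvPolynomial (Fin n) k) :
    aeval (fun j => τ (a j)) f = τ (aeval a f) := by
  induction f using MvPolynomial.induction_on with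
  | C c =>
    rw [aeval_C, aeval_C]
    exact (hτ _ c.2).symm
  | add p q hp hq => rw [map_add, map_add, map_add, hp, hq]
  | mul_X p i hp => rw [map_mul, map_mul, map_mul, hp, aeval_X, aeval_X]

/-- the cofactor of a homogeneous factor does not vanish at `I β` if it does not vanish at `β` -/
private theorem ca_cofactor {k : Subfield ℂ} {n r s d : ℕ} {P G R : MvPolynomial (Fin n) k}
    (hP : P.IsHomogeneous d) (hG : G.IsHomogeneous r) (hG0 : G ≠ 0) (hL : P = G ^ s * R)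
    (β : Fin n → ℂ) (hR : aeval β R ≠ 0) : aeval (fun j => Complex.I * β j) R ≠ 0 := by
  set ι : MvPolynomial (Fin n) k →+* MvPolynomial (Fin n) ℂ := map (algebraMap k ℂ) with hι
  have hinj : Function.Injective ι := map_injective _ (algebraMap k ℂ).injective
  have hev : ∀ (x : Fin n → ℂ) (Q : MvPolynomial (Fin n) k), eval x (ι Q) = aeval x Q := by
    intro x Q
    rw [hι, eval_map, aeval_def]
  set R2 : MvPolynomial (Fin n) ℂ := aeval (fun j => C Complex.I * X j) (ι R) with hR2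
  have hR2e : ∀ x : Fin n → ℂ, eval x R2 = aeval (fun j => Complex.I * x j) R := by
    intro x
    rw [← hev, hR2, ← coe_aeval_eq_eval, ← coe_aeval_eq_eval]
    have h : (aeval x).comp (aeval (fun j => (C Complex.I * X j : MvPolynomial (Fin n) ℂ))) =
        (aeval (fun j => Complex.I * x j) : MvPolynomial (Fin n) ℂ →ₐ[ℂ] ℂ) := by
      apply algHom_ext
      intro j
      rw [AlgHom.comp_apply, aeval_X, aeval_X, map_mul, aeval_C, aeval_X]
      rfl
    exact AlgHom.congr_fun h (ι R)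
  have hkey : (ι G) ^ s * (C (Complex.I ^ (r * s)) * R2 - C (Complex.I ^ d) * ι R) = 0 := by
    apply MvPolynomial.funext
    intro x
    rw [map_mul, map_pow, map_sub, map_mul, map_mul, eval_C, eval_C, hev, hR2e, hev, map_zero]
    have h1 := ca_smul hP x Complex.I
    rw [hL, map_mul, map_mul, map_pow, map_pow, ca_smul hG x Complex.I] at h1
    rw [mul_pow, ← pow_mul] at h1
    linear_combination h1
  have h2 : C (Complex.I ^ (r * s)) * R2 - C (Complex.I ^ d) * ι R = 0 := by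
    rcases mul_eq_zero.1 hkey with h | h
    · exfalso
      have h4 : ι G = 0 := by
        by_contra h5
        exact pow_ne_zero s h5 h
      exact hG0 (hinj (by rw [h4, map_zero]))
    · exact h
  have h3 := congrArg (eval β) h2
  rw [map_sub, map_mul, map_mul, eval_C, eval_C, hR2e, hev, map_zero] at h3
  intro h4
  rw [h4, mul_zero, zero_sub, neg_eq_zero] at h3
  rcases mul_eq_zero.1 h3 with h | h
  · exact pow_ne_zero _ Complex.I_ne_zero h
  · exact hR h

theorem concl_A (k : Subfield ℂ) (hk : (k : Set ℂ).Countable) {m : ℕ} (hm : 1 ≤ m)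
    (a b : Fin (m + 1) → ℂ) (hb : ∀ j, b j ≠ 0) (F : MvPolynomial (Fin (m + 1)) k) (hF0 : F ≠ 0)
    (hF : ∀ f : MvPolynomial (Fin (m + 1)) k, aeval a f = 0 ↔ F ∣ f)
    (htd : td (k : Set ℂ) (Sum.elim a b) = m + 1) (hta : td (k : Set ℂ) a = m)
    (ha : AlgebraicIndependent k (fun j : Fin m => a j.succ))
    (d : ℕ) (Fc : ℕ → MvPolynomial (Fin (m + 1)) k) (hFc : ∀ i, (Fc i).IsHomogeneous i)
    (hFs : F = ∑ i ∈ Finset.range (d + 1), Fc i)
    (G R : MvPolynomial (Fin (m + 1)) k) (r a0 : ℕ) (ha0 : 1 ≤ a0) (hG : G.IsHomogeneous r)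
    (hL : Fc d = G ^ a0 * R) (hGR : ¬ G ∣ R)
    (β : Fin (m + 1) → ℝ)
    (hβ0 : ∀ f : MvPolynomial (Fin (m + 1)) k, aeval (fun j => (β j : ℂ)) f = 0 ↔ G ∣ f)
    (hβ : AlgebraicIndependent k (fun j : Fin m => Complex.I * (β j.succ : ℂ)))
    (c : Fin (m + 1) → ℝ) (hc : ∀ v : Fin (m + 1) → ℤ, v ≠ 0 → ∑ j, c j * v j ≠ 0)
    (μ : ℂ) (hμ : μ ≠ 0)
    (hd : ∀ j, aeval (fun j => (β j : ℂ)) (pderiv j G) = μ * (c j : ℂ))
    (K : IntermediateField k ℂ)
    (hfg : ∃ S : Finset K, IntermediateField.adjoin k (S : Set K) = ⊤)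
    (htr : ∀ y : Fin (m + 2) → K, ¬ AlgebraicIndependent k y) (pl : Place k K)
    (A B : Fin (m + 1) → pl.O) (hA : ∀ j, ((A j : K) : ℂ) = a j)
    (hB : ∀ j, ((B j : K) : ℂ) = b j)
    (hρ0 : pl.ρ (B 0) = 0) (hρ1 : ∀ j : Fin m, pl.ρ (B j.succ) ≠ 0)
    (hrel : ∀ f : MvPolynomial (Fin (m + 1)) k, aeval (fun j => pl.ρ (A j)) f = 0 ↔ aeval a f = 0)
    (h : MvPolynomial (Fin (m + 1) ⊕ Fin (m + 1)) k) (hh : aeval (Sum.elim a b) h ≠ 0) :
    ∃ a' b' : Fin (m + 1) → ℂ, (∀ j, b' j = Complex.exp (a' j)) ∧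
      Spec k (Sum.elim a b) (Sum.elim a' b') ∧ aeval (Sum.elim a' b') h ≠ 0 := by
  classical
  set α : Fin m → ℂ := fun j => Complex.I * (β j.succ : ℂ) with hα
  set ρ₀ : ℂ := Complex.I * (β 0 : ℂ) with hρ₀def
  have hcons : (Fin.cons ρ₀ α : Fin (m + 1) → ℂ) = fun j => Complex.I * (β j : ℂ) := by
    funext j
    refine Fin.cases ?_ (fun j => ?_) j
    · rw [Fin.cons_zero]
    · rw [Fin.cons_succ]
  have hGβ : aeval (fun j => (β j : ℂ)) G = 0 := (hβ0 G).2 dvd_rfl
  have hcne : ∀ j, c j ≠ 0 := by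
    intro j h0
    refine hc (Pi.single j 1) ?_ ?_
    · intro h1
      have h2 := congrFun h1 j
      rw [Pi.single_eq_same] at h2
      exact one_ne_zero h2
    · rw [Finset.sum_eq_single j]
      · rw [h0, zero_mul]
      · intro i _ hij
        rw [Pi.single_eq_of_ne hij, Int.cast_zero, mul_zero]
      · intro h1
        exact absurd (Finset.mem_univ j) h1
  have hG0 : G ≠ 0 := by
    rintro rfl
    have h1 := hd 0
    rw [map_zero, map_zero] at h1
    rcases mul_eq_zero.1 h1.symm with h2 | h2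
    · exact hμ h2
    · exact hcne 0 (by exact_mod_cast h2)
  have hR0 : R ≠ 0 := by
    rintro rfl
    exact hGR (dvd_zero _)
  have hFd : Fc d ≠ 0 := by
    rw [hL]
    exact mul_ne_zero (pow_ne_zero _ hG0) hR0
  have hβ00 : β 0 ≠ 0 := by
    intro h0
    have h1 : aeval (fun j => (β j : ℂ)) (X 0 : MvPolynomial (Fin (m + 1)) k) = 0 := by
      rw [aeval_X, h0, Complex.ofReal_zero]
    obtain ⟨q, hq⟩ := (hβ0 _).1 h1
    have h2 := congrArg (fun P => aeval (fun j => (β j : ℂ)) (pderiv 0 P)) hq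
    have h3 := congrArg (fun P => aeval (fun j => (β j : ℂ)) (pderiv (Fin.succ ⟨0, hm⟩) P)) hq
    simp only [pderiv_X_self, map_one, Derivation.leibniz, smul_eq_mul, map_add, map_mul, hGβ,
      zero_mul, zero_add] at h2
    rw [pderiv_X_of_ne (Fin.succ_ne_zero _).symm] at h3
    simp only [map_zero, Derivation.leibniz, smul_eq_mul, map_add, map_mul, hGβ,
      zero_mul, zero_add] at h3
    rcases mul_eq_zero.1 h3.symm with h4 | h4
    · rw [h4, zero_mul] at h2
      exact one_ne_zero h2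
    · rw [hd] at h4
      rcases mul_eq_zero.1 h4 with h5 | h5
      · exact hμ h5
      · exact hcne _ (by exact_mod_cast h5)
  have hρ₀ : ρ₀ ≠ 0 := mul_ne_zero Complex.I_ne_zero (by exact_mod_cast hβ00)
  have hRβ : aeval (fun j => Complex.I * (β j : ℂ)) R ≠ 0 :=
    ca_cofactor (hFc d) hG hG0 hL (fun j => (β j : ℂ)) fun h1 => hGR ((hβ0 R).1 h1)
  have hGI : aeval (fun j => Complex.I * (β j : ℂ)) G = 0 := by
    rw [ca_smul hG, hGβ, mul_zero]
  have hroot : aeval (Fin.cons ρ₀ α : Fin (m + 1) → ℂ) (Fc d) = 0 := by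
    rw [hcons, hL, map_mul, map_pow, hGI, zero_pow (by omega), zero_mul]
  -- a generic point over `α`
  obtain ⟨τ, hτ, hτ'⟩ := exists_aut k hk (fun j : Fin m => a j.succ) α (by
    intro f
    constructor
    · intro hf
      rw [algebraicIndependent_iff.1 ha f hf, map_zero]
    · intro hf
      rw [algebraicIndependent_iff.1 hβ f hf, map_zero])
  have hr0 : ∀ f : MvPolynomial (Fin (m + 1)) k,
      aeval (Fin.cons (τ (a 0)) α : Fin (m + 1) → ℂ) f = 0 ↔ F ∣ f := by
    intro f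
    have h1 : (Fin.cons (τ (a 0)) α : Fin (m + 1) → ℂ) = fun j => τ (a j) := by
      funext j
      refine Fin.cases ?_ (fun j => ?_) j
      · rw [Fin.cons_zero]
      · rw [Fin.cons_succ, hτ']
    rw [h1, ca_conj τ hτ, ← hF f]
    exact map_eq_zero_iff τ τ.injective
  obtain ⟨e, V, he, hV, hV0, hVF⟩ := chartW k α hβ F (τ (a 0)) hr0 d Fc hFc hFs hFd ρ₀ hρ₀ hroot
  -- the branch over the line
  set W : ℂ → ℂ := fun s => V (α, s) with hW
  have hWan : AnalyticAt ℂ W 0 := by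
    rw [Complex.analyticAt_iff_eventually_differentiableAt]
    have h1 : ContDiffAt ℂ 1 W 0 := by
      have h2 : ContDiffAt ℂ 1 (fun s : ℂ => ((α, s) : (Fin m → ℂ) × ℂ)) 0 :=
        contDiffAt_const.prodMk contDiffAt_id
      exact ContDiffAt.comp (0 : ℂ) hV h2
    have h3 := h1.eventually (by simp)
    exact h3.mono fun s hs => hs.differentiableAt (by simp)
  have hW0 : (W 0).re = 0 := by
    show (V (α, 0)).re = 0
    rw [hV0, hρ₀def]
    simp
  rcases dich e he W hWan hW0 with ⟨ε, ζ, hε, hζ, hgr⟩ | ⟨C₀, hC₀⟩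
  · -- growth
    have hζ0 : ζ ≠ 0 := by
      rintro rfl
      rw [zero_pow (by omega)] at hζ
      exact zero_ne_one hζ
    have he0 : (0 : ℝ) < e := by exact_mod_cast he
    refine concl_pt k hk a b hb F hF htd ha K hfg htr pl A B hA hB hρ0 hρ1 hrel α hβ
      (fun j => by simp [hα]) (ε / e) (div_pos hε he0) ?_ h hh
    apply Eventually.frequently
    -- `s = T ^ (-1 / e)`
    have hs0 : Tendsto (fun T : ℝ => T ^ (-(1 / (e : ℝ)))) atTop (𝓝[>] 0) := by
      rw [tendsto_nhdsWithin_iff]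
      refine ⟨tendsto_rpow_neg_atTop (by positivity), ?_⟩
      filter_upwards [eventually_gt_atTop 0] with T hT
      exact Real.rpow_pos_of_pos hT _
    have hchart : ∀ᶠ s : ℝ in 𝓝[>] 0, s ≠ 0 ∧
        aeval (Fin.cons ((((ζ * (s : ℂ)))⁻¹) ^ e * V (α, ζ * (s : ℂ)))
          (fun j => α j * ((ζ * (s : ℂ))⁻¹) ^ e) : Fin (m + 1) → ℂ) F = 0 := by
      have h1 : Tendsto (fun s : ℝ => ((α, ζ * (s : ℂ)) : (Fin m → ℂ) × ℂ)) (𝓝[>] 0)
          (𝓝 (α, 0)) := by
        have h2 : Continuous (fun s : ℝ => ((α, ζ * (s : ℂ)) : (Fin m → ℂ) × ℂ)) := by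
          fun_prop
        have h3 := h2.tendsto 0
        simp only [Complex.ofReal_zero, mul_zero] at h3
        exact h3.mono_left nhdsWithin_le_nhds
      filter_upwards [h1.eventually hVF, self_mem_nhdsWithin] with s hs hs'
      have hs0 : (s : ℂ) ≠ 0 := by
        exact_mod_cast (ne_of_gt hs')
      exact ⟨ne_of_gt hs', hs (mul_ne_zero hζ0 hs0)⟩
    filter_upwards [hs0.eventually hgr, hs0.eventually hchart, eventually_gt_atTop 0]
      with T h1 h2 hT
    obtain ⟨hs, h2⟩ := h2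
    set s : ℝ := T ^ (-(1 / (e : ℝ))) with hsdef
    have hsinv : s⁻¹ = T ^ (1 / (e : ℝ)) := by
      rw [hsdef, Real.rpow_neg hT.le, inv_inv]
    have hse : s⁻¹ ^ e = T := by
      rw [hsinv, ← Real.rpow_natCast, ← Real.rpow_mul hT.le, one_div_mul_cancel he0.ne',
        Real.rpow_one]
    have hseC : ((s : ℂ)⁻¹) ^ e = (T : ℂ) := by
      rw [← hse]
      push_cast
      rfl
    have hζs : ((ζ * (s : ℂ))⁻¹) ^ e = (T : ℂ) := by
      rw [mul_inv, mul_pow, inv_pow, hζ, inv_one, one_mul, hseC]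
    refine ⟨(T : ℂ) * W (ζ * s), ?_, ?_⟩
    · rw [hζs] at h2
      rw [← h2]
      congr 2
      funext j
      refine Fin.cases ?_ (fun j => ?_) j
      · rw [Fin.cons_zero, Fin.cons_zero]
      · rw [Fin.cons_succ, Fin.cons_succ, mul_comm]
    · rw [hseC] at h1
      have h3 : ‖(T : ℂ) * W (ζ * s)‖ / T = ‖W (ζ * s)‖ := by
        rw [norm_mul, Complex.norm_real, Real.norm_of_nonneg hT.le, mul_div_cancel_left₀ _ hT.ne']
      have h4 : s⁻¹ ^ ε = T ^ (ε / e) := by
        rw [hsinv, ← Real.rpow_mul hT.le]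
        congr 1
        ring
      rw [h3, ← h4]
      exact h1
  · -- bounded
    have hD : ∀ j : Fin m, (c 0 : ℂ) * fderiv ℂ V (α, 0) (Pi.single j 1, 0) =
        -(c j.succ : ℂ) := by
      intro j
      have h1 := grad_V k α F d Fc hFc hFs G R a0 hL e he V hV hVF (by
        rw [hV0, hcons]
        exact hRβ) j
      rw [hV0, hcons] at h1
      have h2 : ∀ i, aeval (fun j => Complex.I * (β j : ℂ)) (pderiv i G) =
          Complex.I ^ (r - 1) * (μ * (c i : ℂ)) := by
        intro i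
        rw [ca_smul (hG.pderiv (i := i)), hd]
      rw [h2, h2] at h1
      have h3 : Complex.I ^ (r - 1) * μ ≠ 0 := mul_ne_zero (pow_ne_zero _ Complex.I_ne_zero) hμ
      have h4 : (Complex.I ^ (r - 1) * μ) *
          ((c 0 : ℂ) * fderiv ℂ V (α, 0) (Pi.single j 1, 0) + (c j.succ : ℂ)) = 0 := by
        linear_combination h1
      rcases mul_eq_zero.1 h4 with h5 | h5
      · exact absurd h5 h3
      · linear_combination h5
    obtain ⟨N, hN, hNF⟩ := exists_disc k F hF0 a hF ha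
    obtain ⟨rr, hr1, hr2, hr3, hr4⟩ := root_W k F α hβ e he V hV hVF c hD N hN hNF
    have haF : aeval a F = 0 := (hF F).2 dvd_rfl
    obtain ⟨x, hx1, hx2⟩ := coreW k hk hm a b hb F haF htd (by
      intro x hx hxF
      exact fibre_tuple k a b hb htd hta x fun f =>
        (gen_zero k F hF0 a hF ha x hx hxF f).trans (hF f).symm) (fun j => β j.succ) hβ c hc rr
      hr1 hr2 hr3 C₀ (hr4 C₀ hC₀) h hh
    exact ⟨x, fun j => Complex.exp (x j), fun j => rfl, hx1, hx2⟩

end Pool.Agent.EXW
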