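import Mathlib

/-!
# EXW / ConclAg: lemmas for the growth half of ConclA
-/

set_option autoImplicit false

namespace Pool.Agent.EXW

open MvPolynomial Topology Filter

/-- The first alternative of `dich` gives the growth hypothesis of `concl_pt`. -/
theorem grow_of_dich (k : Subfield ℂ) {m : ℕ} (F : MvPolynomial (Fin (m + 1)) k) (α : Fin m → ℂ)
    (e : ℕ) (he : 1 ≤ e) (V : (Fin m → ℂ) × ℂ → ℂ)
    (hVF : ∀ᶠ p : (Fin m → ℂ) × ℂ in 𝓝 (α, 0), p.2 ≠ 0 →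
      aeval (Fin.cons ((p.2⁻¹) ^ e * V p) (fun j => p.1 j * (p.2⁻¹) ^ e) :
        Fin (m + 1) → ℂ) F = 0)
    (ε : ℝ) (ζ : ℂ) (hζ : ζ ^ e = 1)
    (hgr : ∀ᶠ s : ℝ in 𝓝[>] 0, (((s : ℂ)⁻¹) ^ e * V (α, ζ * s)).re ≤
      -(s⁻¹) ^ ε * (1 + ‖V (α, ζ * s)‖)) :
    ∃ᶠ T : ℝ in atTop, ∃ x : ℂ,
      aeval (Fin.cons x (fun j : Fin m => (T : ℂ) * α j) : Fin (m + 1) → ℂ) F = 0 ∧
        x.re ≤ -T ^ (ε / e) * (1 + ‖x‖ / T) := by
  have he0 : (e : ℝ) ≠ 0 := by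
    have : e ≠ 0 := by omega
    exact_mod_cast this
  have hepos : (0 : ℝ) < e := by
    have : 0 < e := by omega
    exact_mod_cast this
  have hζ0 : ζ ≠ 0 := by
    rintro rfl
    rw [zero_pow (by omega)] at hζ
    exact zero_ne_one hζ
  -- `s = T ^ (-1 / e)`
  have hs0 : Tendsto (fun T : ℝ => T ^ (-(1 / (e : ℝ)))) atTop (𝓝 0) :=
    tendsto_rpow_neg_atTop (by positivity)
  have hs : Tendsto (fun T : ℝ => T ^ (-(1 / (e : ℝ)))) atTop (𝓝[>] 0) := by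
    rw [tendsto_nhdsWithin_iff]
    refine ⟨hs0, ?_⟩
    filter_upwards [eventually_gt_atTop (0 : ℝ)] with T hT
    exact Real.rpow_pos_of_pos hT _
  have hp : Tendsto (fun T : ℝ => ((α, ζ * ((T ^ (-(1 / (e : ℝ))) : ℝ) : ℂ)) :
      (Fin m → ℂ) × ℂ)) atTop (𝓝 (α, 0)) := by
    refine Tendsto.prodMk_nhds tendsto_const_nhds ?_
    have h1 : Tendsto (fun T : ℝ => ((T ^ (-(1 / (e : ℝ))) : ℝ) : ℂ)) atTop (𝓝 0) := by
      have h0 := (Complex.continuous_ofReal.tendsto 0).comp hs0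
      rw [Complex.ofReal_zero] at h0
      exact h0
    simpa using h1.const_mul ζ
  refine Eventually.frequently ?_
  filter_upwards [hs.eventually hgr, hp.eventually hVF, eventually_gt_atTop (0 : ℝ)] with T h1 h2 hT
  set s : ℝ := T ^ (-(1 / (e : ℝ))) with hsdef
  have hspos : 0 < s := Real.rpow_pos_of_pos hT _
  have hsC : (s : ℂ) ≠ 0 := by exact_mod_cast hspos.ne'
  have hsinv : s⁻¹ = T ^ (1 / (e : ℝ)) := by
    rw [hsdef, Real.rpow_neg hT.le, inv_inv]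
  have hse : (s⁻¹) ^ e = T := by
    rw [hsinv, ← Real.rpow_natCast, ← Real.rpow_mul hT.le, one_div, inv_mul_cancel₀ he0,
      Real.rpow_one]
  have hseC : ((s : ℂ)⁻¹) ^ e = (T : ℂ) := by
    rw [← Complex.ofReal_inv, ← Complex.ofReal_pow, hse]
  have hζs : ((ζ * (s : ℂ))⁻¹) ^ e = (T : ℂ) := by
    rw [mul_inv, mul_pow, hseC, inv_pow, hζ, inv_one, one_mul]
  have h3 := h2 (mul_ne_zero hζ0 hsC)
  simp only [hζs] at h3
  refine ⟨(T : ℂ) * V (α, ζ * s), ?_, ?_⟩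
  · have e1 : (fun j : Fin m => α j * (T : ℂ)) = fun j : Fin m => (T : ℂ) * α j := by
      funext j
      ring
    rw [e1] at h3
    exact h3
  · rw [hseC] at h1
    refine h1.trans (le_of_eq ?_)
    have e2 : ‖(T : ℂ) * V (α, ζ * s)‖ / T = ‖V (α, ζ * s)‖ := by
      rw [norm_mul, Complex.norm_real, Real.norm_eq_abs, abs_of_pos hT]
      field_simp
    rw [e2, hsinv, ← Real.rpow_mul hT.le, one_div_mul_eq_div]

theorem analytic_W {m : ℕ} (α : Fin m → ℂ) (V : (Fin m → ℂ) × ℂ → ℂ)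
    (hV : ContDiffAt ℂ 1 V (α, 0)) : AnalyticAt ℂ (fun s : ℂ => V (α, s)) 0 := by
  have h1 : ContDiffAt ℂ 1 (fun s : ℂ => V (α, s)) 0 := by
    have h2 : ContDiffAt ℂ 1 (fun s : ℂ => ((α, s) : (Fin m → ℂ) × ℂ)) 0 :=
      contDiffAt_const.prodMk contDiffAt_id
    exact ContDiffAt.comp (0 : ℂ) hV h2
  rw [Complex.analyticAt_iff_eventually_differentiableAt]
  have h3 := h1.eventually (by simp)
  filter_upwards [h3] with z hz
  exact hz.differentiableAt (by simp)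

theorem beta0_ne (k : Subfield ℂ) {m : ℕ} (hm : 1 ≤ m) (G : MvPolynomial (Fin (m + 1)) k)
    (β : Fin (m + 1) → ℝ)
    (hβ0 : ∀ f : MvPolynomial (Fin (m + 1)) k, aeval (fun j => (β j : ℂ)) f = 0 ↔ G ∣ f)
    (c : Fin (m + 1) → ℝ) (hc : ∀ v : Fin (m + 1) → ℤ, v ≠ 0 → ∑ j, c j * v j ≠ 0)
    (μ : ℂ) (hμ : μ ≠ 0)
    (hd : ∀ j, aeval (fun j => (β j : ℂ)) (pderiv j G) = μ * (c j : ℂ)) : β 0 ≠ 0 := by
  intro h0
  have hG : aeval (fun j => (β j : ℂ)) G = 0 := (hβ0 G).2 dvd_rfl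
  obtain ⟨q, hq⟩ := (hβ0 (X 0)).1 (by rw [aeval_X, h0, Complex.ofReal_zero])
  set j : Fin (m + 1) := Fin.succ ⟨0, hm⟩ with hj
  have hj0 : (0 : Fin (m + 1)) ≠ j := (Fin.succ_ne_zero _).symm
  have hcj : c j ≠ 0 := by
    have h1 := hc (Pi.single j 1) (by
      intro h
      have := congrFun h j
      simp at this)
    have h2 : ∑ i, c i * ((Pi.single j 1 : Fin (m + 1) → ℤ) i : ℝ) = c j := by
      rw [Finset.sum_eq_single j]
      · simp
      · intro b _ hb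
        simp [Pi.single_eq_of_ne hb]
      · intro h
        exact absurd (Finset.mem_univ j) h
    rwa [h2] at h1
  have h1 : pderiv j (X 0 : MvPolynomial (Fin (m + 1)) k) = 0 := pderiv_X_of_ne hj0
  have h2 := congrArg (aeval (fun j => (β j : ℂ))) h1
  rw [hq, pderiv_mul, map_add, map_mul, map_mul, map_zero, hd, hG, zero_mul, add_zero] at h2
  have h3 : aeval (fun j => (β j : ℂ)) q = 0 := by
    rcases mul_eq_zero.1 h2 with h | h
    · exact absurd h (mul_ne_zero hμ (by exact_mod_cast hcj))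
    · exact h
  have h4 : pderiv 0 (X 0 : MvPolynomial (Fin (m + 1)) k) = 1 := pderiv_X_self 0
  have h5 := congrArg (aeval (fun j => (β j : ℂ))) h4
  rw [hq, pderiv_mul, map_add, map_mul, map_mul, map_one, h3, hG, mul_zero, zero_mul,
    add_zero] at h5
  exact zero_ne_one h5

end Pool.Agent.EXW
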