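import Mathlib

/-!
# EXW / ConclG: two lemmas for ConclA

* `slice_analytic`: a function which is `C^1` over `ℂ` near a point is analytic on complex lines.
* `growth_T`: the growth of a conjugate branch at the points `T α`, `T = s^(-e)`.
-/

set_option autoImplicit false

namespace Pool.Agent.EXW

open MvPolynomial Topology Filter

theorem slice_analytic {m : ℕ} (α : Fin m → ℂ) (V : (Fin m → ℂ) × ℂ → ℂ)
    (hV : ContDiffAt ℂ 1 V (α, 0)) : AnalyticAt ℂ (fun s : ℂ => V (α, s)) 0 := by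
  have h1 : ContDiffAt ℂ 1 (fun s : ℂ => V (α, s)) 0 := by
    have h2 : ContDiffAt ℂ 1 (fun s : ℂ => ((α, s) : (Fin m → ℂ) × ℂ)) 0 :=
      contDiffAt_const.prodMk contDiffAt_id
    exact hV.comp (0 : ℂ) h2
  have h3 : ∀ᶠ s : ℂ in 𝓝 0, ContDiffAt ℂ 1 (fun s : ℂ => V (α, s)) s :=
    h1.eventually (by simp)
  rw [Complex.analyticAt_iff_eventually_differentiableAt]
  exact h3.mono fun s hs => hs.differentiableAt (by simp)

theorem growth_T (k : Subfield ℂ) {m : ℕ} (F : MvPolynomial (Fin (m + 1)) k) (α : Fin m → ℂ)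
    (e : ℕ) (he : 1 ≤ e) (V : (Fin m → ℂ) × ℂ → ℂ)
    (hVF : ∀ᶠ p : (Fin m → ℂ) × ℂ in 𝓝 (α, 0), p.2 ≠ 0 →
      aeval (Fin.cons ((p.2⁻¹) ^ e * V p) (fun j => p.1 j * (p.2⁻¹) ^ e) :
        Fin (m + 1) → ℂ) F = 0)
    (ε : ℝ) (ζ : ℂ) (hε : 0 < ε) (hζ : ζ ^ e = 1)
    (hg : ∀ᶠ s : ℝ in 𝓝[>] 0, (((s : ℂ)⁻¹) ^ e * V (α, ζ * s)).re ≤
      -(s⁻¹) ^ ε * (1 + ‖V (α, ζ * s)‖)) :
    ∃ ε' : ℝ, 0 < ε' ∧ ∃ᶠ T : ℝ in Filter.atTop, ∃ x : ℂ,
      aeval (Fin.cons x (fun j : Fin m => (T : ℂ) * α j) : Fin (m + 1) → ℂ) F = 0 ∧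
        x.re ≤ -T ^ ε' * (1 + ‖x‖ / T) := by
  have he0 : (0 : ℝ) < e := by exact_mod_cast he
  have hζ0 : ζ ≠ 0 := by
    rintro rfl
    rw [zero_pow (by omega)] at hζ
    exact zero_ne_one hζ
  have hζn : ‖ζ‖ = 1 := by
    have h1 : ‖ζ‖ ^ e = 1 := by rw [← norm_pow, hζ, norm_one]
    exact (pow_eq_one_iff_of_nonneg (norm_nonneg _) (by omega)).1 h1
  refine ⟨ε / e, div_pos hε he0, ?_⟩
  -- the points `(α, ζ s)`, `s = T ^ (-1/e)`
  have hs : Tendsto (fun T : ℝ => T ^ (-(1 / (e : ℝ)))) atTop (𝓝[>] 0) := by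
    rw [tendsto_nhdsWithin_iff]
    refine ⟨tendsto_rpow_neg_atTop (by positivity), ?_⟩
    filter_upwards [eventually_gt_atTop 0] with T hT
    exact Real.rpow_pos_of_pos hT _
  have hp : Tendsto (fun s : ℝ => ((α, ζ * (s : ℂ)) : (Fin m → ℂ) × ℂ)) (𝓝[>] 0) (𝓝 (α, 0)) := by
    have h1 : Continuous (fun s : ℝ => ((α, ζ * (s : ℂ)) : (Fin m → ℂ) × ℂ)) := by fun_prop
    have h2 := h1.tendsto 0
    simp only [Complex.ofReal_zero, mul_zero] at h2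
    exact h2.mono_left nhdsWithin_le_nhds
  have h3 := hs.eventually (hg.and (hp.eventually hVF))
  have h4 : ∀ᶠ T : ℝ in atTop, ∃ x : ℂ,
      aeval (Fin.cons x (fun j : Fin m => (T : ℂ) * α j) : Fin (m + 1) → ℂ) F = 0 ∧
        x.re ≤ -T ^ (ε / e) * (1 + ‖x‖ / T) := by
    filter_upwards [h3, eventually_gt_atTop 0] with T hT hT0
    obtain ⟨h5, h6⟩ := hT
    set s : ℝ := T ^ (-(1 / (e : ℝ))) with hsdef
    have hs0 : 0 < s := Real.rpow_pos_of_pos hT0 _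
    have hsinv : s⁻¹ = T ^ (1 / (e : ℝ)) := by rw [hsdef, Real.rpow_neg hT0.le, inv_inv]
    have hse : (s⁻¹) ^ e = T := by
      rw [hsinv, ← Real.rpow_natCast, ← Real.rpow_mul hT0.le, one_div, inv_mul_cancel₀ he0.ne',
        Real.rpow_one]
    have hseC : ((s : ℂ)⁻¹) ^ e = (T : ℂ) := by
      rw [← Complex.ofReal_inv, ← Complex.ofReal_pow, hse]
    have hze : ((ζ * (s : ℂ))⁻¹) ^ e = (T : ℂ) := by
      rw [mul_inv, mul_pow, inv_pow, hζ, inv_one, one_mul, hseC]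
    have h7 := h6 (mul_ne_zero hζ0 (by exact_mod_cast hs0.ne'))
    rw [hze] at h7
    rw [hseC] at h5
    refine ⟨(T : ℂ) * V (α, ζ * s), ?_, ?_⟩
    · have e1 : (fun j : Fin m => (T : ℂ) * α j) = fun j => α j * (T : ℂ) :=
        funext fun j => mul_comm _ _
      rw [e1]
      exact h7
    · have e2 : ‖(T : ℂ) * V (α, ζ * s)‖ / T = ‖V (α, ζ * s)‖ := by
        rw [norm_mul, Complex.norm_real, Real.norm_eq_abs, abs_of_pos hT0, mul_comm,
          mul_div_cancel_right₀ _ hT0.ne']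
      have e3 : T ^ (ε / e) = (s⁻¹) ^ ε := by
        rw [hsinv, ← Real.rpow_mul hT0.le]
        congr 1
        field_simp
      rw [e2, e3]
      exact h5
  exact h4.frequently

end Pool.Agent.EXW
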