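import Pool.Agent.EXK.KLin

/-!
# EXW / ConclS: integral substitutions preserve the hypotheses on `G` (helper30)
-/

set_option autoImplicit false

namespace Pool.Agent.EXW

open MvPolynomial Pool.Agent.EXL Pool.Agent.EXI Pool.Agent.EXK

variable {n : ℕ}

/-- `f(U⁻¹ X)` over any ring. -/
private noncomputable def gsub (A : Type) [CommRing A] (U : Matrix (Fin n) (Fin n) ℤ) :
    MvPolynomial (Fin n) A →ₐ[A] MvPolynomial (Fin n) A :=
  aeval fun i => ∑ j, C ((U⁻¹ i j : ℤ) : A) * X j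

private lemma gsub_X (A : Type) [CommRing A] (U : Matrix (Fin n) (Fin n) ℤ) (i : Fin n) :
    gsub A U (X i) = ∑ j, C ((U⁻¹ i j : ℤ) : A) * X j := by
  unfold gsub
  rw [aeval_X]

private lemma gsub_C (A : Type) [CommRing A] (U : Matrix (Fin n) (Fin n) ℤ) (c : A) :
    gsub A U (C c) = C c := by
  unfold gsub
  rw [aeval_C, algebraMap_eq]

private lemma gsub_sub (k : Subfield ℂ) (U : Matrix (Fin n) (Fin n) ℤ) (f : MvPolynomial (Fin n) k) :
    sub U f = gsub k U f := rfl

private lemma gsub_map {A B : Type} [CommRing A] [CommRing B] (φ : A →+* B)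
    (U : Matrix (Fin n) (Fin n) ℤ) (f : MvPolynomial (Fin n) A) :
    map φ (gsub A U f) = gsub B U (map φ f) := by
  induction f using MvPolynomial.induction_on with
  | C c => rw [gsub_C, map_C, gsub_C]
  | add p q hp hq => rw [map_add, map_add, map_add, map_add, hp, hq]
  | mul_X p i hp =>
    rw [map_mul, map_mul, map_mul, map_mul, hp, gsub_X, map_X, gsub_X, map_sum]
    congr 1
    refine Finset.sum_congr rfl fun j _ => ?_
    rw [map_mul, map_C, map_X, map_intCast]

private lemma gsub_gsub (A : Type) [CommRing A] (U V : Matrix (Fin n) (Fin n) ℤ)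
    (h : V⁻¹ * U⁻¹ = 1) (f : MvPolynomial (Fin n) A) : gsub A U (gsub A V f) = f := by
  have h1 : (gsub A U).comp (gsub A V) = AlgHom.id A _ := by
    apply MvPolynomial.algHom_ext
    intro i
    rw [AlgHom.comp_apply, gsub_X, map_sum, AlgHom.id_apply]
    have h2 : ∀ j, (gsub A U) (C ((V⁻¹ i j : ℤ) : A) * X j) =
        ∑ l, C (((V⁻¹ i j * U⁻¹ j l : ℤ)) : A) * X l := by
      intro j
      rw [map_mul, gsub_X, gsub_C, Finset.mul_sum]
      refine Finset.sum_congr rfl fun l _ => ?_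
      rw [← mul_assoc, ← C_mul]
      congr 2
      push_cast
      rfl
    rw [Finset.sum_congr rfl fun j _ => h2 j, Finset.sum_comm]
    have h3 : ∀ l, (∑ j, C (((V⁻¹ i j * U⁻¹ j l : ℤ)) : A) * X l : MvPolynomial (Fin n) A) =
        C (((1 : Matrix (Fin n) (Fin n) ℤ) i l : ℤ) : A) * X l := by
      intro l
      rw [← Finset.sum_mul, ← map_sum, ← h, Matrix.mul_apply]
      congr 2
      push_cast
      rfl
    rw [Finset.sum_congr rfl fun l _ => h3 l, Finset.sum_eq_single i]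
    · simp
    · intro l _ hl
      rw [Matrix.one_apply_ne hl.symm]
      simp
    · intro h
      exact absurd (Finset.mem_univ i) h
  exact DFunLike.congr_fun h1 f

private lemma gsub_inv1 (A : Type) [CommRing A] (U : Matrix (Fin n) (Fin n) ℤ) (hU : IsUnit U.det)
    (f : MvPolynomial (Fin n) A) : gsub A U (gsub A U⁻¹ f) = f :=
  gsub_gsub A U U⁻¹ (by rw [Matrix.nonsing_inv_nonsing_inv U hU, Matrix.mul_nonsing_inv _ hU]) f

private lemma gsub_inv2 (A : Type) [CommRing A] (U : Matrix (Fin n) (Fin n) ℤ) (hU : IsUnit U.det)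
    (f : MvPolynomial (Fin n) A) : gsub A U⁻¹ (gsub A U f) = f :=
  gsub_gsub A U⁻¹ U (by rw [Matrix.nonsing_inv_nonsing_inv U hU, Matrix.nonsing_inv_mul _ hU]) f

private lemma gsub_dvd (A : Type) [CommRing A] (U : Matrix (Fin n) (Fin n) ℤ) (hU : IsUnit U.det)
    (f g : MvPolynomial (Fin n) A) : gsub A U f ∣ gsub A U g ↔ f ∣ g := by
  constructor
  · intro h
    have := map_dvd (gsub A U⁻¹) h
    rwa [gsub_inv2 A U hU, gsub_inv2 A U hU] at this
  · exact fun h => map_dvd (gsub A U) h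

private lemma gsub_eval (U : Matrix (Fin n) (Fin n) ℤ) (x : Fin n → ℂ) (f : MvPolynomial (Fin n) ℂ) :
    eval x (gsub ℂ U f) = eval (linZ U⁻¹ x) f := by
  induction f using MvPolynomial.induction_on with
  | C c => rw [gsub_C, eval_C, eval_C]
  | add p q hp hq => rw [map_add, map_add, map_add, hp, hq]
  | mul_X p i hp =>
    rw [map_mul, map_mul, map_mul, hp, gsub_X, eval_X, map_sum]
    congr 1
    unfold linZ
    refine Finset.sum_congr rfl fun j _ => ?_
    rw [map_mul, eval_C, eval_X]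

private lemma cs_linZ (U V : Matrix (Fin n) (Fin n) ℤ) (a : Fin n → ℂ) :
    linZ V (linZ U a) = linZ (V * U) a := by
  funext j
  unfold linZ
  simp only [Matrix.mul_apply, Finset.mul_sum, Int.cast_sum, Int.cast_mul, Finset.sum_mul]
  rw [Finset.sum_comm]
  refine Finset.sum_congr rfl fun i _ => Finset.sum_congr rfl fun l _ => ?_
  ring

private lemma cs_linZ_one (a : Fin n → ℂ) : linZ (1 : Matrix (Fin n) (Fin n) ℤ) a = a := by
  funext j
  unfold linZ
  rw [Finset.sum_eq_single j]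
  · simp
  · intro i _ hi
    rw [Matrix.one_apply_ne hi.symm]
    simp
  · intro h
    exact absurd (Finset.mem_univ j) h

theorem sub_dvd (k : Subfield ℂ) (U : Matrix (Fin n) (Fin n) ℤ) (hU : IsUnit U.det)
    (f g : MvPolynomial (Fin n) k) : sub U f ∣ sub U g ↔ f ∣ g := by
  rw [gsub_sub, gsub_sub]
  exact gsub_dvd k U hU f g

theorem sub_inj (k : Subfield ℂ) (U : Matrix (Fin n) (Fin n) ℤ) (hU : IsUnit U.det) :
    Function.Injective (sub U : MvPolynomial (Fin n) k → MvPolynomial (Fin n) k) := by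
  intro f g h
  rw [gsub_sub, gsub_sub] at h
  have := congrArg (gsub k U⁻¹) h
  rwa [gsub_inv2 k U hU, gsub_inv2 k U hU] at this

theorem sub_ne_zero (k : Subfield ℂ) (U : Matrix (Fin n) (Fin n) ℤ) (hU : IsUnit U.det)
    (f : MvPolynomial (Fin n) k) (hf : f ≠ 0) : sub U f ≠ 0 := by
  intro h
  apply hf
  apply sub_inj k U hU
  rw [h, map_zero]

theorem sub_irr (k : Subfield ℂ) (U : Matrix (Fin n) (Fin n) ℤ) (hU : IsUnit U.det)
    (G : MvPolynomial (Fin n) k) (h : Irreducible (map (algebraMap k ℂ) G)) :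
    Irreducible (map (algebraMap k ℂ) (sub U G)) := by
  rw [gsub_sub, gsub_map]
  let e : MvPolynomial (Fin n) ℂ ≃* MvPolynomial (Fin n) ℂ :=
    { toFun := gsub ℂ U
      invFun := gsub ℂ U⁻¹
      left_inv := gsub_inv2 ℂ U hU
      right_inv := gsub_inv1 ℂ U hU
      map_mul' := map_mul (gsub ℂ U) }
  exact (MulEquiv.irreducible_iff e).2 h

theorem sub_per (k : Subfield ℂ) (U : Matrix (Fin n) (Fin n) ℤ) (hU : IsUnit U.det)
    (G : MvPolynomial (Fin n) k)
    (h : ∀ v : Fin n → ℤ, v ≠ 0 → ∃ x : Fin n → ℂ,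
      eval (fun j => x j + v j) (map (algebraMap k ℂ) G) ≠ eval x (map (algebraMap k ℂ) G))
    (v : Fin n → ℤ) (hv : v ≠ 0) : ∃ x : Fin n → ℂ,
      eval (fun j => x j + v j) (map (algebraMap k ℂ) (sub U G)) ≠
        eval x (map (algebraMap k ℂ) (sub U G)) := by
  have hv' : U⁻¹.mulVec v ≠ 0 := by
    intro h0
    apply hv
    have h1 : U.mulVec (U⁻¹.mulVec v) = v := by
      rw [Matrix.mulVec_mulVec, Matrix.mul_nonsing_inv _ hU, Matrix.one_mulVec]
    rw [← h1, h0, Matrix.mulVec_zero]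
  obtain ⟨y, hy⟩ := h _ hv'
  refine ⟨linZ U y, ?_⟩
  rw [gsub_sub, gsub_map, gsub_eval, gsub_eval]
  have h1 : linZ U⁻¹ (linZ U y) = y := by
    rw [cs_linZ, Matrix.nonsing_inv_mul _ hU, cs_linZ_one]
  have h2 : linZ U⁻¹ (fun j => linZ U y j + (v j : ℂ)) = fun j => y j + ((U⁻¹.mulVec v) j : ℤ) := by
    funext j
    have h3 : linZ U⁻¹ (fun j => linZ U y j + (v j : ℂ)) j = linZ U⁻¹ (linZ U y) j +
        ((U⁻¹.mulVec v) j : ℤ) := by
      unfold linZ Matrix.mulVec dotProduct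
      push_cast
      rw [← Finset.sum_add_distrib]
      refine Finset.sum_congr rfl fun i _ => ?_
      ring
    rw [h3, h1]
  rw [h1, h2]
  exact hy

theorem sub_conj (k : Subfield ℂ) (U : Matrix (Fin n) (Fin n) ℤ) (hU : IsUnit U.det)
    (G : MvPolynomial (Fin n) k)
    (h : map (algebraMap k ℂ) G ∣ map (starRingEnd ℂ) (map (algebraMap k ℂ) G)) :
    map (algebraMap k ℂ) (sub U G) ∣ map (starRingEnd ℂ) (map (algebraMap k ℂ) (sub U G)) := by
  rw [gsub_sub, gsub_map, gsub_map, gsub_dvd ℂ U hU]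
  exact h

/-- evaluation at an integral image -/
theorem sub_iff (k : Subfield ℂ) (U : Matrix (Fin n) (Fin n) ℤ) (hU : IsUnit U.det)
    (β₀ β : Fin n → ℝ) (hβ : ∀ j, β j = ∑ i, (U j i : ℝ) * β₀ i) (G : MvPolynomial (Fin n) k)
    (hG : ∀ f : MvPolynomial (Fin n) k, aeval (fun j => (β₀ j : ℂ)) f = 0 ↔ G ∣ f)
    (f : MvPolynomial (Fin n) k) : aeval (fun j => (β j : ℂ)) f = 0 ↔ sub U G ∣ f := by
  have h := ker_sub U hU (fun j => (β₀ j : ℂ)) G hG f
  rw [← h]
  have e : (fun j => (β j : ℂ)) = linZ U (fun j => (β₀ j : ℂ)) := by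
    funext j
    unfold linZ
    rw [hβ j]
    push_cast
    rfl
  rw [e]

end Pool.Agent.EXW
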