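import Pool.Agent.EXW.ConclA
import Pool.Agent.EXK2.Concl
import Pool.Agent.EXK.KPl
import Pool.Agent.EXK.KKer
import Pool.Agent.EXK2.Nhg
import Pool.Agent.EXG.Rz
import Pool.Agent.EXG.Rd

/-!
# EXW / ConclT: the theorem for a tuple

PROOF.  `exists_pl`: place with order vector `v ≠ 0`. If `Growth (map F) v`: `EXK2.concl_codim2`. Otherwise `¬ NonHypC (map (Fc d)) v`
(`growth_of_nonhyp`; `map (Fc d)` is the homogeneous component of top degree of `map F`, as `Fc d ≠ 0`), `nf_of_pl`: `U, A', B'`. New tuple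
`a1 = linZ U a`, `b1 = powZ U b`, `F1 = sub U F`, `Fc1 i = sub U (Fc i)`, `G1 = sub U G`, `R1 = sub U R` (`sub U` is an algebra automorphism;
`sub_hom`, `ker_sub`, `aeval_sub`). `exists_real_zero` (EXG/Rz) for `G`, `G^(a0-1) R`, `v`: `β0`, `f(β0) = 0 ↔ G ∣ f`; `β = U β0` (real), so
`f(β) = 0 ↔ G1 ∣ f`. `grad` (EXG/Rd) for `G1`, `R := 1`, `β` (`G1` irreducible over `ℂ`, no integer period, `G1 ∣ conj G1`: substitution):
`c, μ`, independence. `a1 ∘ succ` is independent because `Fc1 d`, so `F1`, contains `X 0` (`c_0 ≠ 0`). `concl_A` with `K` = the field generated by `(a, b)` (`hfg`: `fg_adjoin`,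
`htr`: `td_not_ind`, as in `concl_codim2`) and the tuple `(a1, b1)`, then `EXJ.concl_uni (1 : AddChar ℤ ℂ)`.
-/

set_option autoImplicit false

namespace Pool.Agent.EXW

open MvPolynomial Pool.Agent.EXL Pool.Agent.EXI Pool.Agent.EXK Pool.Agent.EXG

private lemma linZ_comp {n : ℕ} (U V : Matrix (Fin n) (Fin n) ℤ) (a : Fin n → ℂ) :
    linZ V (linZ U a) = linZ (V * U) a := by
  funext j
  unfold linZ
  simp only [Matrix.mul_apply, Finset.mul_sum, Int.cast_sum, Int.cast_mul, Finset.sum_mul]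
  rw [Finset.sum_comm]
  refine Finset.sum_congr rfl fun i _ => Finset.sum_congr rfl fun l _ => ?_
  ring

private lemma linZ_one {n : ℕ} (a : Fin n → ℂ) : linZ (1 : Matrix (Fin n) (Fin n) ℤ) a = a := by
  funext j
  unfold linZ
  rw [Finset.sum_eq_single j]
  · simp
  · intro i _ hi
    rw [Matrix.one_apply_ne hi.symm]
    simp
  · intro h
    exact absurd (Finset.mem_univ j) h

private lemma linZ_inv1 {n : ℕ} (U : Matrix (Fin n) (Fin n) ℤ) (hU : IsUnit U.det)
    (a : Fin n → ℂ) : linZ U⁻¹ (linZ U a) = a := by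
  rw [linZ_comp, Matrix.nonsing_inv_mul _ hU, linZ_one]

private lemma linZ_inv2 {n : ℕ} (U : Matrix (Fin n) (Fin n) ℤ) (hU : IsUnit U.det)
    (a : Fin n → ℂ) : linZ U (linZ U⁻¹ a) = a := by
  rw [linZ_comp, Matrix.mul_nonsing_inv _ hU, linZ_one]

private lemma ev_map {k : Subfield ℂ} {ι : Type} (x : ι → ℂ)
    (F : MvPolynomial ι k) : eval x (map (algebraMap k ℂ) F) = aeval x F := by
  rw [eval_map, aeval_def]

private noncomputable def subC {n : ℕ} (U : Matrix (Fin n) (Fin n) ℤ) :
    MvPolynomial (Fin n) ℂ →ₐ[ℂ] MvPolynomial (Fin n) ℂ :=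
  aeval fun i => ∑ j, C ((U i j : ℤ) : ℂ) * X j

private lemma eval_subC {n : ℕ} (U : Matrix (Fin n) (Fin n) ℤ) (x : Fin n → ℂ)
    (f : MvPolynomial (Fin n) ℂ) : eval x (subC U f) = eval (linZ U x) f := by
  have h : (aeval x : MvPolynomial (Fin n) ℂ →ₐ[ℂ] ℂ).comp (subC U) = aeval (linZ U x) := by
    apply MvPolynomial.algHom_ext
    intro i
    rw [AlgHom.comp_apply, subC, aeval_X, map_sum, aeval_X]
    unfold linZ
    refine Finset.sum_congr rfl fun j _ => ?_
    rw [map_mul, aeval_X, aeval_C]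
    rfl
  have h1 := DFunLike.congr_fun h f
  rw [AlgHom.comp_apply] at h1
  simpa [MvPolynomial.coe_aeval_eq_eval] using h1

private lemma subC_subC {n : ℕ} (U V : Matrix (Fin n) (Fin n) ℤ) (h : V * U = 1)
    (f : MvPolynomial (Fin n) ℂ) : subC U (subC V f) = f := by
  apply MvPolynomial.funext
  intro x
  rw [eval_subC, eval_subC, linZ_comp, h, linZ_one]

private lemma map_sub' {k : Subfield ℂ} {n : ℕ} (U : Matrix (Fin n) (Fin n) ℤ) (hU : IsUnit U.det)
    (G : MvPolynomial (Fin n) k) :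
    map (algebraMap k ℂ) (sub U G) = subC U⁻¹ (map (algebraMap k ℂ) G) := by
  apply MvPolynomial.funext
  intro x
  rw [eval_subC, ev_map, ev_map]
  conv_lhs => rw [← linZ_inv2 U hU x]
  exact aeval_sub U hU _ G

private lemma irr_subC {n : ℕ} (U : Matrix (Fin n) (Fin n) ℤ) (hU : IsUnit U.det)
    (g : MvPolynomial (Fin n) ℂ) (hg : Irreducible g) : Irreducible (subC U⁻¹ g) := by
  let E : MvPolynomial (Fin n) ℂ ≃ₐ[ℂ] MvPolynomial (Fin n) ℂ :=
    AlgEquiv.ofAlgHom (subC U⁻¹) (subC U)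
      (by
        apply AlgHom.ext
        intro f
        exact subC_subC U⁻¹ U (Matrix.mul_nonsing_inv _ hU) f)
      (by
        apply AlgHom.ext
        intro f
        exact subC_subC U U⁻¹ (Matrix.nonsing_inv_mul _ hU) f)
  exact (MulEquiv.irreducible_iff (E : MvPolynomial (Fin n) ℂ ≃* MvPolynomial (Fin n) ℂ)).2 hg

private lemma eval_conj {n : ℕ} (x : Fin n → ℂ) (p : MvPolynomial (Fin n) ℂ) :
    eval x (map (starRingEnd ℂ) p) = (starRingEnd ℂ) (eval (fun j => (starRingEnd ℂ) (x j)) p) := by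
  induction p using MvPolynomial.induction_on with
  | C c => rw [map_C, eval_C, eval_C]
  | add p q hp hq => rw [map_add, map_add, map_add, map_add, hp, hq]
  | mul_X p i hp =>
    rw [map_mul, map_mul, map_mul, map_mul, hp, map_X, eval_X, eval_X, Complex.conj_conj]

private lemma linZ_conj {n : ℕ} (U : Matrix (Fin n) (Fin n) ℤ) (x : Fin n → ℂ) :
    linZ U (fun j => (starRingEnd ℂ) (x j)) = fun j => (starRingEnd ℂ) (linZ U x j) := by
  funext j
  unfold linZ
  rw [map_sum]
  refine Finset.sum_congr rfl fun i _ => ?_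
  rw [map_mul]
  congr 1
  simp

private lemma conj_subC {n : ℕ} (U : Matrix (Fin n) (Fin n) ℤ) (p : MvPolynomial (Fin n) ℂ) :
    map (starRingEnd ℂ) (subC U p) = subC U (map (starRingEnd ℂ) p) := by
  apply MvPolynomial.funext
  intro x
  rw [eval_conj, eval_subC, eval_subC, eval_conj, linZ_conj]

private lemma sub_ne {k : Subfield ℂ} {n : ℕ} (U : Matrix (Fin n) (Fin n) ℤ) (hU : IsUnit U.det)
    (F : MvPolynomial (Fin n) k) (hF : F ≠ 0) : sub U F ≠ 0 := by
  intro h
  apply hF
  have h1 : map (algebraMap k ℂ) F = 0 := by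
    apply MvPolynomial.funext
    intro x
    rw [ev_map, ← aeval_sub U hU x F, h, map_zero, map_zero]
  exact (map_injective _ (algebraMap k ℂ).injective) (by rw [h1, map_zero])

private theorem fg_adjoin (k : Subfield ℂ) {ι : Type} [Fintype ι] (z : ι → ℂ) :
    ∃ S : Finset (IntermediateField.adjoin k (Set.range z)),
      IntermediateField.adjoin k (S : Set (IntermediateField.adjoin k (Set.range z))) = ⊤ := by
  classical
  set K := IntermediateField.adjoin k (Set.range z) with hK
  have hz : ∀ i, z i ∈ K := fun i => IntermediateField.subset_adjoin k _ ⟨i, rfl⟩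
  refine ⟨Finset.univ.image (fun i => (⟨z i, hz i⟩ : K)), ?_⟩
  rw [eq_top_iff]
  intro x _
  set L := IntermediateField.adjoin k
    ((Finset.univ.image (fun i => (⟨z i, hz i⟩ : K)) : Finset K) : Set K) with hL
  have h1 : K ≤ L.map K.val := by
    refine IntermediateField.adjoin_le_iff.2 ?_
    rintro _ ⟨i, rfl⟩
    refine ⟨⟨z i, hz i⟩, ?_, rfl⟩
    apply IntermediateField.subset_adjoin
    simp
  obtain ⟨y, hy, hyx⟩ := h1 x.2
  have : y = x := Subtype.ext hyx
  rw [← this]
  exact hy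

/-- the transcendence degree of the new tuple -/
private lemma td_new (k : Subfield ℂ) {n : ℕ} (a b : Fin n → ℂ) (hb : ∀ j, b j ≠ 0)
    (U : Matrix (Fin n) (Fin n) ℤ) (hU : IsUnit U.det) :
    td (k : Set ℂ) (Sum.elim (linZ U a) (powZ U b)) = td (k : Set ℂ) (Sum.elim a b) := by
  have key : ∀ (V : Matrix (Fin n) (Fin n) ℤ) (x y : Fin n → ℂ) (D : Derivation ℤ ℂ ℂ),
      D ∈ DerOver (k : Set ℂ) → (∀ i, D (Sum.elim x y i) = 0) →
      ∀ j, D (Sum.elim (linZ V x) (powZ V y) j) = 0 := by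
    intro V x y D hD h j
    have hkill : ∀ c ∈ IntermediateField.adjoin k (Set.range (Sum.elim x y)), D c = 0 := by
      intro c hc
      induction hc using IntermediateField.adjoin_induction with
      | mem x hx =>
        obtain ⟨i, rfl⟩ := hx
        exact h i
      | algebraMap r => exact hD _ r.2
      | add x y _ _ hx hy => rw [map_add, hx, hy, add_zero]
      | inv x _ hx => rw [Derivation.leibniz_inv, hx, smul_zero]
      | mul x y _ _ hx hy => rw [Derivation.leibniz, hx, hy, smul_zero, smul_zero, add_zero]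
    have hx : ∀ i, x i ∈ IntermediateField.adjoin k (Set.range (Sum.elim x y)) :=
      fun i => IntermediateField.subset_adjoin k _ ⟨Sum.inl i, rfl⟩
    have hy : ∀ i, y i ∈ IntermediateField.adjoin k (Set.range (Sum.elim x y)) :=
      fun i => IntermediateField.subset_adjoin k _ ⟨Sum.inr i, rfl⟩
    apply hkill
    rcases j with j | j
    · show linZ V x j ∈ _
      unfold linZ
      exact sum_mem fun i _ => mul_mem (intCast_mem _ _) (hx i)
    · show powZ V y j ∈ _
      unfold powZ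
      exact prod_mem fun i _ => zpow_mem (hy i) _
  apply le_antisymm
  · refine rk_le_of_dep _ _ _ ?_
    intro D hD h
    exact key U a b D hD h
  · refine rk_le_of_dep _ _ _ ?_
    intro D hD h
    have h1 := key U⁻¹ (linZ U a) (powZ U b) D hD h
    have h2 : linZ U⁻¹ (linZ U a) = a := linZ_inv1 U hU a
    have h3 : powZ U⁻¹ (powZ U b) = b := by
      have hz : ∀ (x : ℂ) (_ : x ≠ 0) (s : Finset (Fin n)) (e : Fin n → ℤ),
          ∏ l ∈ s, x ^ e l = x ^ ∑ l ∈ s, e l := by
        intro x hx s e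
        classical
        induction s using Finset.induction_on with
        | empty => simp
        | insert a s ha ih => rw [Finset.prod_insert ha, Finset.sum_insert ha, ih, zpow_add₀ hx]
      have h4 : powZ U⁻¹ (powZ U b) = powZ (U⁻¹ * U) b := by
        funext j
        unfold powZ
        simp only [Matrix.mul_apply, ← Finset.prod_zpow, ← zpow_mul]
        rw [Finset.prod_comm]
        refine Finset.prod_congr rfl fun i _ => ?_
        rw [show (∑ l, U⁻¹ j l * U l i) = ∑ l, U l i * U⁻¹ j l from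
          Finset.sum_congr rfl fun l _ => mul_comm _ _]
        rw [hz _ (hb i)]
      rw [h4, Matrix.nonsing_inv_mul _ hU]
      funext j
      unfold powZ
      rw [Finset.prod_eq_single j]
      · simp
      · intro i _ hi
        rw [Matrix.one_apply_ne hi.symm]
        simp
      · intro h
        exact absurd (Finset.mem_univ j) h
    rw [h2, h3] at h1
    exact h1

/-- A polynomial without `X 0` is killed by the derivative. -/
private lemma pderiv_zero_of {k : Subfield ℂ} {m : ℕ} (G : MvPolynomial (Fin (m + 1)) k)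
    (h : degreeOf 0 G = 0) : pderiv 0 G = 0 := by
  apply pderiv_eq_zero_of_notMem_vars
  intro hi
  obtain ⟨e, he, h0⟩ := (MvPolynomial.mem_vars_iff_mem_support _).1 hi
  have h1 := MvPolynomial.monomial_le_degreeOf 0 he
  rw [h] at h1
  exact Finsupp.mem_support_iff.1 h0 (Nat.le_zero.1 h1)

/-- the homogeneous components of a sum of homogeneous polynomials -/
private lemma comp_sum {K : Type} [Field K] {n d : ℕ} (Fc : ℕ → MvPolynomial (Fin n) K)
    (hFc : ∀ i, (Fc i).IsHomogeneous i) (i : ℕ) (hi : i ≤ d) :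
    homogeneousComponent i (∑ j ∈ Finset.range (d + 1), Fc j) = Fc i := by
  rw [map_sum, Finset.sum_eq_single i]
  · exact (homogeneousComponent_of_mem ((mem_homogeneousSubmodule _ _).2 (hFc i))).trans (if_pos rfl)
  · intro j _ hj
    exact (homogeneousComponent_of_mem ((mem_homogeneousSubmodule _ _).2 (hFc j))).trans
      (if_neg (Ne.symm hj))
  · intro h
    exact absurd (Finset.mem_range.2 (by omega)) h

private lemma tdeg_sum {K : Type} [Field K] {n d : ℕ} (Fc : ℕ → MvPolynomial (Fin n) K)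
    (hFc : ∀ i, (Fc i).IsHomogeneous i) (hd : Fc d ≠ 0) :
    (∑ j ∈ Finset.range (d + 1), Fc j).totalDegree = d := by
  apply le_antisymm
  · refine totalDegree_finsetSum_le fun j hj => ?_
    exact (hFc j).totalDegree_le.trans (by have := Finset.mem_range.1 hj; omega)
  · by_contra hlt
    push Not at hlt
    apply hd
    rw [← comp_sum (d := d) Fc hFc d le_rfl]
    exact homogeneousComponent_eq_zero _ _ hlt

theorem concl_T (k : Subfield ℂ) (hk : (k : Set ℂ).Countable) (hI : Complex.I ∈ k) {m : ℕ}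
    (hm : 1 ≤ m) (a b : Fin (m + 1) → ℂ) (hb : ∀ j, b j ≠ 0)
    (F : MvPolynomial (Fin (m + 1)) k) (hF0 : F ≠ 0)
    (hF : ∀ f : MvPolynomial (Fin (m + 1)) k, aeval a f = 0 ↔ F ∣ f)
    (htd : td (k : Set ℂ) (Sum.elim a b) = m + 1) (hta : td (k : Set ℂ) a = m)
    (d : ℕ) (Fc : ℕ → MvPolynomial (Fin (m + 1)) k) (hFc : ∀ i, (Fc i).IsHomogeneous i)
    (hFs : F = ∑ i ∈ Finset.range (d + 1), Fc i) (hFd : Fc d ≠ 0)
    (G R : MvPolynomial (Fin (m + 1)) k) (r a0 : ℕ) (ha0 : 1 ≤ a0) (hG : G.IsHomogeneous r)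
    (hirr : Irreducible (map (algebraMap k ℂ) G)) (hL : Fc d = G ^ a0 * R) (hGR : ¬ G ∣ R)
    (hper : ∀ v : Fin (m + 1) → ℤ, v ≠ 0 → ∃ x : Fin (m + 1) → ℂ,
      eval (fun j => x j + v j) (map (algebraMap k ℂ) G) ≠ eval x (map (algebraMap k ℂ) G))
    (hconj : map (algebraMap k ℂ) G ∣ map (starRingEnd ℂ) (map (algebraMap k ℂ) G))
    (h : MvPolynomial (Fin (m + 1) ⊕ Fin (m + 1)) k) (hh : aeval (Sum.elim a b) h ≠ 0) :
    ∃ a' b' : Fin (m + 1) → ℂ, (∀ j, b' j = Complex.exp (a' j)) ∧
      Spec k (Sum.elim a b) (Sum.elim a' b') ∧ aeval (Sum.elim a' b') h ≠ 0 := by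
  obtain ⟨pl, A, B, v, θ, hA, hB, hθ, hrel, hv, hε⟩ := exists_pl k a b hb htd hta
  by_cases hgr : EXK2.Growth (map (algebraMap k ℂ) F) v
  · exact EXK2.concl_codim2 k hk a b hb F hF htd hta pl A B v θ hA hB hθ hrel hv hε hgr h hh
  -- the form of top degree
  have htop : homogeneousComponent (map (algebraMap k ℂ) F).totalDegree (map (algebraMap k ℂ) F) =
      map (algebraMap k ℂ) (Fc d) := by
    have h1 : map (algebraMap k ℂ) F =
        ∑ i ∈ Finset.range (d + 1), map (algebraMap k ℂ) (Fc i) := by rw [hFs, map_sum]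
    have h2 : ∀ i, (map (algebraMap k ℂ) (Fc i)).IsHomogeneous i := fun i => (hFc i).map _
    have h3 : map (algebraMap k ℂ) (Fc d) ≠ 0 := by
      intro h4
      exact hFd ((map_injective _ (algebraMap k ℂ).injective) (by rw [h4, map_zero]))
    rw [h1, tdeg_sum (fun i => map (algebraMap k ℂ) (Fc i)) h2 h3]
    exact comp_sum (d := d) (fun i => map (algebraMap k ℂ) (Fc i)) h2 d le_rfl
  have hnh : ¬ NonHypC (map (algebraMap k ℂ) (Fc d)) v := by
    intro h1
    exact hgr (EXK2.growth_of_nonhyp _ v (by rw [htop]; exact h1))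
  obtain ⟨U, hU, -, -, A', B', hA', hB', hρ0, hρ1, hrel'⟩ :=
    EXK2.nf_of_pl k a b hb pl A B v θ hA hB hθ hrel hv hε
  have hR0 : R ≠ 0 := by
    rintro rfl
    exact hGR (dvd_zero G)
  have hG0 : G ≠ 0 := by
    rintro rfl
    rw [map_zero] at hirr
    exact hirr.ne_zero rfl
  have hLL : G * (G ^ (a0 - 1) * R) = Fc d := by
    obtain ⟨s, rfl⟩ : ∃ s, a0 = s + 1 := ⟨a0 - 1, by omega⟩
    rw [hL, Nat.add_sub_cancel, pow_succ]
    ring
  obtain ⟨β0, hβ0⟩ := exists_real_zero k hk G (G ^ (a0 - 1) * R) r hG hirr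
    (mul_ne_zero (pow_ne_zero _ hG0) hR0) v (hper v hv) (by rw [hLL]; exact hnh)
  set β : Fin (m + 1) → ℝ := fun j => ∑ i, (U j i : ℝ) * β0 i with hβdef
  have hβc : (fun j => (β j : ℂ)) = linZ U (fun j => (β0 j : ℂ)) := by
    funext j
    rw [hβdef]
    unfold linZ
    push_cast
    rfl
  have hβ : ∀ f : MvPolynomial (Fin (m + 1)) k, aeval (fun j => (β j : ℂ)) f = 0 ↔ sub U G ∣ f := by
    intro f
    rw [hβc]
    exact ker_sub U hU _ G hβ0 f
  have hmG : map (algebraMap k ℂ) (sub U G) = subC U⁻¹ (map (algebraMap k ℂ) G) := map_sub' U hU G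
  have hirr1 : Irreducible (map (algebraMap k ℂ) (sub U G)) := by
    rw [hmG]
    exact irr_subC U hU _ hirr
  have hper1 : ∀ v : Fin (m + 1) → ℤ, v ≠ 0 → ∃ x : Fin (m + 1) → ℂ,
      eval (fun j => x j + v j) (map (algebraMap k ℂ) (sub U G)) ≠
        eval x (map (algebraMap k ℂ) (sub U G)) := by
    intro w hw
    have hw' : U⁻¹.mulVec w ≠ 0 := by
      intro h1
      apply hw
      have h2 : U.mulVec (U⁻¹.mulVec w) = w := by
        rw [Matrix.mulVec_mulVec, Matrix.mul_nonsing_inv _ hU, Matrix.one_mulVec]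
      rw [← h2, h1, Matrix.mulVec_zero]
    obtain ⟨x, hx⟩ := hper _ hw'
    refine ⟨linZ U x, ?_⟩
    rw [hmG, eval_subC, eval_subC, linZ_inv1 U hU]
    have h3 : linZ U⁻¹ (fun j => linZ U x j + (w j : ℂ)) =
        fun j => x j + ((U⁻¹.mulVec w j : ℤ) : ℂ) := by
      funext j
      have h4 := congrFun (linZ_inv1 U hU x) j
      unfold linZ at h4 ⊢
      simp only [mul_add, Finset.sum_add_distrib]
      rw [h4]
      congr 1
      simp only [Matrix.mulVec, dotProduct]
      push_cast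
      rfl
    rw [h3]
    exact hx
  have hconj1 : map (algebraMap k ℂ) (sub U G) ∣
      map (starRingEnd ℂ) (map (algebraMap k ℂ) (sub U G)) := by
    rw [hmG, conj_subC]
    exact map_dvd (subC U⁻¹) hconj
  have hG1 : ¬ sub U G ∣ (1 : MvPolynomial (Fin (m + 1)) k) := by
    intro h1
    exact hirr1.not_isUnit ((isUnit_of_dvd_one h1).map (map (algebraMap k ℂ)))
  obtain ⟨c, μ, hμ, hc, hd, hind⟩ := grad k hI (sub U G) 1 r (sub_hom U G r hG) hirr1 hG1 hper1
    hconj1 β hβ
  have hd1 : ∀ j, aeval (fun j => (β j : ℂ)) (pderiv j (sub U G)) = μ * (c j : ℂ) := by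
    intro j
    have := hd j
    rwa [mul_one] at this
  have hF1 : ∀ f : MvPolynomial (Fin (m + 1)) k, aeval (linZ U a) f = 0 ↔ sub U F ∣ f :=
    fun f => ker_sub U hU a F hF f
  have hF10 : sub U F ≠ 0 := sub_ne U hU F hF0
  have hL1 : sub U (Fc d) = sub U G ^ a0 * sub U R := by rw [hL, map_mul, map_pow]
  have hFs1 : sub U F = ∑ i ∈ Finset.range (d + 1), sub U (Fc i) := by rw [hFs, map_sum]
  have hGR1 : ¬ sub U G ∣ sub U R := by
    intro h1
    apply hGR
    rw [← hβ0, ← aeval_sub U hU, ← hβc]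
    exact (hβ _).2 h1
  -- the first coordinate of `G` occurs
  have hc0 : c 0 ≠ 0 := by
    have h1 := hc (Pi.single 0 1) (by
      intro h2
      have := congrFun h2 0
      simp at this)
    intro h2
    apply h1
    rw [Finset.sum_eq_single 0]
    · rw [h2]; simp
    · intro j _ hj
      simp [Pi.single_eq_of_ne hj]
    · intro h3
      exact absurd (Finset.mem_univ _) h3
  have hdegG : degreeOf 0 (sub U G) ≠ 0 := by
    intro h1
    have h2 := hd1 0
    rw [pderiv_zero_of _ h1, map_zero] at h2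
    exact (mul_ne_zero hμ (Complex.ofReal_ne_zero.2 hc0)) h2.symm
  have hdegFc : degreeOf 0 (sub U (Fc d)) ≠ 0 := by
    rw [hL1, degreeOf_mul_eq (pow_ne_zero _ (sub_ne U hU G hG0)) (sub_ne U hU R hR0),
      show sub U G ^ a0 = sub U G * sub U G ^ (a0 - 1) by
        rw [← pow_succ']; congr 1; omega,
      degreeOf_mul_eq (sub_ne U hU G hG0) (pow_ne_zero _ (sub_ne U hU G hG0))]
    omega
  have hdegF : degreeOf 0 (sub U F) ≠ 0 := by
    intro h1
    apply hdegFc
    have h2 : sub U (Fc d) = homogeneousComponent d (sub U F) := by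
      rw [hFs1]
      exact (comp_sum (d := d) (fun i => sub U (Fc i)) (fun i => sub_hom U _ i (hFc i)) d
        le_rfl).symm
    apply Nat.le_zero.1
    rw [degreeOf_le_iff]
    intro e he
    have h3 : e ∈ (sub U F).support := by
      rw [mem_support_iff] at he ⊢
      intro h4
      apply he
      rw [h2, coeff_homogeneousComponent, h4]
      split_ifs <;> rfl
    have h4 := monomial_le_degreeOf 0 h3
    rw [h1] at h4
    exact h4
  have ha1 : AlgebraicIndependent k (fun j : Fin m => linZ U a j.succ) := by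
    rw [algebraicIndependent_iff]
    intro f hf
    by_contra hf0
    have h2 : aeval (linZ U a) (rename Fin.succ f) = 0 := by
      rw [aeval_rename]
      exact hf
    obtain ⟨q, hq⟩ := (hF1 _).1 h2
    have hr0 : rename Fin.succ f ≠ (0 : MvPolynomial (Fin (m + 1)) k) := by
      intro h3
      apply hf0
      exact (rename_injective _ (Fin.succ_injective m)) (by rw [h3, map_zero])
    have hq0 : q ≠ 0 := by
      rintro rfl
      rw [mul_zero] at hq
      exact hr0 hq
    have h3 : degreeOf 0 (sub U F * q) = degreeOf 0 (sub U F) + degreeOf 0 q :=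
      degreeOf_mul_eq hF10 hq0
    have h4 : degreeOf 0 (rename Fin.succ f : MvPolynomial (Fin (m + 1)) k) = 0 := by
      classical
      apply Nat.le_zero.1
      rw [degreeOf_le_iff]
      intro e he
      obtain ⟨e', h5, -⟩ := coeff_rename_ne_zero _ _ _ (mem_support_iff.1 he)
      rw [← h5, Finsupp.mapDomain_of_notMem_range]
      rintro ⟨j, hj⟩
      exact Fin.succ_ne_zero j hj
    rw [← hq, h4] at h3
    omega
  have hb1 : ∀ j, powZ U b j ≠ 0 := by
    intro j
    unfold powZ
    exact Finset.prod_ne_zero_iff.2 fun i _ => zpow_ne_zero _ (hb i)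
  have htd1 : td (k : Set ℂ) (Sum.elim (linZ U a) (powZ U b)) = m + 1 := by
    rw [td_new k a b hb U hU, htd]
  have hta1 : td (k : Set ℂ) (linZ U a) = m := td_of_ker k (linZ U a) (sub U F) hF10 hF1
  have hcl : EXJ.Concl (1 : AddChar ℤ ℂ) k (linZ U a) (powZ U b) := by
    intro h hh
    obtain ⟨a', b', hs, hsp, hne⟩ := concl_A k hk hm (linZ U a) (powZ U b) hb1 (sub U F) hF10 hF1
      htd1 hta1 ha1 d (fun i => sub U (Fc i)) (fun i => sub_hom U _ i (hFc i)) hFs1 (sub U G)
      (sub U R) r a0 ha0 (sub_hom U G r hG) hL1 hGR1 β hβ hind c hc μ hμ hd1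
      (IntermediateField.adjoin k (Set.range (Sum.elim a b))) (fg_adjoin k _)
      (td_not_ind k (Sum.elim a b) htd) pl A' B' hA' hB' hρ0 hρ1 hrel' h hh
    refine ⟨a', b', ⟨0, fun j => ?_⟩, hsp, hne⟩
    rw [hs j]
    simp
  obtain ⟨a', b', ⟨q, hq⟩, hsp, hne⟩ := EXJ.concl_uni (1 : AddChar ℤ ℂ) k a b hb U hU hcl h hh
  refine ⟨a', b', fun j => ?_, hsp, hne⟩
  rw [hq j]
  simp

end Pool.Agent.EXW
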