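import Pool.Agent.EXW.ConclT
import Pool.Agent.EXK.KFin

/-!
# EXW / FinW: codimension one, a leading factor of any multiplicity without integer periods

PROOF.  As `EXG/Fin` (helper23). If `¬ G ∣ conj G`: `EXK.main` (second alternative). Otherwise `L = G ^ a0 * R'`, `a0 ≥ 1`, `¬ G ∣ R'` (finite
multiplicity, `L ≠ 0`); `exists_generic2` for the coefficients of `h, F, G, R'` and `I`; descent; `¬ G₀ ∣ R₀'` (`dvd_of_map`, or the easy
direction); `concl_T`.
-/

set_option autoImplicit false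

namespace Pool.Agent.EXW

open MvPolynomial Pool.Agent.EXL Pool.Agent.EXI Pool.Agent.EXK

private lemma aeval_eq (k : Subfield ℂ) {ι : Type} (x : ι → ℂ) (f : MvPolynomial ι k) :
    aeval x f = eval x (map (algebraMap k ℂ) f) := by
  rw [eval_map, aeval_def]

private lemma map_hc (k : Subfield ℂ) {ι : Type} (i : ℕ) (f : MvPolynomial ι k) :
    map (algebraMap k ℂ) (homogeneousComponent i f) =
      homogeneousComponent i (map (algebraMap k ℂ) f) := by
  ext d
  rw [coeff_map, coeff_homogeneousComponent, coeff_homogeneousComponent, coeff_map]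
  split_ifs with h
  · rfl
  · exact map_zero _

private lemma tdeg_map (k : Subfield ℂ) {ι : Type} (f : MvPolynomial ι k) :
    (map (algebraMap k ℂ) f).totalDegree = f.totalDegree := by
  rw [totalDegree, totalDegree, support_map_of_injective f (algebraMap k ℂ).injective]

private lemma hc_ne {ι : Type} (f : MvPolynomial ι ℂ) (hf : f ≠ 0) :
    homogeneousComponent f.totalDegree f ≠ 0 := by
  obtain ⟨b, hb, hd⟩ := f.support.exists_mem_eq_sup
    (support_nonempty.2 hf) (fun s => s.sum fun _ e => e)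
  intro h0
  have h1 := congrArg (coeff b) h0
  rw [coeff_homogeneousComponent, coeff_zero] at h1
  have h2 : b.degree = f.totalDegree := by
    rw [totalDegree, hd]
    rfl
  rw [if_pos h2] at h1
  exact (mem_support_iff.1 hb) h1

theorem mainW {m : ℕ} (hm : 1 ≤ m)
    (P : Ideal (MvPolynomial (Fin (m + 1) ⊕ Fin (m + 1)) ℂ)) (hP : P.IsPrime)
    (hY : ∀ j : Fin (m + 1), (X (Sum.inr j) : MvPolynomial (Fin (m + 1) ⊕ Fin (m + 1)) ℂ) ∉ P)
    (hdim : Algebra.trdeg ℂ (MvPolynomial (Fin (m + 1) ⊕ Fin (m + 1)) ℂ ⧸ P) = (m + 1 : ℕ))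
    (F : MvPolynomial (Fin (m + 1)) ℂ) (hF0 : F ≠ 0)
    (hF : ∀ f : MvPolynomial (Fin (m + 1)) ℂ, rename Sum.inl f ∈ P ↔ F ∣ f)
    (G R : MvPolynomial (Fin (m + 1)) ℂ) (r : ℕ)
    (hL : homogeneousComponent F.totalDegree F = G * R) (hGh : G.IsHomogeneous r)
    (hG : Irreducible G)
    (hper : ∀ v : Fin (m + 1) → ℤ, v ≠ 0 → ∃ x : Fin (m + 1) → ℂ,
      eval (fun j => x j + v j) G ≠ eval x G)
    (h : MvPolynomial (Fin (m + 1) ⊕ Fin (m + 1)) ℂ) (hh : h ∉ P) :
    ∃ z : Fin (m + 1) → ℂ,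
      (∀ f ∈ P, eval (Sum.elim z fun j => Complex.exp (z j)) f = 0) ∧
      eval (Sum.elim z fun j => Complex.exp (z j)) h ≠ 0 := by
  classical
  by_cases hconj : G ∣ map (starRingEnd ℂ) G
  swap
  · exact EXK.main P hP hY hdim F hF0 hF (Or.inr ⟨G, R, r, hL, hGh, hG, hconj, hper⟩) h hh
  have hL0 := hc_ne F hF0
  obtain ⟨R', hR', hGR'⟩ := (FiniteMultiplicity.of_not_isUnit hG.not_isUnit
    hL0).exists_eq_pow_mul_and_not_dvd
  have ha0 : 1 ≤ multiplicity G (homogeneousComponent F.totalDegree F) := by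
    by_contra h0
    have h1 : multiplicity G (homogeneousComponent F.totalDegree F) = 0 := by omega
    rw [h1, pow_zero, one_mul] at hR'
    apply hGR'
    rw [← hR', hL]
    exact dvd_mul_right _ _
  generalize multiplicity G (homogeneousComponent F.totalDegree F) = a0 at hR' ha0
  obtain ⟨k, hk, p, hC, hp, hx⟩ := exists_generic2 P hP
    (((h.coeffs : Set ℂ) ∪ (F.coeffs : Set ℂ)) ∪
      (((G.coeffs : Set ℂ) ∪ (R'.coeffs : Set ℂ)) ∪ {Complex.I}))
    (((Finset.countable_toSet _).union (Finset.countable_toSet _)).union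
      (((Finset.countable_toSet _).union (Finset.countable_toSet _)).union
        (Set.countable_singleton _)))
  have hI : Complex.I ∈ k := hC (Or.inr (Or.inr rfl))
  obtain ⟨h₀, hh₀⟩ := exists_descent k h (fun c hc => hC (Or.inl (Or.inl hc)))
  obtain ⟨F₀, hF₀⟩ := exists_descent k F (fun c hc => hC (Or.inl (Or.inr hc)))
  obtain ⟨G₀, hG₀⟩ := exists_descent k G (fun c hc => hC (Or.inr (Or.inl (Or.inl hc))))
  obtain ⟨R₀, hR₀⟩ := exists_descent k R' (fun c hc => hC (Or.inr (Or.inl (Or.inr hc))))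
  have hinj : Function.Injective (map (algebraMap k ℂ) :
      MvPolynomial (Fin (m + 1)) k → MvPolynomial (Fin (m + 1)) ℂ) :=
    map_injective _ (algebraMap k ℂ).injective
  have hpe : Sum.elim (fun j => p (Sum.inl j)) (fun j => p (Sum.inr j)) = p := by
    funext i
    rcases i with i | i <;> rfl
  have hb : ∀ j, p (Sum.inr j) ≠ 0 := by
    intro j h0
    apply hY j
    have h2 := (hp (X (Sum.inr j))).1 (by rw [aeval_X, h0])
    rwa [map_X] at h2
  have hk0 : F₀ ≠ 0 := by
    rintro rfl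
    rw [map_zero] at hF₀
    exact hF0 hF₀.symm
  have hker : ∀ f : MvPolynomial (Fin (m + 1)) k,
      aeval (fun j => p (Sum.inl j)) f = 0 ↔ F₀ ∣ f := by
    intro f
    have h1 : aeval (fun j => p (Sum.inl j)) f = aeval p (rename Sum.inl f) := by
      rw [aeval_rename]
      rfl
    rw [h1, hp, map_rename, hF, ← hF₀]
    exact ⟨dvd_of_map k F₀ f, fun h2 => map_dvd (map (algebraMap k ℂ)) h2⟩
  have htd := td_of_trdeg P hP k hk p hp hx (m + 1) hdim
  have hta := td_of_ker k (fun j => p (Sum.inl j)) F₀ hk0 hker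
  -- the leading form
  have hL₀ : homogeneousComponent F₀.totalDegree F₀ = G₀ ^ a0 * R₀ := by
    apply hinj
    rw [map_mul, map_pow, map_hc, ← tdeg_map, hF₀, hG₀, hR₀, hR']
  have hL₀0 : homogeneousComponent F₀.totalDegree F₀ ≠ 0 := by
    intro h0
    apply hL0
    rw [← hF₀, tdeg_map, ← map_hc, h0, map_zero]
  have hG₀h : G₀.IsHomogeneous r := by
    rw [← hG₀] at hGh
    exact IsHomogeneous.of_map (algebraMap k ℂ).injective hGh
  have hirr : Irreducible (map (algebraMap k ℂ) G₀) := by rw [hG₀]; exact hG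
  have hGR₀ : ¬ G₀ ∣ R₀ := by
    intro hd
    apply hGR'
    rw [← hG₀, ← hR₀]
    exact map_dvd (map (algebraMap k ℂ)) hd
  have hper₀ : ∀ v : Fin (m + 1) → ℤ, v ≠ 0 → ∃ x : Fin (m + 1) → ℂ,
      eval (fun j => x j + v j) (map (algebraMap k ℂ) G₀) ≠
        eval x (map (algebraMap k ℂ) G₀) := by
    rw [hG₀]
    exact hper
  have hconj₀ : map (algebraMap k ℂ) G₀ ∣ map (starRingEnd ℂ) (map (algebraMap k ℂ) G₀) := by
    rw [hG₀]
    exact hconj
  obtain ⟨a', b', hexp, hsp, hne⟩ := concl_T k hk hI hm (fun j => p (Sum.inl j))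
    (fun j => p (Sum.inr j)) hb F₀ hk0 hker (by rw [hpe]; exact htd) hta F₀.totalDegree
    (fun i => homogeneousComponent i F₀) (fun i => homogeneousComponent_isHomogeneous i F₀)
    (sum_homogeneousComponent F₀).symm hL₀0 G₀ R₀ r a0 ha0 hG₀h hirr hL₀ hGR₀ hper₀ hconj₀ h₀ (by
      rw [hpe]
      intro h0
      exact hh (hh₀ ▸ (hp h₀).1 h0))
  rw [hpe] at hsp
  have hb' : b' = fun j => Complex.exp (a' j) := funext hexp
  subst hb'
  refine ⟨a', ?_, ?_⟩
  · exact hx _ fun f hf => hsp f ((hp f).2 hf)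
  · rw [← hh₀, ← aeval_eq]
    exact hne

end Pool.Agent.EXW
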