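import Pool.Agent.EXW.BddW
import Pool.Agent.EXG.SelPt

/-!
# EXW / SelW: the chosen points of the frozen fibres, bounded level

PROOF.  As `EXG.sel_pt` (copy the proof), `bddW` instead of `bdd`, level `κ T` for the fibre over `x T`.
-/

set_option autoImplicit false

namespace Pool.Agent.EXW

open MvPolynomial Pool.Agent.EXI Pool.Agent.EXG Topology Filter

theorem sel_ptW (k : Subfield ℂ) (hk : (k : Set ℂ).Countable) {m : ℕ} (a b : Fin (m + 1) → ℂ)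
    (P : Fin (m + 1) → Fin (m + 1) → MvPolynomial (Fin m ⊕ Fin 2) k)
    (hP : ∀ i j, i ≠ j → P i j ≠ 0)
    (hPV : ∀ i j, i ≠ j → ∀ x y : Fin (m + 1) → ℂ, Spec k (Sum.elim a b) (Sum.elim x y) →
      aeval (Sum.elim (fun l : Fin m => x l.succ) ![y i, y j]) (P i j) = 0)
    (c : Fin (m + 1) → ℝ) (hc : ∀ v : Fin (m + 1) → ℤ, v ≠ 0 → ∑ j, c j * v j ≠ 0)
    (κ : ℕ → ℝ)
    (β : Fin m → ℝ) (hβ : AlgebraicIndependent k (fun j => Complex.I * (β j : ℂ)))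
    (𝒰 : Ultrafilter ℕ) (h𝒰 : (𝒰 : Filter ℕ) ≤ atTop)
    (C0 : ℝ) (hC0 : ∀ᶠ T : ℕ in (𝒰 : Filter ℕ), |κ T| ≤ C0) (x : ℕ → Fin (m + 1) → ℂ)
    (hx : ∀ᶠ T : ℕ in (𝒰 : Filter ℕ), ∀ j : Fin m,
      x T j.succ = Complex.I * (T : ℂ) * (β j : ℂ))
    (hfib : ∀ᶠ T : ℕ in (𝒰 : Filter ℕ), ∃ Q : Ideal (MvPolynomial (Fin (m + 1)) ℂ), Q.IsPrime ∧
      (∀ j : Fin (m + 1), (X j : MvPolynomial (Fin (m + 1)) ℂ) ∉ Q) ∧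
      Algebra.trdeg ℂ (MvPolynomial (Fin (m + 1)) ℂ ⧸ Q) = 1 ∧
      ∀ w : Fin (m + 1) → ℂ, (∀ g ∈ Q, eval w g = 0) →
        Spec k (Sum.elim a b) (Sum.elim (x T) w)) :
    ∃ (b' : ℕ → Fin (m + 1) → ℂ) (i : Fin (m + 1)) (θ : ℝ) (η : ℕ → Fin (m + 1) → ℂ)
      (ηi : Fin (m + 1) → ℂ) (C : ℝ),
      (∀ T j, b' T j ≠ 0) ∧
      (∀ᶠ T : ℕ in (𝒰 : Filter ℕ),
        Spec k (Sum.elim a b) (Sum.elim (x T) fun j => b' T j * Complex.exp (η T j)) ∧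
        ‖η T‖ ≤ 1 / 4 ∧ (∑ j, (c j : ℂ) * η T j).re = 0 ∧
        ∑ j, c j * Real.log ‖b' T j‖ = κ T ∧ ∀ j, |Real.log ‖b' T j‖| ≤ C * Real.log T) ∧
      ‖ηi‖ ≤ 1 / 4 ∧ ∑ j, (c j : ℂ) * ηi j = Complex.I * θ ∧
      Tendsto η (𝒰 : Filter ℕ) (𝓝 ηi) ∧
      (∀ N : MvPolynomial (Fin m ⊕ Unit) k, N ≠ 0 → ∃ r : ℝ, 0 < r ∧
        ∀ᶠ T : ℕ in (𝒰 : Filter ℕ), ∀ (x : Fin m → ℂ) (z : ℂ),
          (∀ j, ‖x j - Complex.I * (T : ℂ) * (β j : ℂ)‖ ≤ √(T : ℝ)) →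
          ‖z - Complex.exp (ηi i)‖ ≤ r → aeval (Sum.elim x fun _ => b' T i * z) N ≠ 0) ∧
      (∀ δ : ℝ, 0 < δ → ∃ δ' r : ℝ, 0 < δ' ∧ δ' < δ ∧ 0 < r ∧
        ∀ᶠ T : ℕ in (𝒰 : Filter ℕ), ∀ j, j ≠ i → ∀ (x : Fin m → ℂ) (z ζ : ℂ),
          (∀ l, ‖x l - Complex.I * (T : ℂ) * (β l : ℂ)‖ ≤ √(T : ℝ)) →
          ‖z - Complex.exp (ηi i)‖ ≤ r → ‖ζ - Complex.exp (ηi j)‖ = δ' →
          aeval (Sum.elim x ![b' T i * z, b' T j * ζ]) (P i j) ≠ 0) := by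
  classical
  have hlam : ∀ v : Fin (m + 1) → ℤ, ∑ j, c j * v j = 0 → v = 0 := by
    intro v hv
    by_contra hne
    exact hc v hne hv
  have h1 : ∀ᶠ T : ℕ in (𝒰 : Filter ℕ), ∃ b₁ : Fin (m + 1) → ℂ, (∀ j, b₁ j ≠ 0) ∧
      ∑ j, c j * Real.log ‖b₁ j‖ = κ T ∧ Spec k (Sum.elim a b) (Sum.elim (x T) b₁) ∧
      ∀ s : ℝ, 0 < s → ∃ η : Fin (m + 1) → ℂ, ‖η‖ = s ∧
        Spec k (Sum.elim a b) (Sum.elim (x T) fun j => b₁ j * Complex.exp (η j)) ∧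
        (∑ j, (c j : ℂ) * η j).re = 0 := by
    filter_upwards [hfib] with T hT
    obtain ⟨Q, hQ, hY, hd, hS⟩ := hT
    obtain ⟨b₁, hb₁, hκ, hs⟩ := EXP.level Q hQ hY hd c hlam (κ T)
    refine ⟨b₁, hb₁.2, hκ, hS b₁ hb₁.1, fun s hs0 => ?_⟩
    obtain ⟨η, h1, h2, h3⟩ := hs s hs0
    exact ⟨η, h1, hS _ h2.1, h3⟩
  have h0 : ∀ T : ℕ, ∃ b₀ : Fin (m + 1) → ℂ, (∀ j, b₀ j ≠ 0) ∧
      ((∃ b₁ : Fin (m + 1) → ℂ, (∀ j, b₁ j ≠ 0) ∧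
        ∑ j, c j * Real.log ‖b₁ j‖ = κ T ∧ Spec k (Sum.elim a b) (Sum.elim (x T) b₁) ∧
        ∀ s : ℝ, 0 < s → ∃ η : Fin (m + 1) → ℂ, ‖η‖ = s ∧
          Spec k (Sum.elim a b) (Sum.elim (x T) fun j => b₁ j * Complex.exp (η j)) ∧
          (∑ j, (c j : ℂ) * η j).re = 0) →
        ∑ j, c j * Real.log ‖b₀ j‖ = κ T ∧ Spec k (Sum.elim a b) (Sum.elim (x T) b₀) ∧
        ∀ s : ℝ, 0 < s → ∃ η : Fin (m + 1) → ℂ, ‖η‖ = s ∧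
          Spec k (Sum.elim a b) (Sum.elim (x T) fun j => b₀ j * Complex.exp (η j)) ∧
          (∑ j, (c j : ℂ) * η j).re = 0) := by
    intro T
    by_cases hT : ∃ b₁ : Fin (m + 1) → ℂ, (∀ j, b₁ j ≠ 0) ∧
        ∑ j, c j * Real.log ‖b₁ j‖ = κ T ∧ Spec k (Sum.elim a b) (Sum.elim (x T) b₁) ∧
        ∀ s : ℝ, 0 < s → ∃ η : Fin (m + 1) → ℂ, ‖η‖ = s ∧
          Spec k (Sum.elim a b) (Sum.elim (x T) fun j => b₁ j * Complex.exp (η j)) ∧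
          (∑ j, (c j : ℂ) * η j).re = 0
    · obtain ⟨b₁, h2, h3⟩ := hT
      exact ⟨b₁, h2, fun _ => h3⟩
    · exact ⟨fun _ => 1, fun j => one_ne_zero, fun h => absurd h hT⟩
  choose b' hb' using h0
  have hb0 : ∀ T j, b' T j ≠ 0 := fun T => (hb' T).1
  have h2 : ∀ᶠ T : ℕ in (𝒰 : Filter ℕ), ∑ j, c j * Real.log ‖b' T j‖ = κ T ∧
      Spec k (Sum.elim a b) (Sum.elim (x T) (b' T)) ∧
      ∀ s : ℝ, 0 < s → ∃ η : Fin (m + 1) → ℂ, ‖η‖ = s ∧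
        Spec k (Sum.elim a b) (Sum.elim (x T) fun j => b' T j * Complex.exp (η j)) ∧
        (∑ j, (c j : ℂ) * η j).re = 0 := by
    filter_upwards [h1] with T hT
    exact (hb' T).2 hT
  obtain ⟨C, hC⟩ := bddW k β hβ c hc P hP 𝒰 h𝒰 b' hb0 (by
    filter_upwards [h2, hx] with T hT hxT i j hij
    have h3 := hPV i j hij (x T) (b' T) hT.2.1
    have h4 : (fun l : Fin m => x T l.succ) = fun l => Complex.I * (T : ℂ) * (β l : ℂ) := by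
      funext l
      exact hxT l
    rwa [h4] at h3) κ C0 hC0 (h2.mono fun T hT => hT.1)
  obtain ⟨Z, hZ, hbad⟩ := exists_bad k hk β hβ P hP 𝒰 h𝒰 b' hb0
  obtain ⟨i, θ, η, ηi, h3, h4, h5, h6, h7⟩ := exists_s c 𝒰 Z hZ
    (fun T η => Spec k (Sum.elim a b) (Sum.elim (x T) fun j => b' T j * Complex.exp (η j)))
    (by
      filter_upwards [h2] with T hT s hs
      exact hT.2.2 s hs)
  obtain ⟨h8, h9⟩ := hbad i (fun j => Complex.exp (ηi j)) h7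
  refine ⟨b', i, θ, η, ηi, C, hb0, ?_, h4, h5, h6, h8, h9⟩
  filter_upwards [h2, h3, hC] with T hT2 hT3 hTC
  exact ⟨hT3.1, hT3.2.1, hT3.2.2, hT2.1, hTC⟩

end Pool.Agent.EXW
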